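import Pool.Agent.H29B.Stm

/-!
# Project ALL, part 2, piece CRB: from the real condition to the local condition over `ℝ`
-/

set_option autoImplicit false
set_option linter.all false

open IsDedekindDomain NumberField Filter WeierstrassCurve WeierstrassCurve.Affine
open scoped Classical Matrix

namespace Pool.Agent.H29B.CRB

open Pool.Agent
open Pool.Agent.TH115.GD
open Pool.Agent.Y710.CV (Cond cond1 cond2)
open Pool.Agent.Y702.G (sh base pts)
open Pool.Agent.R425.G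
open Pool.Agent.N922.PQ (IsCub dsc)
open Pool.Agent.Helper29L.LOW

theorem three_roots (A B : ℝ) (h : 4 * A ^ 3 + 27 * B ^ 2 < 0) : ∃ t0 t1 t2 : ℝ, t0 < t1 ∧ t1 < t2 ∧
    t0 + t1 + t2 = 0 ∧ t0 * t1 + t0 * t2 + t1 * t2 = A ∧ t0 * t1 * t2 = -B := by
  set f : ℝ → ℝ := fun x => x ^ 3 + A * x + B with hf
  have hcont : Continuous f := by fun_prop
  have hA : A < 0 := by
    by_contra hA
    push Not at hA
    have : 0 ≤ 4 * A ^ 3 + 27 * B ^ 2 := by positivity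
    linarith
  set s : ℝ := √(-A / 3) with hs
  have hs2 : s ^ 2 = -A / 3 := Real.sq_sqrt (by linarith)
  have hs0 : 0 < s := Real.sqrt_pos.2 (by linarith)
  have hAs : A = -3 * s ^ 2 := by linarith
  have hB : B ^ 2 < (2 * s ^ 3) ^ 2 := by
    rw [hAs] at h
    nlinarith [h]
  have hB1 := abs_lt_of_sq_lt_sq' hB (by positivity)
  obtain ⟨hB1, hB2⟩ := hB1
  have hfs : f s < 0 := by
    simp only [hf]
    rw [hAs]
    nlinarith
  have hfms : 0 < f (-s) := by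
    simp only [hf]
    rw [hAs]
    nlinarith
  have hf2s : 0 < f (2 * s) := by
    simp only [hf]
    rw [hAs]
    nlinarith
  have hfm2s : f (-(2 * s)) < 0 := by
    simp only [hf]
    rw [hAs]
    nlinarith
  obtain ⟨t0, ht0, h0⟩ := intermediate_value_Ioo (by linarith : -(2 * s) ≤ -s) hcont.continuousOn
    (⟨hfm2s, hfms⟩ : (0 : ℝ) ∈ Set.Ioo (f (-(2 * s))) (f (-s)))
  obtain ⟨t1, ht1, h1⟩ := intermediate_value_Ioo' (by linarith : -s ≤ s) hcont.continuousOn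
    (⟨hfs, hfms⟩ : (0 : ℝ) ∈ Set.Ioo (f s) (f (-s)))
  obtain ⟨t2, ht2, h2⟩ := intermediate_value_Ioo (by linarith : s ≤ 2 * s) hcont.continuousOn
    (⟨hfs, hf2s⟩ : (0 : ℝ) ∈ Set.Ioo (f s) (f (2 * s)))
  have h01 : t0 < t1 := lt_trans ht0.2 ht1.1
  have h12 : t1 < t2 := lt_trans ht1.2 ht2.1
  simp only [hf] at h0 h1 h2
  have e1 : t0 ^ 2 + t0 * t1 + t1 ^ 2 + A = 0 := by
    have : (t0 - t1) * (t0 ^ 2 + t0 * t1 + t1 ^ 2 + A) = 0 := by linear_combination h0 - h1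
    exact (mul_eq_zero.1 this).resolve_left (by linarith)
  have e2 : t0 ^ 2 + t0 * t2 + t2 ^ 2 + A = 0 := by
    have : (t0 - t2) * (t0 ^ 2 + t0 * t2 + t2 ^ 2 + A) = 0 := by linear_combination h0 - h2
    exact (mul_eq_zero.1 this).resolve_left (by linarith)
  have e3 : t0 + t1 + t2 = 0 := by
    have : (t1 - t2) * (t0 + t1 + t2) = 0 := by linear_combination e1 - e2
    exact (mul_eq_zero.1 this).resolve_left (by linarith)
  have e4 : t0 * t1 + t0 * t2 + t1 * t2 = A := by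
    linear_combination (-1 : ℝ) * e1 + (t0 + t1) * e3
  refine ⟨t0, t1, t2, h01, h12, e3, e4, ?_⟩
  linear_combination h0 + t0 * e4 - t0 ^ 2 * e3

theorem main : S_CRB := by
  intro L _ _ a b θ hθ hdsc d hd z hz hzn hpos
  have hd0 : d ≠ 0 := hd.ne'
  have hdR : (0 : ℝ) < d := by exact_mod_cast hd
  have hcf : CF (sh (Wt a b d)) L (4 * d * θ) := cf_of hθ hd0
  obtain ⟨r, hr⟩ := hzn
  have hr2 : Algebra.norm ℚ z = r ^ 2 := by rw [hr, sq]
  have hr0 : r ≠ 0 := by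
    intro h
    rw [h, zero_pow two_ne_zero, Algebra.norm_eq_zero_iff] at hr2
    exact hz hr2
  have hWd := Wt_disc a b d
  rcases lt_or_gt_of_ne hdsc with hneg | hp
  swap
  · have hW : (Wt a b d).Δ < 0 := by
      rw [hWd]
      have : 0 < d ^ 6 := by positivity
      nlinarith [mul_pos this hp]
    exact cond_real hcf hW hr0 hr2 (RingEquiv.refl ℝ)
  have hW : (Wt a b d).Δ ≠ 0 := by
    rw [hWd]
    exact mul_ne_zero (mul_ne_zero (by norm_num) (pow_ne_zero _ hd0)) hdsc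
  have hV := iv_sh (Wt a b d) hW
  -- the real zeros
  obtain ⟨t0, t1, t2, h01, h12, es, eA, eB⟩ := three_roots (16 * a * d ^ 2) (64 * b * d ^ 3) (by
    have h1 : ((dsc a b : ℤ) : ℝ) < 0 := by exact_mod_cast hneg
    have h2 : (4 * (16 * (a : ℝ) * d ^ 2) ^ 3 + 27 * (64 * b * d ^ 3) ^ 2) =
        4096 * d ^ 6 * ((dsc a b : ℤ) : ℝ) := by
      simp only [Pool.Agent.N922.PQ.dsc]
      push_cast
      ring
    rw [h2]
    have : (0 : ℝ) < 4096 * d ^ 6 := by positivity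
    nlinarith)
  have hfac : ∀ x : ℝ, cub (sh (Wt a b d)) x = (x - t0) * (x - t1) * (x - t2) := by
    intro x
    rw [cub_Wt]
    linear_combination (-x) * eA + eB + x ^ 2 * es
  have hT0 : cub (sh (Wt a b d)) t0 = 0 := by rw [hfac]; ring
  have hT1 : cub (sh (Wt a b d)) t1 = 0 := by rw [hfac]; ring
  have hT2 : cub (sh (Wt a b d)) t2 = 0 := by rw [hfac]; ring
  have hrt : ∀ x : ℝ, cub (sh (Wt a b d)) x = 0 → x = t0 ∨ x = t1 ∨ x = t2 := by
    intro x hx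
    rw [hfac] at hx
    rcases mul_eq_zero.1 hx with h | h
    · rcases mul_eq_zero.1 h with h | h
      · left; linarith
      · right; left; linarith
    · right; right; linarith
  set φ0 := em hcf (⟨t0, hT0⟩ : Rt (sh (Wt a b d)) ℝ) with hφ0
  set φ1 := em hcf (⟨t1, hT1⟩ : Rt (sh (Wt a b d)) ℝ) with hφ1
  set φ2 := em hcf (⟨t2, hT2⟩ : Rt (sh (Wt a b d)) ℝ) with hφ2
  -- the sign at the smallest zero
  have hmin : ∀ ψ : L →+* ℝ, (φ0 : L →+* ℝ) θ ≤ ψ θ := by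
    intro ψ
    have h1 := hrt _ (root_em hcf ψ)
    have h2 : t0 ≤ ψ (4 * d * θ) := by
      rcases h1 with h | h | h <;> rw [h] <;> linarith
    have h3 : (φ0 : L →+* ℝ) (4 * d * θ) = t0 := em_root hcf _
    rw [← h3] at h2
    simp only [map_mul, map_ofNat, map_intCast] at h2
    have h4 : (0 : ℝ) < 4 * d := by positivity
    exact le_of_mul_le_mul_left h2 h4
  have hz0 : 0 < φ0 z := hpos (φ0 : L →+* ℝ) hmin
  set Ω := AlgebraicClosure ℝ with hΩ
  have hinj : Function.Injective (algebraMap ℝ Ω) := (algebraMap ℝ Ω).injective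
  have hcubΩ : ∀ x : ℝ, cub (sh (Wt a b d)) (algebraMap ℝ Ω x) =
      algebraMap ℝ Ω (cub (sh (Wt a b d)) x) := by
    intro x
    rw [cub_Wt, cub_Wt]
    simp only [map_add, map_mul, map_pow, map_ofNat, map_intCast]
  have hR0 : cub (sh (Wt a b d)) (algebraMap ℝ Ω t0) = 0 := by rw [hcubΩ, hT0, map_zero]
  have hR1 : cub (sh (Wt a b d)) (algebraMap ℝ Ω t1) = 0 := by rw [hcubΩ, hT1, map_zero]
  have hR2 : cub (sh (Wt a b d)) (algebraMap ℝ Ω t2) = 0 := by rw [hcubΩ, hT2, map_zero]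
  have hE0 : ∀ x : L, em hcf (⟨_, hR0⟩ : Rt (sh (Wt a b d)) Ω) x = algebraMap ℝ Ω (φ0 x) := by
    intro x
    refine (em_uniq hcf (⟨_, hR0⟩ : Rt (sh (Wt a b d)) Ω)
      ((algebraMap ℝ Ω).comp (φ0 : L →+* ℝ)) ?_ x).symm
    show algebraMap ℝ Ω (φ0 _) = _
    rw [hφ0, em_root]
  have hE1 : ∀ x : L, em hcf (⟨_, hR1⟩ : Rt (sh (Wt a b d)) Ω) x = algebraMap ℝ Ω (φ1 x) := by
    intro x
    refine (em_uniq hcf (⟨_, hR1⟩ : Rt (sh (Wt a b d)) Ω)
      ((algebraMap ℝ Ω).comp (φ1 : L →+* ℝ)) ?_ x).symm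
    show algebraMap ℝ Ω (φ1 _) = _
    rw [hφ1, em_root]
  have hE2 : ∀ x : L, em hcf (⟨_, hR2⟩ : Rt (sh (Wt a b d)) Ω) x = algebraMap ℝ Ω (φ2 x) := by
    intro x
    refine (em_uniq hcf (⟨_, hR2⟩ : Rt (sh (Wt a b d)) Ω)
      ((algebraMap ℝ Ω).comp (φ2 : L →+* ℝ)) ?_ x).symm
    show algebraMap ℝ Ω (φ2 _) = _
    rw [hφ2, em_root]
  have hC : IsC ((sh (Wt a b d)).baseChange Ω).toAffine (algebraMap ℝ Ω t0) (algebraMap ℝ Ω t1)
      (algebraMap ℝ Ω t2) := by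
    have eb2 := Wt_b2 a b d
    have eb4 := Wt_b4 a b d
    have eb6 := Wt_b6 a b d
    refine ⟨?_, ?_, ?_, ?_, ?_, two_ne_zero, ?_, ?_, ?_⟩
    · show algebraMap ℚ Ω 0 = 0
      exact map_zero _
    · show algebraMap ℚ Ω 0 = 0
      exact map_zero _
    · show algebraMap ℚ Ω (((Wt a b d).b₂ : ℤ) : ℚ) = _
      rw [eb2, ← map_add, ← map_add, es]
      simp
    · show algebraMap ℚ Ω (8 * (((Wt a b d).b₄ : ℤ) : ℚ)) = _
      rw [eb4, ← map_mul, ← map_mul, ← map_mul, ← map_add, ← map_add, eA]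
      push_cast
      simp only [map_mul, map_pow, map_ofNat, map_intCast]
      ring
    · show algebraMap ℚ Ω (16 * (((Wt a b d).b₆ : ℤ) : ℚ)) = _
      rw [eb6, ← map_mul, ← map_mul, eB]
      push_cast
      simp only [map_neg, map_mul, map_pow, map_ofNat, map_intCast]
      ring
    · exact fun h => h01.ne (hinj h)
    · exact fun h => (h01.trans h12).ne (hinj h)
    · exact fun h => h12.ne (hinj h)
  have hnorm : (r : ℝ) ^ 2 = φ0 z * φ1 z * φ2 z := by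
    apply hinj
    have h1 := norm_em hcf hC z
    rw [hE0, hE1, hE2, hr2] at h1
    simp only [map_mul, map_pow]
    rw [← h1]
    simp
  have hrR : 0 < (r : ℝ) ^ 2 := by
    have : (r : ℝ) ≠ 0 := by exact_mod_cast hr0
    positivity
  have h12' : 0 < φ1 z * φ2 z := by
    rw [hnorm, mul_assoc] at hrR
    exact pos_of_mul_pos_right hrR hz0.le
  have hcase : ∀ φ : L →+* Ω, (φ (4 * d * θ) = algebraMap ℝ Ω t0 ∧ φ z = algebraMap ℝ Ω (φ0 z)) ∨
      (φ (4 * d * θ) = algebraMap ℝ Ω t1 ∧ φ z = algebraMap ℝ Ω (φ1 z)) ∨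
      (φ (4 * d * θ) = algebraMap ℝ Ω t2 ∧ φ z = algebraMap ℝ Ω (φ2 z)) := by
    intro φ
    rcases hC.root (root_em hcf φ) with h | h | h
    · left
      exact ⟨h, (em_uniq hcf (⟨_, hR0⟩ : Rt (sh (Wt a b d)) Ω) φ h z).trans (hE0 z)⟩
    · right; left
      exact ⟨h, (em_uniq hcf (⟨_, hR1⟩ : Rt (sh (Wt a b d)) Ω) φ h z).trans (hE1 z)⟩
    · right; right
      exact ⟨h, (em_uniq hcf (⟨_, hR2⟩ : Rt (sh (Wt a b d)) Ω) φ h z).trans (hE2 z)⟩
  rcases lt_or_ge 0 (φ1 z) with hp1 | hn1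
  · have hp2 : 0 < φ2 z := pos_of_mul_pos_right h12' hp1.le
    refine cond1 fun φ => ?_
    obtain ⟨s, hs, hφz⟩ : ∃ s : ℝ, 0 < s ∧ φ z = algebraMap ℝ Ω s := by
      rcases hcase φ with h | h | h
      · exact ⟨_, hz0, h.2⟩
      · exact ⟨_, hp1, h.2⟩
      · exact ⟨_, hp2, h.2⟩
    refine ⟨algebraMap ℝ Ω (√s), fun σ _ => σ.commutes _, ?_⟩
    rw [hφz, ← map_pow, Real.sq_sqrt hs.le]
  · have hn1 : φ1 z < 0 := lt_of_le_of_ne hn1 (by
      intro h
      rw [h, zero_mul] at h12'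
      exact lt_irrefl _ h12')
    have hn2 : φ2 z < 0 := by
      by_contra h
      push Not at h
      exact absurd h12' (not_lt.2 (mul_nonpos_of_nonpos_of_nonneg hn1.le h))
    set x : ℝ := (t0 + t1) / 2 with hx
    have hx0 : 0 < x - t0 := by rw [hx]; linarith
    have hx1 : x - t1 < 0 := by rw [hx]; linarith
    have hx2 : x - t2 < 0 := by rw [hx]; linarith
    have hcx : 0 < cub (sh (Wt a b d)) x := by
      rw [hfac]
      exact mul_pos_of_neg_of_neg (mul_neg_of_pos_of_neg hx0 hx1) hx2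
    refine cond2 hV.a1 hV.a3 hV.Δ (x := x) (y := √(cub (sh (Wt a b d)) x)) (Real.sq_sqrt hcx.le)
      fun φ => ?_
    obtain ⟨t, s, hφθ, hφz, hne, hst⟩ : ∃ t s : ℝ, φ (4 * d * θ) = algebraMap ℝ Ω t ∧
        φ z = algebraMap ℝ Ω s ∧ x - t ≠ 0 ∧ 0 < s / (x - t) := by
      rcases hcase φ with h | h | h
      · exact ⟨t0, _, h.1, h.2, hx0.ne', div_pos hz0 hx0⟩
      · exact ⟨t1, _, h.1, h.2, hx1.ne, div_pos_of_neg_of_neg hn1 hx1⟩
      · exact ⟨t2, _, h.1, h.2, hx2.ne, div_pos_of_neg_of_neg hn2 hx2⟩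
    refine ⟨algebraMap ℝ Ω (√(s / (x - t))), algebraMap ℝ Ω (x - t), fun σ _ => σ.commutes _, ?_,
      Or.inr ⟨?_, ?_⟩⟩
    · rw [hφz, ← map_pow, Real.sq_sqrt hst.le, ← map_mul, div_mul_cancel₀ _ hne]
    · rw [hφθ]
      intro h
      exact hne (sub_eq_zero.2 (hinj h))
    · rw [hφθ, map_sub]

end Pool.Agent.H29B.CRB

namespace Pool.Agent.H29B

theorem t_CRB : S_CRB := CRB.main

end Pool.Agent.H29B
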