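import Pool.Agent.H29B.Stm
import Pool.Agent.H29A.DIAGW
import Pool.Agent.Helper29L.Size1

/-!
# Project ALL, part 2 (helper29), piece DIAGB (helper22): diagonalisation of the ternary form, with the real condition
(copy of `H29A/DIAGW.lean`, another proof at the real place)
-/

set_option autoImplicit false
set_option linter.all false

open Matrix Polynomial
open scoped Classical

namespace Pool.Agent.H29B

open Pool.Agent.H29A
open Pool.Agent.N922.PQ
open Pool.Agent.N655.PQ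
open Pool.Agent.R425.G (Rt em em_root)
open Pool.Agent.Helper29L.SZ (VV cub_VV cf_VV)

theorem emb_root {L : Type} [Field L] [NumberField L] {a b : ℤ} {θ : L} (h : IsCub a b θ)
    (φ : L →+* ℝ) : (φ θ) ^ 3 + (a : ℝ) * φ θ + (b : ℝ) = 0 := by
  have h1 := congrArg φ h.root
  simpa using h1

theorem exists_emb' {L : Type} [Field L] [NumberField L] {a b : ℤ} {θ : L} (h : IsCub a b θ)
    {t : ℝ} (ht : t ^ 3 + (a : ℝ) * t + (b : ℝ) = 0) : ∃ φ : L →+* ℝ, φ θ = t := by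
  have hr : Pool.Agent.TH115.GD.cub (VV a b) t = 0 := by
    rw [cub_VV]
    exact ht
  exact ⟨(em (cf_VV h) (⟨t, hr⟩ : Rt (VV a b) ℝ) : L →+* ℝ), em_root (cf_VV h) _⟩

/-- an embedding with the smallest image of `θ` -/
theorem exists_min_emb {L : Type} [Field L] [NumberField L] {a b : ℤ} {θ : L} (h : IsCub a b θ) :
    ∃ φ : L →+* ℝ, ∀ ψ : L →+* ℝ, φ θ ≤ ψ θ := by
  obtain ⟨t, ht⟩ := exists_root' a b
  obtain ⟨φ, _⟩ := exists_emb' h ht
  haveI : Nonempty (L →+* ℝ) := ⟨φ⟩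
  exact Finite.exists_min fun φ : L →+* ℝ => φ θ

theorem deriv_pos {L : Type} [Field L] [NumberField L] {a b : ℤ} {θ : L} (h : IsCub a b θ)
    (hd : dsc a b ≠ 0) (φ : L →+* ℝ) (hφ : ∀ ψ : L →+* ℝ, φ θ ≤ ψ θ) :
    0 < 3 * (φ θ) ^ 2 + (a : ℝ) := by
  have ht := emb_root h φ
  obtain ⟨t, htd⟩ : ∃ t, t = φ θ := ⟨_, rfl⟩
  rw [← htd] at ht hφ ⊢
  have hd' : (4 * (a : ℝ) ^ 3 + 27 * (b : ℝ) ^ 2) ≠ 0 := by
    unfold dsc at hd
    exact_mod_cast hd
  have h0 : 3 * t ^ 2 + (a : ℝ) ≠ 0 := by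
    intro h1
    apply hd'
    have h2 : 4 * (a : ℝ) ^ 3 + 27 * (b : ℝ) ^ 2 = (3 * t ^ 2 + 4 * (a : ℝ)) * (3 * t ^ 2 + a) ^ 2 := by
      have hb : (b : ℝ) = -(t ^ 3 + a * t) := by linarith
      rw [hb]
      ring
    rw [h2, h1]
    ring
  by_contra hneg
  have h1 : 3 * t ^ 2 + (a : ℝ) < 0 := lt_of_le_of_ne (not_lt.1 hneg) h0
  have hD : (0 : ℝ) ≤ -3 * t ^ 2 - 4 * a := by nlinarith [sq_nonneg t]
  have hs := Real.sq_sqrt hD
  have h2 : |3 * t| < √(-3 * t ^ 2 - 4 * a) := by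
    apply Real.lt_sqrt_of_sq_lt
    rw [sq_abs]
    nlinarith
  have h3 : -(3 * t) ≤ |3 * t| := neg_le_abs _
  obtain ⟨s, hsd⟩ : ∃ s, s = √(-3 * t ^ 2 - 4 * a) := ⟨_, rfl⟩
  rw [← hsd] at hs h2
  have h4 : ((-t - s) / 2) ^ 3 + (a : ℝ) * ((-t - s) / 2) + (b : ℝ) = 0 := by
    have h5 : ((-t - s) / 2) ^ 3 + (a : ℝ) * ((-t - s) / 2) + (b : ℝ) =
        (t ^ 3 + a * t + b) + ((-t - s) / 2 - t) * ((s ^ 2 + 3 * t ^ 2 + 4 * a) / 4) := by
      ring
    rw [h5, ht, hs]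
    ring
  obtain ⟨ψ, hψ⟩ := exists_emb' h h4
  have h5 := hφ ψ
  rw [hψ] at h5
  linarith

/-- the linear functional of the first root -/
theorem co_emb {L : Type} [Field L] [NumberField L] {a b : ℤ} {θ : L} (h : IsCub a b θ)
    (φ : L →+* ℝ) (z : L) :
    ((h.co 2 (θ ^ 2 * z) : ℚ) : ℝ) + φ θ * ((h.co 2 (θ * z) : ℚ) : ℝ) +
      ((φ θ) ^ 2 + (a : ℝ)) * ((h.co 2 z : ℚ) : ℝ) = φ z := by
  have hco : ∀ r s t : ℚ, h.co 2 ((r : L) + (s : L) * θ + (t : L) * θ ^ 2) = t := by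
    intro r s t
    have e : ((r : L) + (s : L) * θ + (t : L) * θ ^ 2) = r • θ ^ ((0 : Fin 3) : ℕ) +
        s • θ ^ ((1 : Fin 3) : ℕ) + t • θ ^ ((2 : Fin 3) : ℕ) := by
      simp [Rat.smul_def]
    rw [e, map_add, map_add, map_smul, map_smul, map_smul, co_pow, co_pow, co_pow]
    simp
  obtain ⟨r, s, t, hz⟩ := h.gen z
  have hθ3 : θ ^ 3 = -(a : L) * θ - (b : L) := by linear_combination h.root
  have e1 : θ * z = (((-t * b : ℚ)) : L) + (((r - t * a : ℚ)) : L) * θ + ((s : ℚ) : L) * θ ^ 2 := by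
    rw [hz]
    push_cast
    linear_combination (t : L) * hθ3
  have e2 : θ ^ 2 * z = (((-s * b : ℚ)) : L) + (((-t * b - s * a : ℚ)) : L) * θ +
      (((r - t * a : ℚ)) : L) * θ ^ 2 := by
    rw [hz]
    push_cast
    linear_combination ((s : L) + (t : L) * θ) * hθ3
  rw [e1, e2, hco, hco]
  nth_rewrite 1 [hz]
  rw [hco, hz, map_add, map_add, map_mul, map_mul, map_pow, map_ratCast, map_ratCast, map_ratCast]
  push_cast
  ring

theorem t_DIAGB : S_DIAGB := by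
  intro L _ _ a b θ h hd0 α hα hsq hreal
  set M : Matrix (Fin 3) (Fin 3) ℚ :=
    Matrix.of fun i j => h.co 2 (θ ^ (i : ℕ) * θ ^ (j : ℕ) / α) with hMdef
  have hMs : M.IsSymm := by
    ext i j
    rw [hMdef, Matrix.transpose_apply, Matrix.of_apply, Matrix.of_apply, mul_comm (θ ^ (j : ℕ))]
  obtain ⟨P, A, hP, hD⟩ := exists_diag M hMs
  obtain ⟨n, hn⟩ := hsq
  have hn0 : n ≠ 0 := by
    rintro rfl
    rw [mul_zero, Algebra.norm_eq_zero_iff] at hn
    exact hα hn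
  have hdet : M.det = -(n⁻¹) ^ 2 := by
    have h1 := det_eq h α⁻¹
    have h2 : (Matrix.of fun i j : Fin 3 => h.co 2 (θ ^ (i : ℕ) * θ ^ (j : ℕ) * α⁻¹)) = M := by
      ext i j
      rw [hMdef, Matrix.of_apply, Matrix.of_apply, div_eq_mul_inv]
    have h3 : Algebra.norm ℚ α⁻¹ = (n * n)⁻¹ := by
      rw [← hn]
      apply eq_inv_of_mul_eq_one_left
      rw [← map_mul, inv_mul_cancel₀ hα, map_one]
    rw [h2, h3] at h1
    rw [h1, mul_inv]
    ring
  set ρ : ℚ := P.det * n⁻¹ with hρdef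
  have hρ : ρ ≠ 0 := mul_ne_zero hP (inv_ne_zero hn0)
  have hA : A 0 * A 1 * A 2 = -ρ ^ 2 := by
    have h1 := congrArg Matrix.det hD
    rw [Matrix.det_mul, Matrix.det_mul, Matrix.det_transpose, Matrix.det_diagonal,
      Fin.prod_univ_three, hdet] at h1
    rw [← h1, hρdef]
    ring
  have hne : A 0 * A 1 * A 2 ≠ 0 := by
    rw [hA]
    exact neg_ne_zero.2 (pow_ne_zero 2 hρ)
  have h0 : A 0 ≠ 0 := left_ne_zero_of_mul (left_ne_zero_of_mul hne)
  have h1 : A 1 ≠ 0 := right_ne_zero_of_mul (left_ne_zero_of_mul hne)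
  refine ⟨(A 0).num * (A 0).den, (A 1).num * (A 1).den, ?_, ?_, ?_, ?_, ?_⟩
  · exact mul_ne_zero (Rat.num_ne_zero.2 h0) (by exact_mod_cast (A 0).den_ne_zero)
  · exact mul_ne_zero (Rat.num_ne_zero.2 h1) (by exact_mod_cast (A 1).den_ne_zero)
  · -- the real place
    have hpos : 0 < A 0 ∨ 0 < A 1 := by
      by_contra hcon
      push Not at hcon
      have g0 : A 0 < 0 := lt_of_le_of_ne hcon.1 h0
      have g1 : A 1 < 0 := lt_of_le_of_ne hcon.2 h1
      have g2 : A 2 < 0 := by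
        by_contra h2
        push Not at h2
        have h3 : 0 ≤ A 0 * A 1 * A 2 := mul_nonneg (mul_pos_of_neg_of_neg g0 g1).le h2
        rw [hA] at h3
        have : 0 < ρ ^ 2 := by positivity
        linarith
      have g0' : (A 0 : ℝ) < 0 := by exact_mod_cast g0
      have g1' : (A 1 : ℝ) < 0 := by exact_mod_cast g1
      have g2' : (A 2 : ℝ) < 0 := by exact_mod_cast g2
      have hneg : ∀ x : Fin 3 → ℝ, x ≠ 0 →
          ∑ i : Fin 3, ∑ j : Fin 3, (M i j : ℝ) * x i * x j < 0 := by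
        intro x hx
        obtain ⟨y, rfl⟩ := mF_surj hP x
        have hy : y ≠ 0 := by
          rintro rfl
          exact hx (Matrix.mulVec_zero _)
        rw [form_eq hD]
        obtain ⟨i, hi⟩ := Function.ne_iff.1 hy
        have hi' : 0 < y i ^ 2 := by
          have : y i ≠ 0 := hi
          positivity
        have s0 : (A 0 : ℝ) * y 0 ^ 2 ≤ 0 := mul_nonpos_of_nonpos_of_nonneg g0'.le (sq_nonneg _)
        have s1 : (A 1 : ℝ) * y 1 ^ 2 ≤ 0 := mul_nonpos_of_nonpos_of_nonneg g1'.le (sq_nonneg _)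
        have s2 : (A 2 : ℝ) * y 2 ^ 2 ≤ 0 := mul_nonpos_of_nonpos_of_nonneg g2'.le (sq_nonneg _)
        fin_cases i
        · have := mul_neg_of_neg_of_pos g0' hi'
          simp only [Fin.zero_eta] at this
          linarith
        · have := mul_neg_of_neg_of_pos g1' hi'
          simp only [Fin.mk_one] at this
          linarith
        · have := mul_neg_of_neg_of_pos g2' hi'
          simp only [Fin.reduceFinMk] at this
          linarith
      obtain ⟨φ, hφmin⟩ := exists_min_emb h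
      obtain ⟨t, htd⟩ : ∃ t, t = φ θ := ⟨_, rfl⟩
      have ht : t ^ 3 + (a : ℝ) * t + (b : ℝ) = 0 := by
        rw [htd]
        exact emb_root h φ
      have hpos1 : 0 < 3 * t ^ 2 + (a : ℝ) := by
        rw [htd]
        exact deriv_pos h hd0 φ hφmin
      have hφα : 0 < φ α := hreal φ hφmin
      have e1 := hneg ![t ^ 2 + (a : ℝ), t, 1] (by
        intro h
        have := congrFun h 2
        simp at this)
      have m3 := congrArg (Rat.cast : ℚ → ℝ) (co3 h α⁻¹)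
      have m4 := congrArg (Rat.cast : ℚ → ℝ) (co3 h (θ * α⁻¹))
      push_cast at m3 m4
      have mT := co_emb h φ α⁻¹
      rw [← htd] at mT
      set m : ℕ → ℝ := fun k => ((h.co 2 (θ ^ k * α⁻¹) : ℚ) : ℝ) with hm
      have hMm : ∀ i j : Fin 3, (M i j : ℝ) = m ((i : ℕ) + j) := by
        intro i j
        simp only [hm]
        rw [hMdef, Matrix.of_apply, pow_add, div_eq_mul_inv]
      have r3 : m 3 = -(a : ℝ) * m 1 - (b : ℝ) * m 0 := by
        simp only [hm, pow_one, pow_zero, one_mul]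
        exact m3
      have r4 : m 4 = -(a : ℝ) * m 2 - (b : ℝ) * m 1 := by
        simp only [hm, pow_one]
        have u1 : θ ^ 4 * α⁻¹ = θ ^ 3 * (θ * α⁻¹) := by ring
        have u2 : θ ^ 2 * α⁻¹ = θ * (θ * α⁻¹) := by ring
        rw [u1, u2]
        exact m4
      have rT : m 2 + t * m 1 + (t ^ 2 + (a : ℝ)) * m 0 = φ α⁻¹ := by
        simp only [hm, pow_one, pow_zero, one_mul]
        exact mT
      have hinv : 0 < φ α⁻¹ := by
        rw [map_inv₀]
        exact inv_pos.2 hφα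
      simp only [Fin.sum_univ_three, hMm] at e1
      simp only [Matrix.cons_val_zero, Matrix.cons_val_one, Matrix.cons_val,
        Fin.val_zero, Fin.val_one, Fin.val_two, add_zero, zero_add] at e1
      norm_num at e1
      rw [r3, r4] at e1
      have e3 : 0 < (3 * t ^ 2 + (a : ℝ)) * (m 2 + t * m 1 + (t ^ 2 + (a : ℝ)) * m 0) := by
        rw [rT]
        exact mul_pos hpos1 hinv
      have e4 : m 0 * (t ^ 2 + (a : ℝ)) * (t ^ 2 + (a : ℝ)) + m 1 * (t ^ 2 + (a : ℝ)) * t +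
          m 2 * (t ^ 2 + (a : ℝ)) + (m 1 * t * (t ^ 2 + (a : ℝ)) + m 2 * t * t +
          (-(a : ℝ) * m 1 - (b : ℝ) * m 0) * t) + (m 2 * (t ^ 2 + (a : ℝ)) +
          (-(a : ℝ) * m 1 - (b : ℝ) * m 0) * t + (-(a : ℝ) * m 2 - (b : ℝ) * m 1)) < 0 := by
        linarith
      have e5 : m 0 * (t ^ 2 + (a : ℝ)) * (t ^ 2 + (a : ℝ)) + m 1 * (t ^ 2 + (a : ℝ)) * t +
          m 2 * (t ^ 2 + (a : ℝ)) + (m 1 * t * (t ^ 2 + (a : ℝ)) + m 2 * t * t +
          (-(a : ℝ) * m 1 - (b : ℝ) * m 0) * t) + (m 2 * (t ^ 2 + (a : ℝ)) +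
          (-(a : ℝ) * m 1 - (b : ℝ) * m 0) * t + (-(a : ℝ) * m 2 - (b : ℝ) * m 1)) =
          (3 * t ^ 2 + (a : ℝ)) * (m 2 + t * m 1 + (t ^ 2 + (a : ℝ)) * m 0) := by
        linear_combination (-2 * t * m 0 - m 1) * ht
      rw [e5] at e4
      linarith
    have key : ∀ q : ℚ, 0 < q → (0 : ℝ) < ((q.num * q.den : ℤ) : ℝ) := by
      intro q hq
      have h3 : 0 < q.num := Rat.num_pos.2 hq
      have h4 : (0 : ℤ) < q.den := by exact_mod_cast q.den_pos
      exact_mod_cast mul_pos h3 h4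
    rcases hpos with h3 | h3
    · refine ⟨1, 0, √(((A 0).num * (A 0).den : ℤ) : ℝ), fun h4 => one_ne_zero h4.1, ?_⟩
      rw [Real.sq_sqrt (key _ h3).le]
      ring
    · refine ⟨0, 1, √(((A 1).num * (A 1).den : ℤ) : ℝ), fun h4 => one_ne_zero h4.2.1, ?_⟩
      rw [Real.sq_sqrt (key _ h3).le]
      ring
  · intro p hp
    rw [← spl_iff hρ hA]
    unfold IsoAt
    constructor
    · rintro ⟨x, hx, he⟩
      obtain ⟨y, rfl⟩ := mF_surj hP x
      refine ⟨y, ?_, ?_⟩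
      · rintro rfl
        exact hx (Matrix.mulVec_zero _)
      · rw [← form_eq hD]
        exact he
    · rintro ⟨y, hy, he⟩
      refine ⟨mF ℚ_[p] P *ᵥ y, mF_ne hP hy, ?_⟩
      rw [← form_eq hD] at he
      exact he
  · intro hspl
    have h3 := (spl_iff (F := ℚ) hρ hA).2 (by simpa using hspl)
    obtain ⟨y, hy, he⟩ := h3
    have h4 := mF_ne (F := ℚ) hP hy
    rw [← form_eq hD] at he
    set z : Fin 3 → ℚ := mF ℚ P *ᵥ y with hz
    refine ⟨∑ i : Fin 3, z i • θ ^ (i : ℕ), ?_, ?_⟩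
    · intro h5
      apply h4
      have h6 := Fintype.linearIndependent_iff.1 h.basis.linearIndependent z (by
        simpa only [basis_pow h] using h5)
      funext i
      exact h6 i
    · rw [← he]
      simp only [Fin.sum_univ_three, hMdef, Matrix.of_apply, Rat.cast_id]
      have e : ((z 0 • θ ^ ((0 : Fin 3) : ℕ) + z 1 • θ ^ ((1 : Fin 3) : ℕ) + z 2 • θ ^ ((2 : Fin 3) : ℕ)) *
          (z 0 • θ ^ ((0 : Fin 3) : ℕ) + z 1 • θ ^ ((1 : Fin 3) : ℕ) + z 2 • θ ^ ((2 : Fin 3) : ℕ)) / α) =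
          (z 0 * z 0) • (θ ^ ((0 : Fin 3) : ℕ) * θ ^ ((0 : Fin 3) : ℕ) / α) +
          (z 0 * z 1) • (θ ^ ((0 : Fin 3) : ℕ) * θ ^ ((1 : Fin 3) : ℕ) / α) +
          (z 0 * z 2) • (θ ^ ((0 : Fin 3) : ℕ) * θ ^ ((2 : Fin 3) : ℕ) / α) +
          (z 1 * z 0) • (θ ^ ((1 : Fin 3) : ℕ) * θ ^ ((0 : Fin 3) : ℕ) / α) +
          (z 1 * z 1) • (θ ^ ((1 : Fin 3) : ℕ) * θ ^ ((1 : Fin 3) : ℕ) / α) +
          (z 1 * z 2) • (θ ^ ((1 : Fin 3) : ℕ) * θ ^ ((2 : Fin 3) : ℕ) / α) +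
          (z 2 * z 0) • (θ ^ ((2 : Fin 3) : ℕ) * θ ^ ((0 : Fin 3) : ℕ) / α) +
          (z 2 * z 1) • (θ ^ ((2 : Fin 3) : ℕ) * θ ^ ((1 : Fin 3) : ℕ) / α) +
          (z 2 * z 2) • (θ ^ ((2 : Fin 3) : ℕ) * θ ^ ((2 : Fin 3) : ℕ) / α) := by
        simp only [Rat.smul_def]
        push_cast
        field_simp
        ring
      rw [e]
      simp only [map_add, map_smul, smul_eq_mul]
      ring

end Pool.Agent.H29B
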