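import Pool.Agent.H29B.Stm
import Pool.Agent.H29A.EVC

/-!
# Project ALL, part 2 (helper29), piece EVB (helper22): copy of `H29A/EVC.lean` (helper61) with `GB` in place of `GW`
-/

set_option autoImplicit false
set_option linter.all false

open Polynomial IsDedekindDomain WeierstrassCurve WeierstrassCurve.Affine NumberField
open scoped Classical IntermediateField

namespace Pool.Agent.H29B

open Pool.Agent.H29A
open Pool.Agent.N922.PQ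
open Pool.Agent.TH115.GD (Sep Comp IsCoc LocTriv Pt act rs)
open Pool.Agent.H30GS (unr_q res_q isGal_q finrank_q)
open Pool.Agent.H30EV (Unr Res pz valQ ns_top')
open Pool.Agent.Helper29L (Gp PBad InB PD NBas NN cubD not_ev_exp)
open Pool.Agent.N874.PP (Tup chA chB gq tau Two Ev Sq1 U0 sW IsBeta Rt sg)
open Pool.Agent.N874.PM (PLoc Lies)

theorem evb_root {W : ℕ} {a b d : ℤ} (hG : GB W a b) (hd : d ≠ 0) (t : ℚ) :
    t ^ 3 + ((a * d ^ 2 : ℤ) : ℚ) * t + ((b * d ^ 3 : ℤ) : ℚ) ≠ 0 := by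
  intro ht
  have hd' : (d : ℚ) ≠ 0 := by exact_mod_cast hd
  have h1 : (t / d) ^ 3 + (a : ℚ) * (t / d) + (b : ℚ) = 0 := by
    have h2 : ((t / d) ^ 3 + (a : ℚ) * (t / d) + (b : ℚ)) * (d : ℚ) ^ 3 = 0 := by
      rw [← ht]
      push_cast
      field_simp
    exact (mul_eq_zero.1 h2).resolve_right (pow_ne_zero 3 hd')
  have hint : IsIntegral ℤ (t / (d : ℚ)) := by
    refine ⟨X ^ 3 + C a * X + C b, by monicity!, ?_⟩
    rw [eval₂_add, eval₂_add, eval₂_mul, eval₂_C, eval₂_C, eval₂_X, eval₂_pow, eval₂_X]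
    simpa using h1
  obtain ⟨z, hz⟩ := IsIntegrallyClosed.isIntegral_iff.1 hint
  rw [eq_intCast] at hz
  rw [← hz] at h1
  exact hG.irr z (by exact_mod_cast h1)

/-- **EVB.** -/
theorem t_EVB (hE : S_EXW) : S_EVB := by
  intro W hW L _ _ a b θ Z d hc hG hZ hd f hf h2f hloc β h hβ hh
  haveI := isGal_q
  have H : Parts2 := parts2
  have hpr : ∀ Q ∈ Z, IsPr Q := fun Q hQ => (hZ Q hQ).pr
  have hd1 : 0 < d := by
    rw [hd]
    exact Finset.prod_pos fun Q hQ => (hpr Q hQ).1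
  have hd0 : d ≠ 0 := hd1.ne'
  have h6M : (6 : ℚ) ≠ 0 := by norm_num
  have hirr : Irreducible (X ^ 3 + C (((a * d ^ 2 : ℤ)) : ℚ) * X +
      C (((b * d ^ 3 : ℤ)) : ℚ) : ℚ[X]) :=
    irr_tw' (F := ℚ) (a := a * d ^ 2) (b := b * d ^ 3) (evb_root hG hd0)
  have hdsc0 : dsc a b ≠ 0 := hG.ne
  have hdisc : 4 * (((a * d ^ 2 : ℤ)) : ℚ) ^ 3 + 27 * (((b * d ^ 3 : ℤ)) : ℚ) ^ 2 ≠ 0 := by
    have e : 4 * (((a * d ^ 2 : ℤ)) : ℚ) ^ 3 + 27 * (((b * d ^ 3 : ℤ)) : ℚ) ^ 2 =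
        ((d ^ 6 * dsc a b : ℤ) : ℚ) := by
      simp only [dsc, Int.cast_mul, Int.cast_add, Int.cast_pow, Int.cast_ofNat]
      ring
    rw [e, Int.cast_ne_zero]
    exact mul_ne_zero (pow_ne_zero _ hd0) hdsc0
  have hroot := hc.root
  have hRt : Rt (((a * d ^ 2 : ℤ)) : ℚ) (((b * d ^ 3 : ℤ)) : ℚ) ((d : L) * θ) := by
    unfold Rt
    rw [map_intCast, map_intCast, Int.cast_mul a, Int.cast_mul b, Int.cast_pow, Int.cast_pow]
    linear_combination (d : L) ^ 3 * hroot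
  -- the norm
  obtain ⟨h', hh', hn⟩ := H.p.gn ℚ _ _ h6M hdisc hirr f hf h2f β hβ
  have hn2 := hn L _ hRt hc.rank
  rw [← evc_aeval hirr hh hh' hRt] at hn2
  refine ⟨hn2.1, hn2.2, ?_⟩
  have hroot' : θ ^ 3 + algebraMap ℚ L (a : ℚ) * θ + algebraMap ℚ L (b : ℚ) = 0 := by
    rw [map_intCast, map_intCast]
    exact hroot
  have ecast : algebraMap ℚ L (d : ℚ) = (d : L) := map_intCast _ _
  -- the primes which do not divide `W`
  have h24 : ∀ w : HeightOneSpectrum (𝓞 ℚ), ¬ Ov (W : ℤ) w → ¬ Ov 2 w ∧ ¬ Ov 3 w := by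
    intro w hw
    have hsub : ∀ k : ℤ, k ∣ (W : ℤ) → ¬ Ov k w := by
      rintro k ⟨c, hc⟩ hk
      apply hw
      unfold Ov at hk ⊢
      rw [hc, Int.cast_mul]
      exact Ideal.mul_mem_right _ _ hk
    have h24 : (24 : ℤ) ∣ (W : ℤ) := by exact_mod_cast hW.dvd
    exact ⟨hsub 2 (Dvd.dvd.trans (by norm_num) h24), hsub 3 (Dvd.dvd.trans (by norm_num) h24)⟩
  have hsqf : ∀ w : HeightOneSpectrum (𝓞 ℚ), ¬ Ov (W : ℤ) w →
      WithZero.exp (-1 : ℤ) ≤ w.valuation ℚ (((dsc a b : ℤ)) : ℚ) := by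
    intro w hw
    refine evc_val w fun P hP hPw hdv => ?_
    apply hw
    have hPn : ((P.natAbs : ℕ) : ℤ) = P := Int.natAbs_of_nonneg hP.1.le
    have hPp : P.natAbs.Prime := Int.prime_iff_natAbs_prime.mp hP.2
    have h1 := hG.pow P.natAbs 2 hPp le_rfl (by rw [hPn]; exact hdv)
    have h2 : P ∣ (W : ℤ) := by
      have h3 : P.natAbs ∣ W := (dvd_pow_self _ two_ne_zero).trans h1
      rw [← hPn]
      exact_mod_cast h3
    obtain ⟨c, hc⟩ := h2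
    unfold Ov at hPw ⊢
    rw [hc, Int.cast_mul]
    exact Ideal.mul_mem_right _ _ hPw
  have hpl : ∀ w : HeightOneSpectrum (𝓞 ℚ), ¬ Ov 2 w → @PLoc ℚ (w.adicCompletion ℚ) _ _
      (HeightOneSpectrum.instAlgebraAdicCompletion (𝓞 ℚ) ℚ w)
      (((a * d ^ 2 : ℤ)) : ℚ) (((b * d ^ 3 : ℤ)) : ℚ) h := fun w hw =>
    H.p.glr ℚ (𝓞 ℚ) _ _ h6M hdisc f hf h2f β h hβ hh w (val_two hw) (hloc w)
  -- the primes of `Z`
  have key : ∀ Q ∈ Z, ∀ 𝔓 : HeightOneSpectrum (𝓞 L), Ov Q 𝔓 →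
      (𝔓.valuation L θ = 1 → U0 𝔓 ((Q : L) * θ) (aeval ((d : L) * θ) h)) ∧
      (𝔓.valuation L θ < 1 → Ev 𝔓 (aeval ((d : L) * θ) h)) := by
    intro Q hQ 𝔓 h𝔓
    have hQp : IsPr Q := hpr Q hQ
    obtain ⟨w, hw, hO⟩ := H.p.lie ℚ L (𝓞 ℚ) (𝓞 L) 𝔓
    have hQw : Ov Q w := (hO Q).2 h𝔓
    have hWw : ¬ Ov (W : ℤ) w := by
      intro h1
      obtain ⟨c, hc⟩ := (hZ Q hQ).one
      have h2 : Ov (Q - 1) w := by
        unfold Ov at h1 ⊢
        rw [hc, Int.cast_mul]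
        exact Ideal.mul_mem_right _ _ h1
      have h3 : (1 : 𝓞 ℚ) ∈ w.asIdeal := by
        unfold Ov at h2 hQw
        have := sub_mem hQw h2
        rwa [← Int.cast_sub, sub_sub_cancel, Int.cast_one] at this
      exact w.isPrime.ne_top ((Ideal.eq_top_iff_one _).2 h3)
    obtain ⟨h2w, h3w⟩ := h24 w hWw
    haveI : Finite (𝓞 ℚ ⧸ w.asIdeal) :=
      Pool.Agent.N42.PQ.finite_residue (L := ℚ) hQp.2.ne_zero hQw
    have hprod : d = Q * ∏ P ∈ Z.erase Q, P := by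
      rw [hd]
      exact (Finset.mul_prod_erase Z id hQ).symm
    have hϖ : w.valuation ℚ (Q : ℚ) = WithZero.exp (-1 : ℤ) := unr_q hQp w hQw
    have hD' : w.valuation ℚ (((∏ P ∈ Z.erase Q, P : ℤ)) : ℚ) = 1 := by
      refine val_eq_of _ w fun h => ?_
      obtain ⟨P, hP, hP'⟩ := ov_prod h
      exact Finset.ne_of_mem_erase hP
        (below_unique (hpr P (Finset.mem_of_mem_erase hP)) hQp hP' hQw)
    have hb1 : w.valuation ℚ (b : ℚ) < 1 := by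
      rw [← ov_val]
      obtain ⟨c, hc⟩ := (hZ Q hQ).db
      unfold Ov at hQw ⊢
      rw [hc, Int.cast_mul]
      exact Ideal.mul_mem_right _ _ hQw
    have hns := fun z hz => ns_top' (M := ℚ) (a := a) hQp (unr_q hQp) (res_q hQp)
      (hZ Q hQ).ns w hQw z hz
    have e0 : (d : ℚ) = (Q : ℚ) * (((∏ P ∈ Z.erase Q, P : ℤ)) : ℚ) := by
      rw [hprod, Int.cast_mul]
    have e1 : (((a * d ^ 2 : ℤ)) : ℚ) = (a : ℚ) *
        ((Q : ℚ) * (((∏ P ∈ Z.erase Q, P : ℤ)) : ℚ)) ^ 2 := by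
      rw [← e0]
      simp only [Int.cast_mul, Int.cast_pow]
    have e2 : (((b * d ^ 3 : ℤ)) : ℚ) = (b : ℚ) *
        ((Q : ℚ) * (((∏ P ∈ Z.erase Q, P : ℤ)) : ℚ)) ^ 3 := by
      rw [← e0]
      simp only [Int.cast_mul, Int.cast_pow]
    have e3 : algebraMap ℚ L ((Q : ℚ) * (((∏ P ∈ Z.erase Q, P : ℤ)) : ℚ)) = (d : L) := by
      rw [← e0, map_intCast]
    have hl := hpl w h2w
    rw [e1, e2] at hl
    have h2 := H.p.loc2 ℚ L (𝓞 ℚ) (𝓞 L) w 𝔓 hw (a : ℚ) (b : ℚ)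
      (Q : ℚ) (((∏ P ∈ Z.erase Q, P : ℤ)) : ℚ) θ h hroot'
      (val_six h2w h3w) (val_le a w) hb1 hϖ hD' hns hl (by rw [e3]; exact hn2.1)
    rw [e3, map_intCast (algebraMap ℚ L)] at h2
    refine ⟨fun h3 => h2.1 h3 ?_, h2.2⟩
    -- the valuation of `Q θ`
    have hint : _root_.IsIntegral ℤ θ := by
      refine ⟨X ^ 3 + C a * X + C b, by monicity!, ?_⟩
      rw [← aeval_def, map_add, map_add, map_mul, map_pow, aeval_X, aeval_C, aeval_C]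
      simpa only [eq_intCast, map_intCast] using hroot
    obtain ⟨t, ht⟩ : ∃ t : 𝓞 L, algebraMap (𝓞 L) L t = θ := ⟨⟨θ, hint⟩, rfl⟩
    obtain ⟨𝔓₀, 𝔮, hPD, hP0, hq1⟩ := hE L a b θ t hc ht Q (hZ Q hQ).toGp
    rcases hPD.only 𝔓 h𝔓 with h4 | h4
    · rw [h4] at h3
      exact absurd h3 hP0.ne
    · subst h4
      apply not_ev_exp
      rw [map_mul, hPD.unif', h3, mul_one]
  refine ⟨fun 𝔓 h1 h2 => ?_, fun Q hQ 𝔓 h1 h2 => (key Q hQ 𝔓 h1).1 h2⟩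
  by_cases h3 : ∃ Q ∈ Z, Ov Q 𝔓
  · obtain ⟨Q, hQ, hO⟩ := h3
    refine (key Q hQ 𝔓 hO).2 (lt_of_le_of_ne ?_ fun h4 => h2 Q hQ ⟨hO, h4⟩)
    have hint : _root_.IsIntegral ℤ θ := by
      refine ⟨X ^ 3 + C a * X + C b, by monicity!, ?_⟩
      rw [← aeval_def, map_add, map_add, map_mul, map_pow, aeval_X, aeval_C, aeval_C]
      simpa only [eq_intCast, map_intCast] using hroot
    obtain ⟨t, rfl⟩ : ∃ t : 𝓞 L, algebraMap (𝓞 L) L t = θ := ⟨⟨θ, hint⟩, rfl⟩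
    exact HeightOneSpectrum.valuation_le_one 𝔓 t
  · push Not at h3
    obtain ⟨w, hw, hO⟩ := H.p.lie ℚ L (𝓞 ℚ) (𝓞 L) 𝔓
    have hWw : ¬ Ov (W : ℤ) w := by
      intro h4
      have h5 := (hO (W : ℤ)).1 h4
      unfold Ov at h5
      rw [Int.cast_natCast] at h5
      exact h1 h5
    obtain ⟨h2w, h3w⟩ := h24 w hWw
    have hD : w.valuation ℚ (d : ℚ) = 1 := by
      refine val_eq_of _ w fun h => ?_
      rw [hd] at h
      obtain ⟨Q, hQ, h'⟩ := ov_prod h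
      exact h3 Q hQ ((hO Q).1 h')
    have hdisc' : WithZero.exp (-1 : ℤ) ≤ w.valuation ℚ (4 * (a : ℚ) ^ 3 + 27 * (b : ℚ) ^ 2) := by
      have e : 4 * (a : ℚ) ^ 3 + 27 * (b : ℚ) ^ 2 = (((dsc a b : ℤ)) : ℚ) := by
        simp [dsc]
      rw [e]
      exact hsqf w hWw
    have hl := hpl w h2w
    have e1 : (((a * d ^ 2 : ℤ)) : ℚ) = (a : ℚ) * (d : ℚ) ^ 2 := by
      simp only [Int.cast_mul, Int.cast_pow]
    have e2 : (((b * d ^ 3 : ℤ)) : ℚ) = (b : ℚ) * (d : ℚ) ^ 3 := by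
      simp only [Int.cast_mul, Int.cast_pow]
    rw [e1, e2] at hl
    have h5 := H.p.loc1 ℚ L (𝓞 ℚ) (𝓞 L) w 𝔓 hw (a : ℚ) (b : ℚ) (d : ℚ) θ h hroot'
      (val_six h2w h3w) (val_le a w) (val_le b w) hD hdisc' hl (by rw [ecast]; exact hn2.1)
    rw [ecast] at h5
    exact h5

end Pool.Agent.H29B
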