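import Pool.Agent.H29B.Stm
import Pool.Agent.N42.QM.Glf
import Pool.Agent.N630.PP.GP

/-!
# Project ALL, part 2, piece GLR (helper6): the real condition of a cocycle which is trivial over `ℝ`
-/

set_option autoImplicit false
set_option linter.all false

open IsDedekindDomain NumberField
open scoped Classical Matrix

namespace Pool.Agent.H29B

open Pool.Agent.N922.PQ
open Pool.Agent.TH115.GD (Sep Comp IsCoc LocTriv Pt)
open Pool.Agent.Helper29L.SZ (VV cf_VV cub_VV)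
open Pool.Agent.N874.PP (sW IsBeta Rt)
open Pool.Agent.H29A

/-- a real root gives an embedding -/
theorem GLR_emb {L : Type} [Field L] [NumberField L] {A B : ℤ} {θ : L} (hθ : IsCub A B θ) {s : ℝ}
    (hs : s ^ 3 + (A : ℝ) * s + (B : ℝ) = 0) : ∃ ψ : L →+* ℝ, ψ θ = s := by
  have hr : Pool.Agent.TH115.GD.cub (VV A B) s = 0 := by
    rw [cub_VV]
    exact hs
  refine ⟨(Pool.Agent.R425.G.em (cf_VV hθ) (⟨s, hr⟩ : Pool.Agent.R425.G.Rt (VV A B) ℝ) : L →+* ℝ), ?_⟩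
  exact Pool.Agent.R425.G.em_root (cf_VV hθ) (⟨s, hr⟩ : Pool.Agent.R425.G.Rt (VV A B) ℝ)

/-- the cubic has a root below every point where it is positive -/
theorem GLR_root (A B x : ℝ) (hx : 0 < x ^ 3 + A * x + B) :
    ∃ s : ℝ, s < x ∧ s ^ 3 + A * s + B = 0 := by
  set m : ℝ := min x (-(|A| + |B| + 1)) with hm
  have hmx : m ≤ x := min_le_left _ _
  have hm1 : m ≤ -(|A| + |B| + 1) := min_le_right _ _
  have hmneg : m ^ 3 + A * m + B ≤ 0 := by
    have h0 : 0 ≤ |A| := abs_nonneg A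
    have h0' : 0 ≤ |B| := abs_nonneg B
    have hA : |A| ≤ m ^ 2 - |B| := by nlinarith
    have h1 : A * m ≤ |A| * (-m) := by
      have h2 : A * m ≤ |A * m| := le_abs_self _
      rwa [abs_mul, abs_of_nonpos (by linarith : m ≤ 0)] at h2
    have h3 : B ≤ |B| := le_abs_self B
    have h4 : |A| * (-m) ≤ (m ^ 2 - |B|) * (-m) := mul_le_mul_of_nonneg_right hA (by linarith)
    have h5 : |B| * 1 ≤ |B| * (-m) := mul_le_mul_of_nonneg_left (by linarith) h0'
    nlinarith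
  have hc : ContinuousOn (fun s : ℝ => s ^ 3 + A * s + B) (Set.Icc m x) := by fun_prop
  obtain ⟨s, hs1, hs2⟩ := intermediate_value_Icc hmx hc (show (0 : ℝ) ∈ Set.Icc _ _ from
    ⟨hmneg, hx.le⟩)
  refine ⟨s, lt_of_le_of_ne hs1.2 ?_, hs2⟩
  rintro rfl
  simp only at hs2
  linarith

theorem t_GLR : S_GLR := by
  intro A B hD f hf hf2 β h hβ hh hloc L _ _ θ hθ hne φ hφ
  have hDQ : 4 * (A : ℚ) ^ 3 + 27 * (B : ℚ) ^ 2 ≠ 0 := by exact_mod_cast hD
  have hP := Pool.Agent.N42.QM.glf Pool.Agent.N630.PP.gp1 Pool.Agent.N630.PP.gp2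
    Pool.Agent.N630.PP.gp3 Pool.Agent.N630.PP.gp4 ℚ ℝ (A : ℚ) (B : ℚ)
    (by norm_num) hDQ f hf hf2 β h hβ hh (Pool.Agent.N42.QM.farr ℚ (A : ℚ) (B : ℚ) hDQ) hloc
  have hroot : (φ θ) ^ 3 + (A : ℝ) * φ θ + (B : ℝ) = 0 := by
    have := congrArg φ hθ.root
    simpa using this
  have hφh : φ (Polynomial.aeval θ h) =
      Polynomial.aeval (φ θ) (h.map (algebraMap ℚ ℝ)) := by
    rw [Polynomial.aeval_map_algebraMap, Polynomial.aeval_def, Polynomial.aeval_def,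
      Polynomial.hom_eval₂]
    congr 1
    exact Subsingleton.elim _ _
  have hcub : Polynomial.aeval (φ θ) (Polynomial.X ^ 3 +
      Polynomial.C (algebraMap ℚ ℝ (A : ℚ)) * Polynomial.X +
      Polynomial.C (algebraMap ℚ ℝ (B : ℚ)) : Polynomial ℝ) = 0 := by
    simpa using hroot
  have hne' : φ (Polynomial.aeval θ h) ≠ 0 := by
    rw [Ne, map_eq_zero]
    exact hne
  rcases hP with ⟨g, q, hq⟩ | ⟨x, y, hy, hxy, g, q, hq⟩
  · have h1 := congrArg (Polynomial.aeval (φ θ)) hq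
    rw [map_mul, hcub, zero_mul, map_sub, map_pow, sub_eq_zero, ← hφh] at h1
    rw [h1] at hne' ⊢
    exact lt_of_le_of_ne (sq_nonneg _) hne'.symm
  · have h1 := congrArg (Polynomial.aeval (φ θ)) hq
    rw [map_mul, hcub, zero_mul, map_sub, map_pow, sub_eq_zero, map_mul, map_sub,
      Polynomial.aeval_C, Polynomial.aeval_X, ← hφh] at h1
    have hxy' : y ^ 2 = x ^ 3 + (A : ℝ) * x + (B : ℝ) := by
      rw [hxy]
      simp
    have hpos : 0 < x ^ 3 + (A : ℝ) * x + (B : ℝ) := by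
      rw [← hxy']
      exact lt_of_le_of_ne (sq_nonneg _) (Ne.symm (pow_ne_zero 2 hy))
    obtain ⟨s, hs1, hs2⟩ := GLR_root (A : ℝ) (B : ℝ) x hpos
    obtain ⟨ψ, hψ⟩ := GLR_emb hθ hs2
    have h2 : φ θ < x := lt_of_le_of_lt ((hφ ψ).trans (le_of_eq hψ)) hs1
    have h3 : 0 ≤ (x - φ θ) * φ (Polynomial.aeval θ h) := by
      have : (algebraMap ℝ ℝ x - φ θ) * φ (Polynomial.aeval θ h) =
        (x - φ θ) * φ (Polynomial.aeval θ h) := rfl
      rw [← this, h1]
      exact sq_nonneg _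
    rcases lt_or_gt_of_ne hne' with h4 | h4
    · exact absurd (mul_neg_of_pos_of_neg (sub_pos.2 h2) h4) (not_lt.2 h3)
    · exact h4

end Pool.Agent.H29B
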