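import Pool.Agent.H29B.Stm
import Pool.Agent.H29A.INW

/-!
# Project ALL, part 2, piece INB
-/

set_option autoImplicit false
set_option linter.all false

open IsDedekindDomain NumberField Filter
open scoped Classical Matrix

namespace Pool.Agent.H29B

open Pool.Agent.N922.PQ
open Pool.Agent.H29A

theorem t_INB : S_INB := by
  intro W hW L _ _ a b θ h hG x hx
  obtain ⟨m, hm, H⟩ := exists_index h
  obtain ⟨v, hv⟩ := H x hx
  have hmW : m.natAbs ∣ W := by
    rw [Nat.dvd_iff_prime_pow_dvd_dvd]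
    intro p k hp hk
    rcases Nat.eq_zero_or_pos k with rfl | hk0
    · simp
    have h1 : ((p : ℤ) ^ (2 * k)) ∣ dsc a b := by
      have h2 : ((p : ℤ) ^ k) ∣ m := by
        rw [← Int.natCast_pow]
        exact Int.natCast_dvd.2 hk
      calc ((p : ℤ) ^ (2 * k)) = ((p : ℤ) ^ k) ^ 2 := by rw [← pow_mul, mul_comm]
        _ ∣ m ^ 2 := pow_dvd_pow_of_dvd h2 2
        _ ∣ dsc a b := hm
    have h3 := hG.pow p (2 * k) hp (by omega) h1
    exact (pow_dvd_pow p (by omega)).trans h3
  obtain ⟨s, hs⟩ : m ∣ (W : ℤ) := Int.natAbs_dvd.1 (Int.natCast_dvd_natCast.2 hmW)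
  refine ⟨fun i => s * v i, ?_⟩
  have hv' := hv
  unfold Crd at hv' ⊢
  have hW' : (W : L) = (m : L) * (s : L) := by
    have : ((W : ℤ) : L) = ((m * s : ℤ) : L) := by rw [hs]
    push_cast at this
    exact this
  push_cast
  rw [hW']
  linear_combination (s : L) * hv'

end Pool.Agent.H29B
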