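import Pool.Agent.H29B.Stm
import Pool.Agent.H29A.LATW

/-!
# Project ALL part 2, piece LATB (port of `H29A/LATW.lean`)
-/

set_option autoImplicit false
set_option linter.all false

open IsDedekindDomain NumberField Matrix
open scoped Classical

namespace Pool.Agent.H29B

open Pool.Agent.H29A

open Pool.Agent.N922.PQ
open Pool.Agent.Helper29L
open Pool.Agent.N301.PQ (mem_P1 val_lt_mem theta_ex mapO poly_mem)
open Pool.Agent.N227.PQ (co_crd eq_co co_smul co_int_smul co_th det_T)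
open Pool.Agent.N874.PP (Tup chA chB gq tau Two Ev Sq1 U0 sW)

theorem t_LATB (hI : S_INL) (hW : S_INB) (hE : S_EXW) (hN : S_NSW) : S_LATB := by
  intro W hOK L _ _ a b θ h Z D hD0 hGW hZ hD α hs hodd
  have hα := hs.ne
  have hW0 := hOK.ne
  have hWL : (W : L) ≠ 0 := by exact_mod_cast hW0
  have hWq : (W : ℚ) ≠ 0 := by exact_mod_cast hW0
  obtain ⟨t, ht⟩ := theta_ex (𝓞 L) h
  have hDL : (D : L) ≠ 0 := Q_ne hD0
  have hDq : (D : ℚ) ≠ 0 := by exact_mod_cast hD0
  have hZpr : ∀ Q ∈ Z, IsPr Q := fun Q hQ => (hZ Q hQ).pr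
  -- coordinates of integral elements
  have hcoW : ∀ (w : 𝓞 L) (i : Fin 3), ∃ c : ℤ,
      (W : ℚ) * h.co i (algebraMap (𝓞 L) L w) = (c : ℚ) := by
    intro w i
    obtain ⟨v, hv⟩ := hW W hOK L a b θ h hGW (algebraMap (𝓞 L) L w) (RingOfIntegers.isIntegral_coe w)
    refine ⟨v i, ?_⟩
    have h1 := Pool.Agent.N301.PQ.co_crd h hv i
    have h2 : ((W : ℕ) : L) = (((W : ℕ) : ℤ) : L) := by push_cast; rfl
    rw [h2, co_int_smul] at h1
    exact_mod_cast h1
  -- the primes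
  have hPD : ∀ Q ∈ Z, ∃ 𝔓 𝔮 : HeightOneSpectrum (𝓞 L), PD Q t 𝔓 𝔮 := by
    intro Q hQ
    obtain ⟨𝔓, 𝔮, hd, _⟩ := hE L a b θ t h ht Q (hZ Q hQ).toGp
    exact ⟨𝔓, 𝔮, hd⟩
  have hWnot : ∀ Q ∈ Z, ∀ 𝔓 : HeightOneSpectrum (𝓞 L), Ov Q 𝔓 → (W : 𝓞 L) ∉ 𝔓.asIdeal := by
    intro Q hQ 𝔓 hov hcon
    obtain ⟨k, hk⟩ := (hZ Q hQ).one
    apply 𝔓.isPrime.ne_top
    rw [Ideal.eq_top_iff_one]
    have h1 : (1 : 𝓞 L) = (Q : 𝓞 L) - (W : 𝓞 L) * (k : 𝓞 L) := by
      have h2 := congrArg (Int.cast (R := 𝓞 L)) hk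
      push_cast at h2
      linear_combination -h2
    rw [h1]
    exact 𝔓.asIdeal.sub_mem hov (𝔓.asIdeal.mul_mem_right _ hcon)
  have hevP : ∀ Q ∈ Z, ∀ 𝔓 𝔮 : HeightOneSpectrum (𝓞 L), PD Q t 𝔓 𝔮 → Ev 𝔓 α := by
    intro Q hQ 𝔓 𝔮 hd
    apply hs.ev 𝔓 (hWnot Q hQ 𝔓 hd.ovP)
    rintro Q' _ ⟨_, h2⟩
    have h3 := (val_lt_mem (L := L) 𝔓 t).2 hd.tP
    rw [ht, h2] at h3
    exact lt_irrefl _ h3
  have hθq : ∀ Q ∈ Z, ∀ 𝔓 𝔮 : HeightOneSpectrum (𝓞 L), PD Q t 𝔓 𝔮 → 𝔮.valuation L θ = 1 := by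
    intro Q hQ 𝔓 𝔮 hd
    rw [← ht]
    exact (HeightOneSpectrum.valuation_eq_one_iff_notMem (K := L) 𝔮).2 hd.tq
  -- the element `f`
  obtain ⟨f, hf, hfQ⟩ := exists_f (α := α) (θ := θ) Z hZpr (by
    intro Q hQ
    obtain ⟨𝔓, 𝔮, hd⟩ := hPD Q hQ
    refine exists_f1 (hZ Q hQ).pr.2 ht hd hα (hevP Q hQ 𝔓 𝔮 hd) ?_
    exact (hs.u0 Q hQ 𝔮 hd.ovq (hθq Q hQ 𝔓 𝔮 hd)).2
      (hodd Q hQ 𝔮 hd.ovq (hθq Q hQ 𝔓 𝔮 hd))) hα
  have hvW1 : ∀ v : HeightOneSpectrum (𝓞 L), v.valuation L (W : L) ≤ 1 := by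
    intro v
    have h1 : algebraMap (𝓞 L) L (W : 𝓞 L) = (W : L) := map_natCast _ W
    rw [← h1]
    exact v.valuation_le_one _
  have hvD1 : ∀ v : HeightOneSpectrum (𝓞 L), v.valuation L (D : L) ≤ 1 := by
    intro v
    rw [← mapO (O := 𝓞 L)]
    exact v.valuation_le_one _
  -- local generators
  have hloc : ∀ v : HeightOneSpectrum (𝓞 L), ∃ x, InB α x ∧
      v.valuation L α * v.valuation L ((D : L) * (W : L)) ≤ v.valuation L x ^ 2 := by
    intro v
    have hvα : v.valuation L α ≠ 0 := (Valuation.ne_zero_iff _).2 hα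
    have key : ∀ (s : L) (q : WithZero (Multiplicative ℤ)), q ≤ 1 →
        v.valuation L ((D : L) * (W : L)) ≤ q →
        v.valuation L s ^ 2 = v.valuation L α * q → ∃ x, InB α x ∧
        v.valuation L α * v.valuation L ((D : L) * (W : L)) ≤ v.valuation L x ^ 2 := by
      intro s q hq hDq hsq'
      obtain ⟨d, hd, hds⟩ := exists_mul (α := α) (s := s) (v := v) (by
        rw [map_div₀, map_mul, ← pow_two, hsq']
        rw [mul_div_assoc, mul_comm, div_mul_cancel₀ _ hvα]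
        exact hq)
      refine ⟨_, hds, ?_⟩
      have hvd : v.valuation L (algebraMap (𝓞 L) L d * s) = v.valuation L s := by
        rw [map_mul, (HeightOneSpectrum.valuation_eq_one_iff_notMem (K := L) v).2 hd, one_mul]
      rw [hvd, hsq']
      exact mul_le_mul_right hDq _
    by_cases hcase : ∃ Q ∈ Z, Ov Q v ∧ v.valuation L θ = 1
    · obtain ⟨Q, hQ, hov, hvθ⟩ := hcase
      obtain ⟨s, hs'⟩ := (hs.u0 Q hQ v hov hvθ).2 (hodd Q hQ v hov hvθ)
      have hvs : v.valuation L (s ^ 2) = v.valuation L (α * ((Q : L) * θ)) := by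
        have h1 : s ^ 2 = α * ((Q : L) * θ) - (α * ((Q : L) * θ) - s ^ 2) := by ring
        rw [h1]
        exact Valuation.map_sub_eq_of_lt_left _ hs'
      refine key s (v.valuation L (Q : L)) ?_ ?_ ?_
      · rw [← mapO (O := 𝓞 L)]
        exact v.valuation_le_one _
      · obtain ⟨P', hP'⟩ : Q ∣ D := hD ▸ Finset.dvd_prod_of_mem _ hQ
        rw [map_mul]
        refine (mul_le_of_le_one_right' (hvW1 v)).trans ?_
        rw [hP', Int.cast_mul, map_mul]
        refine mul_le_of_le_one_right' ?_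
        rw [← mapO (O := 𝓞 L)]
        exact v.valuation_le_one _
      · rw [← map_pow, hvs, map_mul, map_mul, hvθ, mul_one]
    · by_cases hev : Ev v α
      · obtain ⟨s, hs'⟩ := hev
        refine key s 1 le_rfl ?_ ?_
        · rw [map_mul]
          exact mul_le_one' (hvD1 v) (hvW1 v)
        · rw [hs', mul_one]
      · have hWv : (W : 𝓞 L) ∈ v.asIdeal := by
          by_contra hcon
          exact hev (hs.ev v hcon fun Q hQ h1 => hcase ⟨Q, hQ, h1⟩)
        obtain ⟨s, hs'⟩ := odd_val v hα hev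
        refine key s (WithZero.exp (-1 : ℤ)) ?_ ?_ hs'
        · rw [← WithZero.exp_zero, WithZero.exp_le_exp]
          norm_num
        · rw [map_mul]
          refine (mul_le_of_le_one_left' (hvD1 v)).trans ?_
          apply lt_one_le
          have h1 : algebraMap (𝓞 L) L (W : 𝓞 L) = (W : L) := map_natCast _ W
          rw [← h1]
          exact (val_lt_mem v _).2 hWv
  -- `f` pairs with the lattice into `D O`
  have hfpair : ∀ x, InB α x → ∃ w : 𝓞 L, f * x / α = (D : L) * algebraMap (𝓞 L) L w := by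
    intro x hx
    obtain ⟨z, hz⟩ := hf.prod hα hx
    rw [hD]
    refine dvd_prod_O Z hZpr ⟨z, hz.symm⟩ ?_
    intro Q hQ
    obtain ⟨c, hc⟩ := hfQ Q hQ
    exact hc.pair x hx
  have hff2 : ∃ m : ℤ, (W : ℚ) * h.co 2 (f * f / α) = (D : ℚ) ^ 2 * m := by
    obtain ⟨z, hz⟩ := hf
    obtain ⟨N, hN⟩ := hcoW z 2
    rw [hz] at hN
    have h1 : D ^ 2 ∣ N := by
      have h2 : (∏ Q ∈ Z, Q ^ 2) ∣ N := by
        apply Finset.prod_dvd_of_coprime
        · intro P hP Q hQ hne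
          exact (isCoprime_of (hZpr P hP) (hZpr Q hQ) hne).pow
        · intro Q hQ
          obtain ⟨c, hc⟩ := hfQ Q hQ
          obtain ⟨w, hw⟩ := hc.val
          obtain ⟨m, hm⟩ := hcoW w 2
          refine ⟨m, ?_⟩
          have h3 : (W : ℚ) * h.co 2 (f * f / α) = (Q : ℚ) ^ 2 * m := by
            have e1 : f * f / α = ((Q * c : ℤ) : L) * θ + ((Q ^ 2 : ℤ) : L) * algebraMap (𝓞 L) L w := by
              rw [hw]; push_cast; ring
            have e2 : h.co 2 θ = 0 := by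
              have := (co_crd h 0 1 0).2.2
              simpa using this
            rw [e1, map_add, co_int_smul, co_int_smul, e2, ← hm]
            push_cast
            ring
          rw [hN] at h3
          exact_mod_cast h3
      rw [hD, ← Finset.prod_pow]
      exact h2
    obtain ⟨m, hm⟩ := h1
    refine ⟨m, ?_⟩
    rw [hN, hm]
    push_cast
    ring
  -- products of elements of the lattice
  set M := Lam α f D hα with hM
  have hfM : f ∈ M := ⟨1, 0, InB.zero α, by simp⟩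
  have hDM : ∀ x, InB α x → (D : L) * x ∈ M := fun x hx => ⟨0, x, hx, by simp⟩
  have hprod : ∀ x ∈ M, ∀ y ∈ M, (∃ m : ℤ, (W : ℚ) * h.co 2 (x * y / α) = (D : ℚ) ^ 2 * m) ∧
      ∃ m : ℤ, (W : ℚ) * h.co 1 (x * y / α) = (D : ℚ) * m := by
    rintro _ ⟨n, u, hu, rfl⟩ _ ⟨m, v, hv, rfl⟩
    obtain ⟨w0, hw0⟩ := hfpair f hf
    obtain ⟨w1, hw1⟩ := hfpair v hv
    obtain ⟨w2, hw2⟩ := hfpair u hu
    obtain ⟨w3, hw3⟩ := hu.prod hα hv
    have e1 : ((n : L) * f + (D : L) * u) * ((m : L) * f + (D : L) * v) / α =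
        ((n * m : ℤ) : L) * (f * f / α) + ((D ^ 2 : ℤ) : L) * algebraMap (𝓞 L) L
          ((n : 𝓞 L) * w1 + (m : 𝓞 L) * w2 + w3) := by
      simp only [map_add, map_mul, mapO]
      have e2 : ((n : L) * f + (D : L) * u) * ((m : L) * f + (D : L) * v) / α =
        (n : L) * (m : L) * (f * f / α) + (D : L) * (n : L) * (f * v / α) +
          (D : L) * (m : L) * (f * u / α) + (D : L) ^ 2 * (u * v / α) := by ring
      rw [e2, hw1, hw2, ← hw3]
      push_cast
      ring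
    obtain ⟨w4, hw4⟩ : ∃ w4 : 𝓞 L, w4 = (n : 𝓞 L) * w1 + (m : 𝓞 L) * w2 + w3 := ⟨_, rfl⟩
    rw [← hw4] at e1
    constructor
    · obtain ⟨m1, hm1⟩ := hff2
      obtain ⟨m2, hm2⟩ := hcoW w4 2
      refine ⟨n * m * m1 + m2, ?_⟩
      rw [e1, map_add, co_int_smul, co_int_smul]
      push_cast
      linear_combination ((n : ℚ) * m) * hm1 + (D : ℚ) ^ 2 * hm2
    · obtain ⟨m1, hm1⟩ := hcoW w0 1
      obtain ⟨m2, hm2⟩ := hcoW w4 1
      refine ⟨n * m * m1 + D * m2, ?_⟩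
      rw [e1, map_add, co_int_smul, co_int_smul, hw0, co_int_smul]
      push_cast
      linear_combination ((n : ℚ) * m * D) * hm1 + (D : ℚ) ^ 2 * hm2
  -- the basis
  obtain ⟨m0, hm0, hy0⟩ := exists_mult (α := α) α
  have hy00 : (m0 : L) * α ≠ 0 := mul_ne_zero (Q_ne hm0) hα
  obtain ⟨e, hli, hmem, hbas⟩ := basis_M h.rank M (α / ((m0 : L) * α)) (by
    intro y hy
    obtain ⟨z, hz⟩ := (Lam_le hf hy).prod hα hy0
    refine ⟨z, ?_⟩
    rw [hz]
    field_simp) (by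
    intro x
    obtain ⟨m, hm, hx⟩ := exists_mult (α := α) x
    refine ⟨D * m, mul_ne_zero hD0 hm, ?_⟩
    have := hDM _ hx
    convert this using 1
    push_cast
    ring)
  -- the matrices
  have hG : ∀ i j, ∃ m : ℤ, (m : ℚ) = (W : ℚ) ^ 2 * (cubD h hD0).co 2 (e i * e j / α) := by
    intro i j
    obtain ⟨m, hm⟩ := (hprod _ (hmem i) _ (hmem j)).1
    refine ⟨W * m, ?_⟩
    rw [(coD h hD0 _).2]
    have e1 : (W : ℚ) ^ 2 * (h.co 2 (e i * e j / α) / (D : ℚ) ^ 2) =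
        (W : ℚ) * ((W : ℚ) * h.co 2 (e i * e j / α)) / (D : ℚ) ^ 2 := by ring
    rw [e1, hm]
    push_cast
    field_simp
  have hB : ∀ i j, ∃ m : ℤ, (m : ℚ) = (W : ℚ) ^ 2 * (cubD h hD0).co 1 (e i * e j / α) := by
    intro i j
    obtain ⟨m, hm⟩ := (hprod _ (hmem i) _ (hmem j)).2
    refine ⟨W * m, ?_⟩
    rw [(coD h hD0 _).1]
    have e1 : (W : ℚ) ^ 2 * (h.co 1 (e i * e j / α) / (D : ℚ)) =
        (W : ℚ) * ((W : ℚ) * h.co 1 (e i * e j / α)) / (D : ℚ) := by ring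
    rw [e1, hm]
    push_cast
    field_simp
  choose G hG using hG
  choose B hB using hB
  -- duality
  have hdual : ∀ y : L, (∀ i, ∃ c : ℤ, (c : ℚ) = (cubD h hD0).co 2 (e i * y / α)) →
      ∃ c : Fin 3 → ℤ, (W : L) * y = ∑ i, (c i : L) * e i := by
    intro y hy
    -- values on the lattice
    have hval : ∀ x ∈ M, ∃ m : ℤ, h.co 2 (x * y / α) = (D : ℚ) ^ 2 * m := by
      intro x hx
      obtain ⟨c, hc⟩ := hbas x hx
      choose k hk using hy
      refine ⟨∑ i, c i * k i, ?_⟩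
      have e1 : x * y / α = ∑ i, (c i : L) * (e i * y / α) := by
        rw [hc, Finset.sum_mul, Finset.sum_div]
        refine Finset.sum_congr rfl fun i _ => by ring
      rw [e1, map_sum]
      push_cast
      rw [Finset.mul_sum]
      refine Finset.sum_congr rfl fun i _ => ?_
      have h2 := hk i
      rw [(coD h hD0 _).2] at h2
      rw [co_int_smul, h2]
      field_simp
    have hyB : ∀ x, InB α x → ∃ w : 𝓞 L, x * y / α = (D : L) * algebraMap (𝓞 L) L w := by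
      intro x hx
      have h1 : ∀ x', InB α x' → ∃ m : ℤ, h.co 2 (x' * y / α / (D : L)) = (m : ℚ) := by
        intro x' hx'
        obtain ⟨m, hm⟩ := hval _ (hDM x' hx')
        refine ⟨m, ?_⟩
        have e1 : (D : L) * x' * y / α = ((D ^ 2 : ℤ) : L) * (x' * y / α / (D : L)) := by
          push_cast
          field_simp
        rw [e1, co_int_smul] at hm
        have hD2 : (D : ℚ) ^ 2 ≠ 0 := pow_ne_zero 2 hDq
        push_cast at hm
        exact mul_left_cancel₀ hD2 hm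
      obtain ⟨w, hw⟩ := int_of_co2 h ht (z := x * y / α / (D : L)) (h1 x hx) (by
        obtain ⟨m, hm⟩ := h1 (θ * x) (by have := hx.smul t; rwa [ht] at this)
        refine ⟨m, ?_⟩
        rw [← hm]
        congr 1
        ring) (by
        obtain ⟨m, hm⟩ := h1 (θ ^ 2 * x) (by have := hx.smul (t ^ 2); rwa [map_pow, ht] at this)
        refine ⟨m, ?_⟩
        rw [← hm]
        congr 1
        ring)
      refine ⟨w, ?_⟩
      rw [hw]
      field_simp
    have hmapW : algebraMap (𝓞 L) L (W : 𝓞 L) = (W : L) := map_natCast _ W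
    obtain ⟨w, hw⟩ := dual_mem (y := (W : L) * y) hα (mul_ne_zero hDL hWL) hloc (by
      intro x hx
      obtain ⟨w, hw⟩ := hyB x hx
      refine ⟨w, ?_⟩
      have e1 : x * ((W : L) * y) / α = (W : L) * (x * y / α) := by ring
      rw [e1, hw]
      ring)
    obtain ⟨y₁, hy₁⟩ : ∃ y₁ : L, y₁ = (W : L) * y := ⟨_, rfl⟩
    rw [← hy₁] at hw ⊢
    have hzz : algebraMap (𝓞 L) L ((D : 𝓞 L) * ((W : 𝓞 L) * w)) = y₁ * y₁ / α := by
      rw [map_mul, map_mul, mapO, hmapW, hw]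
      ring
    have hymem : InB α y₁ := ⟨_, hzz⟩
    obtain ⟨n, hn⟩ := crt_B hα hf Z hZpr hymem (by
      intro Q hQ
      obtain ⟨𝔓, 𝔮, hd⟩ := hPD Q hQ
      obtain ⟨c, hc⟩ := hfQ Q hQ
      obtain ⟨P', hP'⟩ : Q ∣ D := hD ▸ Finset.dvd_prod_of_mem _ hQ
      refine dualQ_loc h ?_ (hZ Q hQ).toGp ht hd hα (hevP Q hQ 𝔓 𝔮 hd) hc
        (z := (D : 𝓞 L) * ((W : 𝓞 L) * w)) hzz ?_ ?_
      · -- the integrality at `Q`
        intro w
        have hQpos := (hZ Q hQ).pr.1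
        have hQpr := (hZ Q hQ).pr.2
        obtain ⟨q, hq⟩ : ∃ q : ℕ, (q : ℤ) = Q := ⟨Q.toNat, Int.toNat_of_nonneg hQpos.le⟩
        have hqp : q.Prime := Nat.prime_iff_prime_int.2 (by rw [hq]; exact hQpr)
        have hdscQ : ¬ Q ∣ dsc a b := by
          intro hcon
          obtain ⟨b', hb'⟩ := (hZ Q hQ).db
          have h1 : Q ∣ 4 * a ^ 3 := by
            have h2 : 4 * a ^ 3 = dsc a b - Q * (27 * b' * b) := by
              rw [dsc, hb']; ring
            rw [h2]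
            exact dvd_sub hcon (dvd_mul_right _ _)
          rcases hQpr.dvd_or_dvd h1 with h2 | h2
          · have h3 : Q ∣ 2 := by
              have : (4 : ℤ) = 2 ^ 2 := by norm_num
              rw [this] at h2
              exact hQpr.dvd_of_dvd_pow h2
            have h4 := Int.le_of_dvd (by norm_num) h3
            have h5 := (hZ Q hQ).m8
            have h6 : Q ≠ 1 := fun h7 => hQpr.not_unit (h7 ▸ isUnit_one)
            omega
          · have h3 := hQpr.dvd_of_dvd_pow h2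
            apply (hZ Q hQ).ns 0
            simpa using h3
        obtain ⟨s, v, hs1, hv⟩ := hI L a b θ h hGW.ne q hqp (by
          intro hcon
          rw [hq] at hcon
          exact hdscQ ((dvd_pow_self Q two_ne_zero).trans hcon))
          (algebraMap (𝓞 L) L w) (RingOfIntegers.isIntegral_coe w)
        exact ⟨s, v, by rwa [hq] at hs1, hv⟩
      · rw [hP', Int.cast_mul]
        exact 𝔓.asIdeal.mul_mem_right _ (𝔓.asIdeal.mul_mem_right _ hd.ovP)
      · obtain ⟨m, hm⟩ := hval f hfM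
        refine ⟨P' ^ 2 * (W * m), ?_⟩
        have e1 : f * y₁ / α = (((W : ℕ) : ℤ) : L) * (f * y / α) := by
          rw [hy₁]; push_cast; ring
        rw [e1, co_int_smul, hm, hP']
        push_cast
        ring)
    rw [← hD] at hn
    apply hbas
    refine ⟨n, _, hn, ?_⟩
    field_simp
    ring
  obtain ⟨n, hn0, hn1, hn2⟩ := det_dualW (cubD h hD0) e hα hs.norm hli W hW0 (Matrix.of G)
    (fun i j => hG i j) hdual
  exact ⟨e, Matrix.of G, Matrix.of B, n, hli, fun i => Lam_le hf (hmem i),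
    fun y hy => hbas _ (hDM y hy), hn0, hn1, hn2, fun i j => hG i j, fun i j => hB i j⟩

end Pool.Agent.H29B
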