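import Pool.Agent.H29B.Stm
import Pool.Agent.H29A.PLBW

/-!
# Project ALL part 2, piece PLBB (port of `H29A/PLBW.lean`)
-/

set_option autoImplicit false
set_option linter.all false

open IsDedekindDomain NumberField Matrix
open scoped Classical

namespace Pool.Agent.H29B

open Pool.Agent.H29A

open Pool.Agent.N922.PQ
open Pool.Agent.N441.PQ (gram_change size_change cs_change)
open Pool.Agent.N301.PQ (mem_P1 val_lt_mem exO theta_ex mapO poly_mem)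
open Pool.Agent.N227.PQ (co_crd eq_co co_smul co_int_smul co_th det_T)
open Pool.Agent.N874.PP (Tup chA chB gq tau Two Ev Sq1 U0 sW)
open Pool.Agent.Helper29L (Gp PBad InB PD NBas NN cubD UnbSet FewSet Xp sum_B coD)

theorem t_PLBB (hQ : S_ISQB) (hM : S_MAJW) (hR : S_REDW) (hN : S_NFW) (hL : S_LATB) (hT : S_TTW)
    (hS : S_NSW) (hE : S_EXW) : S_PLBB := by
  intro W hW
  have h5 : S_CHI := Pool.Agent.N738.PQ.chi
  have h6 : S_NZ := Pool.Agent.N738.PQ.nz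
  obtain ⟨κ₀, N, hκ0, hN0, h4⟩ := hN (W ^ 5)
  have hNz : (N : ℤ) ≠ 0 := by exact_mod_cast hN0.ne'
  have hWz : (W : ℤ) ≠ 0 := by exact_mod_cast hW.ne
  have hNr : (0 : ℝ) < N := by exact_mod_cast hN0
  refine ⟨⌈2 * κ₀ ^ 2⌉₊, N ^ 2, N, by positivity, ?_⟩
  intro L _ _ a b θ X Z S E D h haX hbX hGW hGp hSN hdis hD α hs hns hodd hSE
  have hα := hs.ne
  have hsq := hs.norm
  have hDpos : (0 : ℤ) < (D : ℤ) := by
    rw [hD]
    exact Finset.prod_pos fun Q hQ => (hGp Q (Finset.mem_union_left _ hQ)).pr.1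
  have hD0 : ((D : ℕ) : ℤ) ≠ 0 := hDpos.ne'
  obtain ⟨e, G, B0, n, hli, hmem, hsup, hn0, hnW, hdet, hG, hB0⟩ := hL W hW L a b θ h Z D hD0 hGW
    (fun Q hQ => hGp Q (Finset.mem_union_left _ hQ)) hD α hs.toInSelW hodd
  set h' := cubD h hD0 with hh'
  have hdsc : dsc a b ≠ 0 := hGW.ne
  have hdsc' : dsc (a * (D : ℤ) ^ 2) (b * (D : ℤ) ^ 3) ≠ 0 := by
    have e1 : dsc (a * (D : ℤ) ^ 2) (b * (D : ℤ) ^ 3) = (D : ℤ) ^ 6 * dsc a b := by
      simp only [Pool.Agent.N922.PQ.dsc]; ring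
    rw [e1]
    exact mul_ne_zero (pow_ne_zero _ hD0) hdsc
  obtain ⟨H, hH, hHdet, hC2, hC1⟩ := hM L _ _ _ h' (D * X) hdsc'
    (by
      push_cast
      rw [abs_mul, abs_pow, abs_of_pos hDpos]
      calc |a| * (D : ℤ) ^ 2 ≤ X ^ 2 * (D : ℤ) ^ 2 := mul_le_mul_of_nonneg_right haX (by positivity)
        _ = _ := by ring)
    (by
      push_cast
      rw [abs_mul, abs_pow, abs_of_pos hDpos]
      calc |b| * (D : ℤ) ^ 3 ≤ X ^ 3 * (D : ℤ) ^ 3 := mul_le_mul_of_nonneg_right hbX (by positivity)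
        _ = _ := by ring) α e hα hli
  have hWr : (0 : ℝ) < (W : ℝ) ^ 2 := by
    have : (0 : ℝ) < W := by exact_mod_cast Nat.pos_of_ne_zero hW.ne
    positivity
  -- the majorant of the multiple
  obtain ⟨K, hK⟩ : ∃ K : Matrix (Fin 3) (Fin 3) ℝ, K = ((W : ℝ) ^ 2) • H := ⟨_, rfl⟩
  have hKpos : K.PosDef := by rw [hK]; exact hH.smul hWr
  have hKq : ∀ u : Fin 3 → ℝ, u ⬝ᵥ K *ᵥ u = (W : ℝ) ^ 2 * (u ⬝ᵥ H *ᵥ u) := by
    intro u
    rw [hK, Matrix.smul_mulVec, dotProduct_smul, smul_eq_mul]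
  have hofG : G.map (Int.castRingHom ℚ) =
      ((W : ℚ) ^ 2) • (Matrix.of fun i j => h'.co 2 (e i * e j / α)) := by
    ext i j
    rw [Matrix.smul_apply, Matrix.of_apply, Matrix.map_apply, smul_eq_mul, ← hG i j]
    rfl
  have hKdet : K.det = (n : ℝ) ^ 2 := by
    have h8 : ((G.det : ℤ) : ℚ) = ((W : ℚ) ^ 2) ^ 3 *
        (Matrix.of fun i j => h'.co 2 (e i * e j / α)).det := by
      have h9 : ((G.det : ℤ) : ℚ) = (G.map (Int.castRingHom ℚ)).det := by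
        rw [← RingHom.mapMatrix_apply, ← RingHom.map_det]
        rfl
      rw [h9, hofG, Matrix.det_smul, Fintype.card_fin]
    rw [hK, Matrix.det_smul, Fintype.card_fin, hHdet]
    have h10 : ((W : ℝ) ^ 2) ^ 3 * |(((Matrix.of fun i j => h'.co 2 (e i * e j / α)).det : ℚ) : ℝ)| =
        |((((W : ℚ) ^ 2) ^ 3 * (Matrix.of fun i j => h'.co 2 (e i * e j / α)).det : ℚ) : ℝ)| := by
      push_cast
      rw [abs_mul, abs_of_pos (by positivity : (0 : ℝ) < ((W : ℝ) ^ 2) ^ 3)]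
    rw [h10, ← h8, hdet]
    push_cast
    rw [abs_neg, abs_of_nonneg (by positivity)]
  obtain ⟨U1, hh, hU1, hpos, hmono, hprod, hrow⟩ := hR K n (by exact_mod_cast hn0) hKpos hKdet
  have hGsymm : G.IsSymm := by
    ext i j
    rw [Matrix.transpose_apply]
    have h8 : (G j i : ℚ) = (G i j : ℚ) := by rw [hG, hG, mul_comm (e j)]
    exact_mod_cast h8
  have hU1sq : U1.det * U1.det = 1 := by
    rcases Int.isUnit_iff.1 hU1 with h8 | h8 <;> rw [h8] <;> rfl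
  -- the first change of basis
  obtain ⟨G1, hG1⟩ : ∃ G1, G1 = U1 * G * U1ᵀ := ⟨_, rfl⟩
  obtain ⟨B1, hB1⟩ : ∃ B1, B1 = U1 * B0 * U1ᵀ := ⟨_, rfl⟩
  have hG1b : ∀ i j, |(G1 i j : ℝ)| ≤ hh i * hh j := by
    intro i j
    have h8 := cs_change G U1 (fun i j => (W : ℚ) ^ 2 * h'.co 2 (e i * e j / α)) hG K hh hpos hrow 1
      zero_le_one
      (fun u v => by
        rw [one_pow, one_mul, hKq, hKq]
        have h9 : (∑ i, ∑ j, u i * v j * (((W : ℚ) ^ 2 * h'.co 2 (e i * e j / α) : ℚ) : ℝ)) =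
            (W : ℝ) ^ 2 * ∑ i, ∑ j, u i * v j * (h'.co 2 (e i * e j / α) : ℝ) := by
          push_cast
          simp only [Finset.mul_sum]
          refine Finset.sum_congr rfl fun i _ => Finset.sum_congr rfl fun j _ => ?_
          ring
        rw [h9, mul_pow]
        have h10 := mul_le_mul_of_nonneg_left (hC2 u v) (by positivity : (0 : ℝ) ≤ ((W : ℝ) ^ 2) ^ 2)
        refine h10.trans (le_of_eq ?_)
        ring) i j
    rw [one_mul, ← hG1] at h8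
    exact h8
  have hB1b : ∀ i j, |(B1 i j : ℝ)| ≤ (2 * (D * X : ℕ)) * (hh i * hh j) := by
    intro i j
    have h8 := cs_change B0 U1 (fun i j => (W : ℚ) ^ 2 * h'.co 1 (e i * e j / α)) hB0 K hh hpos hrow
      (2 * (D * X : ℕ)) (by positivity)
      (fun u v => by
        rw [hKq, hKq]
        have h9 : (∑ i, ∑ j, u i * v j * (((W : ℚ) ^ 2 * h'.co 1 (e i * e j / α) : ℚ) : ℝ)) =
            (W : ℝ) ^ 2 * ∑ i, ∑ j, u i * v j * (h'.co 1 (e i * e j / α) : ℝ) := by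
          push_cast
          simp only [Finset.mul_sum]
          refine Finset.sum_congr rfl fun i _ => Finset.sum_congr rfl fun j _ => ?_
          ring
        rw [h9, mul_pow]
        have h10 := mul_le_mul_of_nonneg_left (hC1 u v) (by positivity : (0 : ℝ) ≤ ((W : ℝ) ^ 2) ^ 2)
        refine h10.trans (le_of_eq ?_)
        ring) i j
    rw [← hB1] at h8
    exact h8
  have hG1s : G1.IsSymm := by
    rw [hG1, Matrix.IsSymm, Matrix.transpose_mul, Matrix.transpose_mul, Matrix.transpose_transpose,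
      hGsymm.eq, Matrix.mul_assoc]
  have hG1d : G1.det = -(n : ℤ) ^ 2 := by
    rw [hG1, Matrix.det_mul, Matrix.det_mul, Matrix.det_transpose, hdet]
    linear_combination -(n : ℤ) ^ 2 * hU1sq
  -- an isotropic vector
  have hG1p : ∃ v : Fin 3 → ℤ, v ≠ 0 ∧ v ⬝ᵥ G1 *ᵥ v = 0 := by
    obtain ⟨x, hx0, hx⟩ := hQ W hW L a b θ h Z hGW
      (fun Q hQ => hGp Q (Finset.mem_union_left _ hQ)) α hs
    obtain ⟨k, v, hk, hv0, hkx⟩ := int_vec h.rank hli x hx0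
    have hvG : v ⬝ᵥ G *ᵥ v = 0 := by
      have h10 := quad_vec (h'.co 2) α e G ((W : ℚ) ^ 2) hG v
      have h12 : h'.co 2 ((∑ i, (v i : L) * e i) * (∑ i, (v i : L) * e i) / α) = 0 := by
        rw [← hkx]
        have h13 : (k : L) * x * ((k : L) * x) / α = ((k : ℚ) ^ 2) • (x * x / α) := by
          rw [Rat.smul_def]
          push_cast
          ring
        rw [h13, map_smul, hh', (coD h hD0 _).2, hx, zero_div, smul_zero]
      rw [h12, mul_zero] at h10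
      exact_mod_cast h10
    refine ⟨v ᵥ* U1⁻¹, ?_, ?_⟩
    · intro h8
      apply hv0
      have h9 : (v ᵥ* U1⁻¹) ᵥ* U1 = v := by
        rw [Matrix.vecMul_vecMul, Matrix.nonsing_inv_mul _ hU1, Matrix.vecMul_one]
      rw [← h9, h8, Matrix.zero_vecMul]
    · have h8 : (v ᵥ* U1⁻¹) ᵥ* U1 = v := by
        rw [Matrix.vecMul_vecMul, Matrix.nonsing_inv_mul _ hU1, Matrix.vecMul_one]
      have h9 : (v ᵥ* U1⁻¹) ⬝ᵥ G1 *ᵥ (v ᵥ* U1⁻¹) = v ⬝ᵥ G *ᵥ v := by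
        rw [hG1, ← Matrix.mulVec_mulVec, ← Matrix.mulVec_mulVec, Matrix.mulVec_transpose, h8,
          Matrix.dotProduct_mulVec, h8]
      rw [h9, hvG]
  obtain ⟨m, T, T₁, T₂, hJJ, hT1, hT2, hr0, hr1, hr2⟩ := h4 G1 n hh hn0 hnW hG1s hG1d hG1p hpos hmono
    hprod hG1b
  -- integral identities
  have hmapinj : Function.Injective (fun A : Matrix (Fin 3) (Fin 3) ℤ => A.map (Int.castRingHom ℚ)) :=
    Matrix.map_injective (Int.castRingHom ℚ).injective_int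
  have hI1 : T₁ * G1 * T₁ᵀ = ((N : ℤ) ^ 2) • JJ := by
    apply hmapinj
    show (T₁ * G1 * T₁ᵀ).map (Int.castRingHom ℚ) = (((N : ℤ) ^ 2) • JJ).map (Int.castRingHom ℚ)
    rw [Matrix.map_mul, Matrix.map_mul, Matrix.transpose_map, hT1]
    have e1 : (((N : ℤ) ^ 2) • JJ).map (Int.castRingHom ℚ) =
        ((N : ℚ) ^ 2) • JJ.map (Int.castRingHom ℚ) := by
      ext i j
      simp only [Matrix.map_apply, Matrix.smul_apply, smul_eq_mul, map_mul, map_pow, map_natCast]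
    rw [e1, ← hJJ, Matrix.transpose_smul, Matrix.smul_mul, Matrix.smul_mul, Matrix.mul_smul,
      smul_smul, pow_two]
  have hI2 : T₂ * T₁ = ((N : ℤ) ^ 2) • (1 : Matrix (Fin 3) (Fin 3) ℤ) := by
    apply hmapinj
    show (T₂ * T₁).map (Int.castRingHom ℚ) =
      (((N : ℤ) ^ 2) • (1 : Matrix (Fin 3) (Fin 3) ℤ)).map (Int.castRingHom ℚ)
    rw [Matrix.map_mul, hT1, Matrix.mul_smul, hT2, smul_smul]
    ext i j
    simp only [Matrix.map_apply, Matrix.smul_apply, smul_eq_mul, map_mul, map_pow, map_natCast,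
      Matrix.one_apply]
    split_ifs <;> simp [pow_two]
  have hT1det : T₁.det ≠ 0 := by
    intro h8
    have h9 := congrArg Matrix.det hI2
    rw [Matrix.det_mul, h8, mul_zero, Matrix.det_smul, Matrix.det_one, mul_one] at h9
    exact pow_ne_zero _ (pow_ne_zero _ hNz) h9.symm
  -- the total change of basis
  obtain ⟨V, hV⟩ : ∃ V : Matrix (Fin 3) (Fin 3) ℤ, V = ((N : ℤ) * W) • (T₁ * U1) := ⟨_, rfl⟩
  have hVdet : V.det ≠ 0 := by
    rw [hV, Matrix.det_smul, Matrix.det_mul]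
    exact mul_ne_zero (pow_ne_zero _ (mul_ne_zero hNz hWz)) (mul_ne_zero hT1det hU1.ne_zero)
  have hVG : V * G * Vᵀ = ((N : ℤ) ^ 4 * (W : ℤ) ^ 2) • JJ := by
    have e1 : T₁ * U1 * G * (T₁ * U1)ᵀ = T₁ * G1 * T₁ᵀ := by
      rw [hG1, Matrix.transpose_mul]
      simp only [Matrix.mul_assoc]
    rw [hV, Matrix.transpose_smul, Matrix.smul_mul, Matrix.smul_mul, Matrix.mul_smul, smul_smul, e1,
      hI1, smul_smul]
    congr 1
    ring
  obtain ⟨B2, hB2⟩ : ∃ B2, B2 = T₁ * B1 * T₁ᵀ := ⟨_, rfl⟩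
  have hVB : V * B0 * Vᵀ = ((N : ℤ) ^ 2 * (W : ℤ) ^ 2) • B2 := by
    have e1 : T₁ * U1 * B0 * (T₁ * U1)ᵀ = T₁ * B1 * T₁ᵀ := by
      rw [hB1, Matrix.transpose_mul]
      simp only [Matrix.mul_assoc]
    rw [hV, Matrix.transpose_smul, Matrix.smul_mul, Matrix.smul_mul, Matrix.mul_smul, smul_smul, e1,
      ← hB2]
    congr 1
    ring
  obtain ⟨e', he'⟩ : ∃ e' : Fin 3 → L, ∀ i, e' i = ∑ j, (V i j : L) * e j :=
    ⟨fun i => ∑ j, (V i j : L) * e j, fun i => rfl⟩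
  have hli' : LinearIndependent ℚ e' := li_change0 e e' V hVdet hli he'
  obtain ⟨M, hMdef⟩ : ∃ M : ℤ, M = ((N ^ 2 : ℕ) : ℤ) * (D : ℤ) := ⟨_, rfl⟩
  have hM0 : M ≠ 0 := by
    rw [hMdef]
    refine mul_ne_zero ?_ hD0
    push_cast
    exact pow_ne_zero _ hNz
  have hNq : (N : ℚ) ≠ 0 := by exact_mod_cast hN0.ne'
  have hWq : (W : ℚ) ≠ 0 := by exact_mod_cast hW.ne
  have hDq : (D : ℚ) ≠ 0 := by exact_mod_cast hD0
  set h'' := cubD h hM0 with hh''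
  have hc2 : ∀ i j, h''.co 2 (e' i * e' j / α) = (JJ i j : ℚ) := by
    intro i j
    have h8 := gram_change (((W : ℚ) ^ 2) • (h'.co 2)) α e e' G V
      (fun i j => by rw [LinearMap.smul_apply, smul_eq_mul]; exact hG i j) he' i j
    rw [hVG, LinearMap.smul_apply, smul_eq_mul, hh', (coD h hD0 _).2] at h8
    rw [hh'', (coD h hM0 _).2, hMdef]
    have h9 : (((((N : ℤ) ^ 4 * (W : ℤ) ^ 2) • JJ) i j : ℤ) : ℚ) =
        (N : ℚ) ^ 4 * (W : ℚ) ^ 2 * (JJ i j : ℚ) := by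
      rw [Matrix.smul_apply, smul_eq_mul]
      push_cast
      ring
    rw [h9] at h8
    push_cast at h8 ⊢
    field_simp at h8 ⊢
    linear_combination h8
  have hc1 : ∀ i j, h''.co 1 (e' i * e' j / α) = (B2 i j : ℚ) := by
    intro i j
    have h8 := gram_change (((W : ℚ) ^ 2) • (h'.co 1)) α e e' B0 V
      (fun i j => by rw [LinearMap.smul_apply, smul_eq_mul]; exact hB0 i j) he' i j
    rw [hVB, LinearMap.smul_apply, smul_eq_mul, hh', (coD h hD0 _).1] at h8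
    rw [hh'', (coD h hM0 _).1, hMdef]
    have h9 : (((((N : ℤ) ^ 2 * (W : ℤ) ^ 2) • B2) i j : ℤ) : ℚ) =
        (N : ℚ) ^ 2 * (W : ℚ) ^ 2 * (B2 i j : ℚ) := by
      rw [Matrix.smul_apply, smul_eq_mul]
      push_cast
      ring
    rw [h9] at h8
    push_cast at h8 ⊢
    field_simp at h8 ⊢
    linear_combination h8
  obtain ⟨hm, hchA, hchB⟩ := h5 L _ _ _ h'' α e' hα hli' hc2 B2 hc1
  obtain ⟨P, hP⟩ : ∃ P : Matrix (Fin 3) (Fin 3) ℤ, P = U1⁻¹ * T₂ := ⟨_, rfl⟩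
  have hPV : P * V = ((N : ℤ) ^ 3 * W) • (1 : Matrix (Fin 3) (Fin 3) ℤ) := by
    have e1 : U1⁻¹ * T₂ * (T₁ * U1) = ((N : ℤ) ^ 2) • (1 : Matrix (Fin 3) (Fin 3) ℤ) := by
      rw [Matrix.mul_assoc, ← Matrix.mul_assoc T₂, hI2, Matrix.smul_mul, Matrix.one_mul,
        Matrix.mul_smul, Matrix.nonsing_inv_mul _ hU1]
    rw [hP, hV, Matrix.mul_smul, e1, smul_smul]
    congr 1
    ring
  obtain ⟨N', hN'⟩ : ∃ N' : ℤ, N' = (N : ℤ) ^ 3 * W * D := ⟨_, rfl⟩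
  have HN : NBW h M N' hM0 α e' B2 :=
    { li := hli'
      mem := fun i => by rw [he' i]; exact sum_B hα hmem (V i)
      sup := fun y hy => by
        obtain ⟨c, hc⟩ := hsup y hy
        refine ⟨c ᵥ* P, ?_⟩
        rw [← sup_change0 hPV he' c, ← hc, hN']
        push_cast
        ring
      c2 := hc2
      c1 := hc1
      b11 := hm }
  have hT1T : ∀ i k, (T₁ i k : ℝ) = (N : ℝ) * (T i k : ℝ) := by
    intro i k
    have h8 := congrFun (congrFun hT1 i) k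
    rw [Matrix.map_apply, Matrix.smul_apply, smul_eq_mul] at h8
    have h9 : ((T₁ i k : ℤ) : ℚ) = (N : ℚ) * T i k := h8
    have h10 := congrArg (Rat.cast : ℚ → ℝ) h9
    push_cast at h10
    exact h10
  have hTs : ∀ i, (∑ k, |(T₁ i k : ℝ)| * hh k) = (N : ℝ) * ∑ k, |(T i k : ℝ)| * hh k := by
    intro i
    rw [Finset.mul_sum]
    refine Finset.sum_congr rfl fun k _ => ?_
    rw [hT1T, abs_mul, abs_of_pos hNr]
    ring
  have hb : ∀ i j, |(B2 i j : ℝ)| ≤ (2 * (D * X : ℕ)) * (((N : ℝ) * ∑ k, |(T i k : ℝ)| * hh k) *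
      ((N : ℝ) * ∑ k, |(T j k : ℝ)| * hh k)) := by
    intro i j
    rw [hB2, ← hTs, ← hTs]
    exact size_change B1 T₁ hh (2 * (D * X : ℕ)) hB1b i j
  have hs0 : ∀ i, 0 ≤ ∑ k, |(T i k : ℝ)| * hh k := fun i =>
    Finset.sum_nonneg fun k _ => mul_nonneg (abs_nonneg _) (hpos k).le
  have hκ : 2 * κ₀ ^ 2 ≤ (⌈2 * κ₀ ^ 2⌉₊ : ℝ) := Nat.le_ceil _
  have hX : (0 : ℝ) ≤ (N ^ 2 * D * X : ℕ) := Nat.cast_nonneg _
  have hT2' : (0 : ℝ) < (2 : ℝ) ^ m := by positivity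
  -- a bound for the products
  have hbd : ∀ (r s' u v : ℝ), 0 ≤ r → 0 ≤ s' → r ≤ u → s' ≤ v → ∀ t : ℝ, 0 ≤ t →
      u * v * t = κ₀ ^ 2 → ∀ w : ℝ, |w| ≤ (2 * (D * X : ℕ)) * ((N * r) * (N * s')) →
      |w| * t ≤ (⌈2 * κ₀ ^ 2⌉₊ : ℝ) * (N ^ 2 * D * X : ℕ) := by
    intro r s' u v hr hs' hu hv t ht huv w hw
    have h8 : (N * r) * (N * s') ≤ (N : ℝ) ^ 2 * (u * v) := by
      have h9 : r * s' ≤ u * v := mul_le_mul hu hv hs' (hr.trans hu)
      calc (N * r) * (N * s') = (N : ℝ) ^ 2 * (r * s') := by ring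
        _ ≤ _ := mul_le_mul_of_nonneg_left h9 (by positivity)
    calc |w| * t ≤ (2 * (D * X : ℕ)) * ((N * r) * (N * s')) * t := mul_le_mul_of_nonneg_right hw ht
      _ ≤ (2 * (D * X : ℕ)) * ((N : ℝ) ^ 2 * (u * v)) * t :=
          mul_le_mul_of_nonneg_right (mul_le_mul_of_nonneg_left h8 (by positivity)) ht
      _ = (2 * κ₀ ^ 2) * (N ^ 2 * D * X : ℕ) := by rw [← huv]; push_cast; ring
      _ ≤ _ := mul_le_mul_of_nonneg_right hκ hX
  have hMM : ((N ^ 2 : ℕ) : ℤ) * (D : ℤ) = M := hMdef.symm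
  have hchA' : chA (⟨B2 0 0, B2 0 1, B2 0 2, B2 1 2, B2 2 2⟩ : Tup ℤ) =
      a * (((N ^ 2 : ℕ) : ℤ) * (D : ℤ)) ^ 2 := by rw [hMM]; exact hchA
  have hchB' : chB (⟨B2 0 0, B2 0 1, B2 0 2, B2 1 2, B2 2 2⟩ : Tup ℤ) =
      b * (((N ^ 2 : ℕ) : ℤ) * (D : ℤ)) ^ 3 := by rw [hMM]; exact hchB
  refine ⟨m, ⟨B2 0 0, B2 0 1, B2 0 2, B2 1 2, B2 2 2⟩, ?_, hchA', hchB'⟩
  have hbox : InBox ⌈2 * κ₀ ^ 2⌉₊ (N ^ 2 * D * X) (2 ^ m)
      (⟨B2 0 0, B2 0 1, B2 0 2, B2 1 2, B2 2 2⟩ : Tup ℤ) := by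
    refine ⟨?_, ?_, ?_, ?_, ?_⟩
    · have h8 := hbd _ _ _ _ (hs0 0) (hs0 0) hr0 hr0 (((2 : ℝ) ^ m) ^ 2) (by positivity)
        (by field_simp) _ (hb 0 0)
      exact_mod_cast h8
    · have h8 := hbd _ _ _ _ (hs0 0) (hs0 1) hr0 hr1 ((2 : ℝ) ^ m) (by positivity)
        (by field_simp) _ (hb 0 1)
      exact_mod_cast h8
    · have h8 := hbd _ _ _ _ (hs0 0) (hs0 2) hr0 hr2 1 zero_le_one
        (by field_simp) _ (hb 0 2)
      rw [mul_one] at h8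
      exact_mod_cast h8
    · have h8 := hbd _ _ _ _ (hs0 1) (hs0 2) hr1 hr2 (((2 : ℝ) ^ m)⁻¹) (by positivity)
        (by field_simp) _ (hb 1 2)
      rw [mul_inv_le_iff₀ hT2'] at h8
      exact_mod_cast h8
    · have h8 := hbd _ _ _ _ (hs0 2) (hs0 2) hr2 hr2 ((((2 : ℝ) ^ m) ^ 2)⁻¹) (by positivity)
        (by field_simp) _ (hb 2 2)
      rw [mul_inv_le_iff₀ (by positivity)] at h8
      exact_mod_cast h8
  have hnz : B2 0 0 ≠ 0 := by
    intro h8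
    refine hns (h6 L _ _ _ h'' α (e' 0) hα (hli'.ne_zero 0) hsq ?_ ?_)
    · rw [hc2 0 0]
      simp [JJ]
    · rw [hc1 0 0, h8]
      simp
  -- data at `Q ∈ S`
  obtain ⟨t, ht⟩ := exists_t h
  have hWnd : ∀ Q ∈ Z ∪ S, ¬ Q ∣ (W : ℤ) := by
    intro Q hQ h8
    have hg := hGp Q hQ
    have hQn : ((Q.toNat : ℕ) : ℤ) = Q := Int.toNat_of_nonneg hg.pr.1.le
    have h9 : GpW W a b ((Q.toNat : ℕ) : ℤ) := by rw [hQn]; exact hg
    exact GpW.not_dvd hW h9 (Int.natCast_dvd_natCast.1 (by rw [hQn]; exact h8))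
  have hdata : ∀ Q ∈ S, Gp a b Q ∧ ¬ Q ∣ (D : ℤ) := by
    intro Q hQ
    have hg := hGp Q (Finset.mem_union_right _ hQ)
    refine ⟨hg.toGp, ?_⟩
    intro h8
    rw [hD] at h8
    obtain ⟨P', hP', hQP⟩ := (hg.pr.2.dvd_finsetProd_iff _).1 h8
    have hP'' := (hGp P' (Finset.mem_union_left _ hP')).pr
    have hne : P' ≠ Q := fun h9 => (Finset.disjoint_left.1 hdis hP') (h9 ▸ hQ)
    have hcop := isCoprime_of hP'' hg.pr hne
    exact hg.pr.2.not_unit (hcop.isUnit_of_dvd' hQP dvd_rfl)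
  have hNnd : ∀ Q ∈ S, ¬ Q ∣ (N : ℤ) := by
    intro Q hQ h8
    have h9 := Int.le_of_dvd (by exact_mod_cast hN0) h8
    exact absurd (hSN Q hQ) (not_lt.2 h9)
  have hMnd : ∀ Q ∈ S, ¬ Q ∣ M := by
    intro Q hQ h8
    have hp := (hdata Q hQ).1.pr.2
    rw [hMdef] at h8
    rcases hp.dvd_or_dvd h8 with h9 | h9
    · push_cast at h9
      exact hNnd Q hQ (hp.dvd_of_dvd_pow h9)
    · exact (hdata Q hQ).2 h9
  have hN'nd : ∀ Q ∈ S, ¬ Q ∣ N' := by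
    intro Q hQ h8
    have hp := (hdata Q hQ).1.pr.2
    rw [hN'] at h8
    rcases hp.dvd_or_dvd h8 with h9 | h9
    · rcases hp.dvd_or_dvd h9 with h10 | h10
      · exact hNnd Q hQ (hp.dvd_of_dvd_pow h10)
      · exact hWnd Q (Finset.mem_union_right _ hQ) h10
    · exact (hdata Q hQ).2 h9
  have hevS : ∀ Q ∈ S, ∀ 𝔓 : HeightOneSpectrum (𝓞 L), Ov Q 𝔓 → Ev 𝔓 α := by
    intro Q hQ 𝔓 hov
    have hg := hGp Q (Finset.mem_union_right _ hQ)
    have hQn : ((Q.toNat : ℕ) : ℤ) = Q := Int.toNat_of_nonneg hg.pr.1.le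
    apply hs.ev
    · have h9 : GpW W a b ((Q.toNat : ℕ) : ℤ) := by rw [hQn]; exact hg
      refine not_mem_W (p := Q.toNat) ?_ (GpW.not_dvd hW h9) ?_
      · rw [Nat.prime_iff_prime_int, hQn]
        exact hg.pr.2
      · rw [hQn]; exact hov
    · rintro P' hP' ⟨hP1, -⟩
      have hne : P' ≠ Q := fun h9 => (Finset.disjoint_left.1 hdis hP') (h9 ▸ hQ)
      exact hne (below_unique (hGp P' (Finset.mem_union_left _ hP')).pr (hdata Q hQ).1.pr hP1 hov)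
  have hθq : ∀ (Q : ℤ) (𝔓 𝔮 : HeightOneSpectrum (𝓞 L)), PD Q t 𝔓 𝔮 → 𝔮.valuation L θ = 1 := by
    intro Q 𝔓 𝔮 hd
    rw [← ht]
    exact (HeightOneSpectrum.valuation_eq_one_iff_notMem (K := L) 𝔮).2 hd.tq
  refine ⟨hbox, hnz, ?_, ?_, ?_, ?_⟩
  · intro Q hQ hQE
    obtain ⟨hg, hQD⟩ := hdata Q hQ
    obtain ⟨𝔓, 𝔮, hd, -, -⟩ := hE L a b θ t h ht Q hg
    have hsq1 : Sq1 𝔮 α := (hSE Q hQ 𝔮 hd.ovq (hθq Q 𝔓 𝔮 hd)).2 hQE
    have hsP : Sq1 𝔓 α := (hS L a b θ h Q hg α hα hsq).2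
      (fun 𝔓' hov hv => (hSE Q hQ 𝔓' hov hv).2 hQE) 𝔓 hd.ovP
    exact (hT L a b θ h M N' hM0 α e' B2 hα HN Q hg (hMnd Q hQ) (hN'nd Q hQ) t ht 𝔓 𝔮 hd).1 hsP hsq1
  · intro Q hQ hQE
    obtain ⟨hg, hQD⟩ := hdata Q hQ
    obtain ⟨𝔓, 𝔮, hd, -, -⟩ := hE L a b θ t h ht Q hg
    have hns1 : ¬ Sq1 𝔮 α := fun h8 => ((hSE Q hQ 𝔮 hd.ovq (hθq Q 𝔓 𝔮 hd)).1 h8) hQE
    exact (hT L a b θ h M N' hM0 α e' B2 hα HN Q hg (hMnd Q hQ) (hN'nd Q hQ) t ht 𝔓 𝔮 hd).2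
      (hevS Q hQ 𝔓 hd.ovP) (hevS Q hQ 𝔮 hd.ovq) hns1
  · intro Q hQ
    rw [hchA']
    simp
  · intro Q hQ
    rw [hchB']
    exact (hdata Q hQ).1.db.mul_right _

end Pool.Agent.H29B
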