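import Pool.Agent.H29B.Stm
import Pool.Agent.H29A.RECW

/-!
# Project ALL part 2, piece RECB (port of `H29A/RECW.lean`)
-/

set_option autoImplicit false
set_option linter.all false

open IsDedekindDomain NumberField
open scoped Classical Matrix

namespace Pool.Agent.H29B

open Pool.Agent.H29A

open Pool.Agent.N922.PQ
open Pool.Agent.N900.PQ (eq_of_ov)
open Pool.Agent.Helper29L (Gp PBad InB PD NBas NN cubD UnbSet FewSet)
open Pool.Agent.R425.G (ng)
open Pool.Agent.N874.PP (Tup chA chB gq tau Two Ev Sq1 U0 sW IsBeta Rt)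

theorem t_RECB (hD : S_DIAGB) (hI : S_ISOW) (hU : S_UNW) (hR : S_RAW) (hE : S_EXW) : S_RECB := by
  intro W hW L _ _ a b θ S hc hG hS 𝔮 h𝔮 α hα
  obtain ⟨d, e, hd, he, hRe, hiso, -⟩ := hD L a b θ hc hG.ne α hα.ne hα.norm hα.real
  obtain ⟨-, heven⟩ := Pool.Agent.N655.PQ.hp d e hd he hRe
  have hdsc : dsc a b ≠ 0 := hG.ne
  obtain ⟨t, ht⟩ : ∃ t : 𝓞 L, algebraMap (𝓞 L) L t = θ := by
    have hint : IsIntegral ℤ θ := by
      refine ⟨Polynomial.X ^ 3 + Polynomial.C a * Polynomial.X + Polynomial.C b, ?_, ?_⟩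
      · have : (Polynomial.X ^ 3 + Polynomial.C a * Polynomial.X + Polynomial.C b : Polynomial ℤ) =
            Polynomial.X ^ 3 + (Polynomial.C a * Polynomial.X + Polynomial.C b) := by ring
        rw [this]
        apply Polynomial.monic_X_pow_add
        refine lt_of_le_of_lt (Polynomial.degree_linear_le) ?_
        norm_num
      · have h1 := hc.root
        rw [Polynomial.eval₂_add, Polynomial.eval₂_add, Polynomial.eval₂_mul, Polynomial.eval₂_pow,
          Polynomial.eval₂_X, Polynomial.eval₂_C, Polynomial.eval₂_C]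
        exact h1
    exact ⟨⟨θ, hint⟩, rfl⟩
  -- the primes over `Q ∈ S`
  have hval : ∀ (𝔓 : HeightOneSpectrum (𝓞 L)) (p : ℕ), (p : ℤ) ∈ S → Ov (p : ℤ) 𝔓 →
      𝔓.valuation L θ = 1 → 𝔓 = 𝔮 p := by
    intro 𝔓 p hpS hov hv
    obtain ⟨𝔓₁, 𝔮', hPD, v1, v2⟩ := hE L a b θ t hc ht p (hS _ hpS).toGp
    have h1 : 𝔓 = 𝔮' := by
      rcases hPD.only 𝔓 hov with h | h
      · rw [h] at hv
        rw [hv] at v1
        exact absurd v1 (lt_irrefl _)
      · exact h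
    have h2 : 𝔮 p = 𝔮' := by
      rcases hPD.only (𝔮 p) (h𝔮 _ hpS).1 with h | h
      · have := (h𝔮 _ hpS).2
        rw [h] at this
        rw [this] at v1
        exact absurd v1 (lt_irrefl _)
      · exact h
    rw [h1, h2]
  have hram : ∀ (p : ℕ) [Fact p.Prime], (p : ℤ) ∈ S → ¬ Ev (𝔮 p) α →
      (IsoAt hc p α ↔ Sq1 (𝔮 p) (α * ((p : L) * θ))) := by
    intro p _ hpS hne
    have hp : p.Prime := Fact.out
    obtain ⟨𝔓₁, 𝔮', hPD, v1, v2⟩ := hE L a b θ t hc ht p (hS _ hpS).toGp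
    have hev1 : Ev 𝔓₁ α := by
      refine hα.ev 𝔓₁ (not_mem_W hp (GpW.not_dvd hW (hS _ hpS)) hPD.ovP) fun Q' hQ' h9 => ?_
      rw [h9.2] at v1
      exact lt_irrefl _ v1
    exact hR L a b θ hc p (hS _ hpS).toGp 𝔓₁ (𝔮 p) hPD.ovP (h𝔮 _ hpS).1 v1
      (h𝔮 _ hpS).2 α hα.ne hev1 hne
  have hset : {p : ℕ | ∃ _ : Fact p.Prime, ¬ Spl (d : ℚ_[p]) (e : ℚ_[p])} =
      (((S.filter fun Q => ¬ Ev (𝔮 Q) α ∧ ¬ Sq1 (𝔮 Q) (α * ((Q : L) * θ))).image
        Int.toNat : Finset ℕ) : Set ℕ) := by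
    ext p
    simp only [Set.mem_setOf_eq, Finset.coe_image, Set.mem_image, Finset.mem_coe,
      Finset.mem_filter]
    constructor
    · rintro ⟨hp, hn⟩
      have hn' : ¬ IsoAt hc p α := fun h => hn ((hiso p).1 h)
      have hpW : ¬ p ∣ W := by
        intro hpW
        obtain ⟨v, hv⟩ := exists_ng p hp.out
        exact hn' (hI L a b θ hc hdsc v p hv α hα.ne (hα.loc v (by rw [hv]; exact hpW)))
      have hp2' : p ≠ 2 := by
        rintro rfl
        exact hpW ((by norm_num : (2 : ℕ) ∣ 24).trans hW.dvd)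
      have hpsq : ¬ (p : ℤ) ^ 2 ∣ dsc a b := by
        intro h
        exact hpW ((dvd_pow_self p two_ne_zero).trans (hG.pow p 2 hp.out le_rfl h))
      have hnev : ¬ ∀ 𝔓 : HeightOneSpectrum (𝓞 L), Ov (p : ℤ) 𝔓 → Ev 𝔓 α := fun h =>
        hn' (hU L a b θ hc hdsc p hp2' hpsq α hα.ne h)
      push Not at hnev
      obtain ⟨𝔓, hov, hne⟩ := hnev
      have hex : ∃ Q ∈ S, Ov Q 𝔓 ∧ 𝔓.valuation L θ = 1 := by
        by_contra hcon
        push Not at hcon
        exact hne (hα.ev 𝔓 (not_mem_W hp.out hpW hov) fun Q hQ h9 => hcon Q hQ h9.1 h9.2)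
      obtain ⟨Q, hQS, hovQ, hvQ⟩ := hex
      have hpr : IsPr (p : ℤ) := ⟨by exact_mod_cast hp.out.pos, Nat.prime_iff_prime_int.1 hp.out⟩
      obtain rfl := eq_of_ov hpr (hS Q hQS).pr hov hovQ
      obtain rfl := hval 𝔓 p hQS hovQ hvQ
      refine ⟨(p : ℤ), ⟨hQS, hne, fun hsq1 => hn' ?_⟩, Int.toNat_natCast p⟩
      rw [Int.cast_natCast] at hsq1
      exact (hram p hQS hne).2 hsq1
    · rintro ⟨Q, ⟨hQS, hne, hns⟩, hQp⟩
      have hpos := (hS Q hQS).pr.1
      obtain rfl : Q = (p : ℤ) := by omega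
      have hp : Fact p.Prime := ⟨Nat.prime_iff_prime_int.2 (hS _ hQS).pr.2⟩
      refine ⟨hp, fun hs => hns ?_⟩
      rw [Int.cast_natCast]
      exact (hram p hQS hne).1 ((hiso p).2 hs)
  rw [hset, Set.ncard_coe_finset, Finset.card_image_of_injOn] at heven
  · exact heven
  · intro x hx y hy hxy
    rw [Finset.mem_coe, Finset.mem_filter] at hx hy
    have hx0 := (hS x hx.1).pr.1
    have hy0 := (hS y hy.1).pr.1
    omega

end Pool.Agent.H29B
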