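import Pool.Agent.H29B.Stm

/-!
# Project ALL, part 2 (helper29), piece SELR (helper22): the 2-Selmer group with the real place
-/

set_option autoImplicit false
set_option linter.all false

open NumberField IsDedekindDomain WeierstrassCurve Module
open Pool.Agent.TH115.GD
open scoped Classical

namespace Pool.Agent.H29B

open Pool.Agent.H30GR
open Pool.Agent.H30EV
open Pool.Agent.N874.PP (sW)

/-- The upper bound with an additional condition. -/
theorem sel_gen {K : Type} [Field K] [NumberField K] {q : ℤ × ℤ} {N : ℕ}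
    (P : ((Sep K ≃ₐ[K] Sep K) → Pt (sW (q.1 : K) (q.2 : K)) (Sep K)) → Prop)
    (hP : ∀ f : Coch (curve K q), ShaCocycle (curve K q) f → P f)
    (h : ∀ (m : ℕ) (z : Fin m → (Sep K ≃ₐ[K] Sep K) → Pt (sW (q.1 : K) (q.2 : K)) (Sep K)),
      (∀ i, IsCoc (sW (q.1 : K) (q.2 : K)) (z i)) → (∀ i σ, (2 : ℕ) • z i σ = 0) →
      (∀ i, ∀ v : HeightOneSpectrum (𝓞 K), LocTriv (sW (q.1 : K) (q.2 : K)) (Comp (𝓞 K) K v)
        (Sep (Comp (𝓞 K) K v)) (z i)) → (∀ i, P (z i)) →
      (∀ i j, (∃ T : Pt (sW (q.1 : K) (q.2 : K)) (Sep K), (2 : ℕ) • T = 0 ∧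
        ∀ σ, z i σ - z j σ = act (sW (q.1 : K) (q.2 : K)) (rs K σ) T - T) → i = j) → m ≤ N) :
    Finite (Sel2 (curve K q)) ∧ Nat.card (Sel2 (curve K q)) ≤ N := by
  by_contra hcon
  obtain ⟨f, hf⟩ := exists_inj hcon
  choose z hz using fun i => QuotientAddGroup.mk_surjective (f i)
  have h1 := h (N + 1) (fun i => ((z i : selmerCocycles (curve K q)) : Coch (curve K q)))
    (fun i => coc_of (z i).2.1) (fun i σ => congrFun (z i).2.2 σ)
    (fun i v => loc_of (z i).2.1 v) (fun i => hP _ (z i).2.1) (by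
      rintro i j ⟨T₀, hT₀, h2₀⟩
      obtain ⟨T, hT, h2⟩ : ∃ T : Pts (curve K q) (SeparableClosure K), 2 • T = 0 ∧
          cobHom (curve K q) T = (z i : Coch (curve K q)) - (z j : Coch (curve K q)) :=
        ⟨T₀, hT₀, funext fun σ => (h2₀ σ).symm⟩
      apply hf
      rw [← hz i, ← hz j]
      have h3 : -(z i) + z j ∈
          (coboundariesTwo (curve K q)).addSubgroupOf (selmerCocycles (curve K q)) := by
        rw [AddSubgroup.mem_addSubgroupOf]
        refine ⟨-T, ?_, ?_⟩
        · show 2 • (-T) = 0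
          rw [smul_neg, hT, neg_zero]
        · show cobHom (curve K q) (-T) = -((z i : Coch (curve K q))) + (z j : Coch (curve K q))
          rw [map_neg, h2]
          abel
      exact QuotientAddGroup.eq.2 h3)
  omega

/-- The real place. -/
theorem real_gen {K : Type} [Field K] [NumberField K] [i : Algebra K ℝ] {W : WeierstrassCurve K}
    {f : Coch W} (h : ShaCocycle W f) :
    LocTriv W ℝ (Sep ℝ) (f : (Sep K ≃ₐ[K] Sep K) → Pt W (Sep K)) := by
  have h1 := h.real (algebraMap K ℝ)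
  have e : (algebraMap K ℝ).toAlgebra = i := by
    apply Algebra.algebra_ext
    intro r
    rfl
  have h2 : LocallyTrivial W ℝ f := by
    have h3 : @LocallyTrivial K _ W ℝ _ (algebraMap K ℝ).toAlgebra f := h1
    rw [e] at h3
    exact h3
  exact lt_of h2

theorem t_SELR : S_SELR := by
  intro q N h
  exact sel_gen (K := ℚ) (fun f => LocTriv (sW (q.1 : ℚ) (q.2 : ℚ)) ℝ (Sep ℝ) f)
    (fun f hf => real_gen hf) h

end Pool.Agent.H29B
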