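import Pool.Agent.H29B.Stm
import Pool.Agent.H29A.SUPW

/-!
# Project ALL, part 2, piece SUPB (helper6): the upper bound for the 2-Selmer group, with the real place
-/

set_option autoImplicit false
set_option linter.all false

open Polynomial IsDedekindDomain WeierstrassCurve WeierstrassCurve.Affine NumberField
open Pool.Agent.TH115.GD
open scoped Classical IntermediateField

namespace Pool.Agent.H29B

open Pool.Agent.N922.PQ
open Pool.Agent.H30GR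
open Pool.Agent.Helper29L (Gp PBad InB PD NBas NN cubD)
open Pool.Agent.N874.PP (Tup chA chB gq tau Two Ev Sq1 U0 sW IsBeta Rt)
open Pool.Agent.R425.G (ng)
open Pool.Agent.H29A
open Pool.Agent.H29A.SUPW

/-- the smallest real conjugate of `d θ`, `d > 0` -/
theorem SUPB_pos {L : Type} [Field L] [NumberField L] {d : ℤ} (hd : 0 < d) {θ z : L}
    (h : PosAt ((d : L) * θ) z) : PosAt θ z := by
  intro φ hφ
  refine h φ fun ψ => ?_
  rw [map_mul, map_mul, map_intCast, map_intCast]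
  exact mul_le_mul_of_nonneg_left (hφ ψ) (by exact_mod_cast hd.le)

theorem t_SUPB (hG : S_GLC) (hR : S_GLR) (hT : S_TWC) (hS : S_SQV) (hE : S_EVB) : S_SUPB := by
  intro W hW L _ _ a b θ Z d hc hGW hZ hd N hN m z hz h2z hlz hlr hdiff
  have H : Parts2 := parts2
  have h6M : (6 : ℚ) ≠ 0 := by norm_num
  have hdpos : 0 < d := by
    rw [hd]
    exact Finset.prod_pos fun Q hQ => (hZ Q hQ).pr.1
  have hD0 : d ≠ 0 := hdpos.ne'
  have hW1 : (W : ℤ) ∣ d - 1 := by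
    rw [hd]
    exact prod_one fun Q hQ => (hZ Q hQ).one
  have hdsc : dsc a b ≠ 0 := hGW.ne
  have hirrD : Irreducible (X ^ 3 + C (((a * d ^ 2 : ℤ)) : ℚ) * X +
      C (((b * d ^ 3 : ℤ)) : ℚ) : ℚ[X]) :=
    irr_tw' (F := ℚ) (a := a * d ^ 2) (b := b * d ^ 3)
      (fun t => no_root_tw' (rat_root hGW.irr) hD0 t)
  have hdisc' : 4 * (a * d ^ 2) ^ 3 + 27 * (b * d ^ 3) ^ 2 ≠ 0 := by
    have e : 4 * (a * d ^ 2) ^ 3 + 27 * (b * d ^ 3) ^ 2 = d ^ 6 * dsc a b := by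
      simp only [dsc]
      ring
    rw [e]
    exact mul_ne_zero (pow_ne_zero _ hD0) hdsc
  have hdisc : 4 * (((a * d ^ 2 : ℤ)) : ℚ) ^ 3 + 27 * (((b * d ^ 3 : ℤ)) : ℚ) ^ 2 ≠ 0 := by
    exact_mod_cast hdisc'
  have hroot := hc.root
  have hcD : IsCub (a * d ^ 2) (b * d ^ 3) ((d : L) * θ) := cubD hc hD0
  have hRt : Rt (((a * d ^ 2 : ℤ)) : ℚ) (((b * d ^ 3 : ℤ)) : ℚ) ((d : L) * θ) := by
    unfold Rt
    rw [map_intCast, map_intCast, Int.cast_mul a, Int.cast_mul b, Int.cast_pow, Int.cast_pow]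
    linear_combination ((d : ℤ) : L) ^ 3 * hroot
  have hex : ∀ i, ∃ (β : Sep ℚ → Sep ℚ) (h : ℚ[X]),
      IsBeta (((a * d ^ 2 : ℤ)) : ℚ) (((b * d ^ 3 : ℤ)) : ℚ) (z i) β ∧
      (∀ t : Sep ℚ, Rt (((a * d ^ 2 : ℤ)) : ℚ) (((b * d ^ 3 : ℤ)) : ℚ) t →
        aeval t h = β t ^ 2) := by
    intro i
    obtain ⟨β, hβ⟩ := H.p.gb ℚ _ _ h6M hdisc hirrD (z i) (hz i) (h2z i)
    obtain ⟨h, hh, hn⟩ := H.p.gn ℚ _ _ h6M hdisc hirrD (z i) (hz i) (h2z i) β hβ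
    exact ⟨β, h, hβ, hh⟩
  choose β h hβ hh using hex
  refine hN m (fun i => aeval ((d : L) * θ) (h i)) (fun i => ?_) (fun i j hij hsq => ?_)
  · obtain ⟨hx0, hxN, hxE, hxU⟩ := hE W hW L a b θ Z d hc hGW hZ hd (z i) (hz i) (h2z i) (hlz i)
      (β i) (h i) (hβ i) (hh i)
    refine ⟨⟨⟨hx0, hxN, fun v hv => ?_, hxE⟩, hxU⟩, ?_⟩
    · rw [hT L a b θ hc hdsc v d hD0 (hS W hW d hW1 v hv)]
      exact hG (a * d ^ 2) (b * d ^ 3) hdisc' (z i) (hz i) (h2z i) (β i) (h i) (hβ i) (hh i) v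
        (hlz i v) L ((d : L) * θ) hcD
    · exact SUPB_pos hdpos (hR (a * d ^ 2) (b * d ^ 3) hdisc' (z i) (hz i) (h2z i) (β i) (h i)
        (hβ i) (hh i) (hlr i) L ((d : L) * θ) hcD hx0)
  · apply hij
    apply hdiff
    obtain ⟨T', hT', hT2⟩ := H.p.gt ℚ _ _ h6M hdisc hirrD (fun σ => z i σ - z j σ)
      (coc_sub (hz i) (hz j)) (fun σ => by rw [nsmul_sub, h2z, h2z, sub_zero])
      (fun t => β i t * β j t) (h i * h j)
      (beta_sub h6M hdisc hirrD (h2z i) (h2z j) (hβ i) (hβ j))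
      (fun t ht => by rw [map_mul, hh i t ht, hh j t ht, mul_pow]) L _ hRt hc.rank
      (by rw [map_mul]; exact hsq)
    exact ⟨T', hT', hT2⟩

end Pool.Agent.H29B
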