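import Pool.Agent.H29B.Stm

/-!
# Piece ZSB of project ALL, part 2: `exists_zs` with the condition at the real place
-/

set_option autoImplicit false
set_option linter.all false

open NumberField IsDedekindDomain WithZero WeierstrassCurve WeierstrassCurve.Affine
open scoped NNReal Classical

namespace Pool.Agent.H29B

namespace ZSBx

open Pool.Agent
open Pool.Agent.TH115.GD
open Pool.Agent.TeamU (SU su_fg su_rank index_sq)
open Pool.Agent.Y710.CV (Cond)
open Pool.Agent.R425.G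
open Pool.Agent.H30GR (grp FQ mem_FQ card_FQ card_TR card_SR exists_zs)

/-! ### One real embedding -/

section one

variable {A : Type} [Field A] [NumberField A]

theorem norm_pos (h3 : Module.finrank ℚ A = 3) (φ : A →+* ℝ) (huni : ∀ ψ : A →+* ℝ, ψ = φ)
    (z : A) (hz : z ≠ 0) (hN : 0 < Algebra.norm ℚ z) : 0 < φ z := by
  set φc : A →ₐ[ℚ] ℂ := (Complex.ofRealHom.comp φ).toRatAlgHom with hφc
  have hφv : ∀ x, φc x = ((φ x : ℝ) : ℂ) := fun x => rfl
  -- real embeddings into `ℂ`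
  have hreal : ∀ σ : A →ₐ[ℚ] ℂ, (∀ x, (starRingEnd ℂ) (σ x) = σ x) → σ = φc := by
    intro σ hσ
    have hr : ComplexEmbedding.IsReal (σ : A →+* ℂ) := by
      ext x
      exact hσ x
    have h1 := huni hr.embedding
    ext x
    have h2 := ComplexEmbedding.IsReal.coe_embedding_apply hr x
    rw [h1] at h2
    rw [hφv]
    exact h2.symm
  have hcard : Fintype.card (A →ₐ[ℚ] ℂ) = 3 := by
    rw [AlgHom.card, h3]
  set S : Finset (A →ₐ[ℚ] ℂ) := Finset.univ.erase φc with hS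
  have hSc : S.card = 2 := by
    rw [hS, Finset.card_erase_of_mem (Finset.mem_univ _), Finset.card_univ, hcard]
  obtain ⟨σ, hσ⟩ : ∃ σ, σ ∈ S := by
    have : S.Nonempty := by
      rw [← Finset.card_pos, hSc]; norm_num
    exact this
  set τ : A →ₐ[ℚ] ℂ := ((starRingEnd ℂ).comp (σ : A →+* ℂ)).toRatAlgHom with hτ
  have hτv : ∀ x, τ x = (starRingEnd ℂ) (σ x) := fun x => rfl
  have hτS : τ ∈ S := by
    rw [hS, Finset.mem_erase]
    refine ⟨fun h => ?_, Finset.mem_univ _⟩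
    have : σ = φc := by
      ext x
      have h1 := congrArg (starRingEnd ℂ) (DFunLike.congr_fun h x)
      rw [hτv, Complex.conj_conj, hφv, Complex.conj_ofReal] at h1
      rw [h1, hφv]
    rw [hS, Finset.mem_erase] at hσ
    exact hσ.1 this
  have hne : σ ≠ τ := by
    intro h
    have : σ = φc := hreal σ fun x => by
      rw [← hτv, ← h]
    rw [hS, Finset.mem_erase] at hσ
    exact hσ.1 this
  have hS2 : S = {σ, τ} := by
    symm
    apply Finset.eq_of_subset_of_card_le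
    · intro x hx
      rw [Finset.mem_insert, Finset.mem_singleton] at hx
      rcases hx with rfl | rfl
      · exact hσ
      · exact hτS
    · rw [hSc, Finset.card_pair hne]
  have hprod := Algebra.norm_eq_prod_embeddings ℚ ℂ z
  rw [← Finset.mul_prod_erase _ _ (Finset.mem_univ φc), ← hS, hS2, Finset.prod_pair hne, hτv,
    Complex.mul_conj, hφv] at hprod
  have h4 : ((Algebra.norm ℚ z : ℚ) : ℝ) = φ z * Complex.normSq (σ z) := by
    have h5 : (((Algebra.norm ℚ z : ℚ) : ℝ) : ℂ) = ((φ z * Complex.normSq (σ z) : ℝ) : ℂ) := by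
      push_cast
      rw [← hprod]
      rfl
    exact_mod_cast h5
  have h6 : (0 : ℝ) < ((Algebra.norm ℚ z : ℚ) : ℝ) := by exact_mod_cast hN
  rw [h4] at h6
  by_contra hneg
  exact absurd h6 (not_lt.2 (mul_nonpos_of_nonpos_of_nonneg (not_lt.1 hneg) (Complex.normSq_nonneg _)))

end one

/-! ### Two real embeddings -/

section two

variable {A : Type} [Field A] [NumberField A]

theorem rank_two (h3 : Module.finrank ℚ A = 3) (φ ψ : A →+* ℝ) (hne : φ ≠ ψ) :
    Units.rank A = 2 := by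
  have hreal : ∀ φ : A →+* ℝ, ComplexEmbedding.IsReal (Complex.ofRealHom.comp φ) := by
    intro φ
    ext x
    exact Complex.conj_ofReal _
  have h2 : 1 < InfinitePlace.nrRealPlaces A := by
    unfold InfinitePlace.nrRealPlaces
    rw [Fintype.one_lt_card_iff]
    refine ⟨⟨InfinitePlace.mk (Complex.ofRealHom.comp φ),
      InfinitePlace.isReal_iff.2 ?_⟩, ⟨InfinitePlace.mk (Complex.ofRealHom.comp ψ),
      InfinitePlace.isReal_iff.2 ?_⟩, ?_⟩
    · rw [InfinitePlace.embedding_mk_eq_of_isReal (hreal φ)]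
      exact hreal φ
    · rw [InfinitePlace.embedding_mk_eq_of_isReal (hreal ψ)]
      exact hreal ψ
    · intro h
      rw [Subtype.mk.injEq, InfinitePlace.mk_eq_iff] at h
      apply hne
      have hco : Complex.ofRealHom.comp φ = Complex.ofRealHom.comp ψ := by
        rcases h with h | h
        · exact h
        · rw [← h]
          exact (hreal φ).symm
      ext x
      have := DFunLike.congr_fun hco x
      exact Complex.ofReal_injective this
  have h1 := InfinitePlace.card_add_two_mul_card_eq_rank A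
  have h4 := InfinitePlace.card_eq_nrRealPlaces_add_nrComplexPlaces A
  rw [h3] at h1
  unfold Units.rank
  omega

/-- the subgroup of the units whose product with the norm is positive at the real embedding `φ` -/
noncomputable def Cinf (φ : A →+* ℝ) : Subgroup Aˣ where
  carrier := {y | 0 < φ (y : A) * ((Algebra.norm ℚ (y : A) : ℚ) : ℝ)}
  one_mem' := by simp
  mul_mem' := by
    intro x y hx hy
    simp only [Set.mem_setOf_eq] at hx hy ⊢
    have := mul_pos hx hy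
    rw [Units.val_mul, map_mul, map_mul]
    push_cast
    refine this.trans_eq ?_
    ring
  inv_mem' := by
    intro x hx
    simp only [Set.mem_setOf_eq] at hx ⊢
    have h1 : φ ((x⁻¹ : Aˣ) : A) * ((Algebra.norm ℚ ((x⁻¹ : Aˣ) : A) : ℚ) : ℝ) =
        (φ (x : A) * ((Algebra.norm ℚ (x : A) : ℚ) : ℝ))⁻¹ := by
      have e1 : Algebra.norm ℚ ((x⁻¹ : Aˣ) : A) = (Algebra.norm ℚ (x : A))⁻¹ := by
        refine eq_inv_of_mul_eq_one_left ?_
        rw [← map_mul, Units.inv_mul, map_one]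
      rw [e1, Units.val_inv_eq_inv_val, map_inv₀, mul_inv]
      push_cast
      rfl
    rw [h1]
    exact inv_pos.2 hx

theorem mem_Cinf (φ : A →+* ℝ) (y : Aˣ) :
    y ∈ Cinf φ ↔ 0 < φ (y : A) * ((Algebra.norm ℚ (y : A) : ℚ) : ℝ) := Iff.rfl

theorem Cinf_index (φ : A →+* ℝ) : (Cinf φ).index ≠ 0 ∧ (Cinf φ).index ≤ 2 := by
  by_cases hall : ∀ y, y ∈ Cinf φ
  · have : Cinf φ = ⊤ := by
      ext y
      simp [hall y]
    rw [this, Subgroup.index_top]
    norm_num
  · push Not at hall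
    obtain ⟨a, ha⟩ := hall
    have h2 : (Cinf φ).index = 2 := by
      rw [Subgroup.index_eq_two_iff]
      refine ⟨a, fun b => ?_⟩
      have hv : ∀ y : Aˣ, φ (y : A) * ((Algebra.norm ℚ (y : A) : ℚ) : ℝ) ≠ 0 := by
        intro y
        refine mul_ne_zero ((map_ne_zero φ).2 y.ne_zero) ?_
        exact_mod_cast (Algebra.norm_ne_zero_iff.2 y.ne_zero)
      have hm : φ ((b * a : Aˣ) : A) * ((Algebra.norm ℚ ((b * a : Aˣ) : A) : ℚ) : ℝ) =
          (φ (b : A) * ((Algebra.norm ℚ (b : A) : ℚ) : ℝ)) *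
            (φ (a : A) * ((Algebra.norm ℚ (a : A) : ℚ) : ℝ)) := by
        rw [Units.val_mul, map_mul, map_mul]
        push_cast
        ring
      rw [mem_Cinf] at ha
      have ha' : φ (a : A) * ((Algebra.norm ℚ (a : A) : ℚ) : ℝ) < 0 :=
        lt_of_le_of_ne (not_lt.1 ha) (hv a)
      rw [mem_Cinf, mem_Cinf, hm]
      rcases lt_or_gt_of_ne (hv b) with hb | hb
      · left
        exact ⟨mul_pos_of_neg_of_neg hb ha', not_lt.2 hb.le⟩
      · right
        exact ⟨hb, not_lt.2 (mul_neg_of_pos_of_neg hb ha').le⟩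
    rw [h2]
    norm_num

end two

section main

variable {V : WeierstrassCurve ℚ} {A : Type} [Field A] [NumberField A] {θ : A} (h : CF V A θ)

include h in
theorem exists_zs2 (hrk2 : Units.rank A = 2) (φ : A →+* ℝ) (hV : IV V) {D0 : ℤ} (hD0 : D0 ≠ 0) (R : Finset ℕ)
    (hR : ∀ l ∈ R, l.Prime ∧ ¬ (l : ℤ) ∣ D0) (hR1 : ∀ l ∈ R, 1 ≤ (Tq A l).ncard)
    (hD : D0 * ((∏ l ∈ R, l : ℕ) : ℤ) ≠ 0) :
    ∃ (n : ℕ) (z : Fin n → Aˣ), 2 ^ (∑ l ∈ R, ((Tq A l).ncard - 1)) ≤ n ∧
      (∀ i, (∃ r : ℚ, r ≠ 0 ∧ Algebra.norm ℚ (z i : A) = r ^ 2) ∧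
      (∀ u : HeightOneSpectrum (𝓞 A), ((D0 * ((∏ l ∈ R, l : ℕ) : ℤ) : ℤ) : 𝓞 A) ∉ u.asIdeal →
        u.valuation A (z i : A) = 1) ∧
      (∀ p : HeightOneSpectrum (𝓞 ℚ), (ng p : ℤ) ∣ D0 →
        Cond (p.adicCompletion ℚ) (AlgebraicClosure (p.adicCompletion ℚ)) V θ (z i : A)) ∧
      0 < φ (z i : A)) ∧
      (∀ i j, (∃ s : A, (z i : A) * (z j : A) = s ^ 2) → i = j) := by
  have hθ : _root_.IsIntegral ℤ θ := hV.int h.root
  have hroots := fun p : HeightOneSpectrum (𝓞 ℚ) =>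
    Y355.G.V_roots hV.a1 hV.a3 hV.Δ (AlgebraicClosure (p.adicCompletion ℚ))
  choose a b c hC using hroots
  haveI hgal := gal_p
  set D : ℤ := D0 * ((∏ l ∈ R, l : ℕ) : ℤ) with hDdef
  set S0 := TF ℚ D0 hD0 with hS0
  set S := TF ℚ D hD with hS
  set T := TF A D hD with hT
  set G := SU T with hG
  set C : S0 → Subgroup Aˣ := fun p => (DD (L := p.1.adicCompletion ℚ) (hC p.1)).comap
    (lo h (p.1.adicCompletion ℚ) (AlgebraicClosure (p.1.adicCompletion ℚ))) with hCdef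
  set r : HeightOneSpectrum (𝓞 ℚ) → ℕ := fun p =>
    Nat.card (Orb V (p.adicCompletion ℚ) (AlgebraicClosure (p.adicCompletion ℚ))) with hrdef
  have hCidx : ∀ p : S0, (C p).relIndex G ≠ 0 ∧
      (C p).relIndex G ≤ 2 ^ (r p.1 - 1) * (if ng p.1 = 2 then 2 else 1) := by
    intro p
    obtain ⟨w, hσ, hL, hfour⟩ := exists_ld p.1
    obtain ⟨k1, k2⟩ := lp w hσ (hC p.1) hL hV
    have h1 : (C p).relIndex G ∣ (DD (L := p.1.adicCompletion ℚ) (hC p.1)).index := by
      rw [hCdef, Subgroup.relIndex_comap]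
      exact Subgroup.relIndex_dvd_index_of_normal _ _
    exact ⟨fun h0 => k1 (by rw [h0] at h1; exact Nat.eq_zero_of_zero_dvd h1),
      (Nat.le_of_dvd (Nat.pos_of_ne_zero k1) h1).trans k2⟩
  have hr1 : ∀ p : HeightOneSpectrum (𝓞 ℚ), 1 ≤ r p ∧ r p ≤ (Tq A (ng p)).ncard := by
    intro p
    obtain ⟨w, hσ, hL, hfour⟩ := exists_ld p
    refine ⟨?_, orb_le_tq h w (hC p) hL hθ⟩
    haveI := rt_finite (hC p)
    haveI : Finite (Orb V (p.adicCompletion ℚ) (AlgebraicClosure (p.adicCompletion ℚ))) :=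
      Quotient.finite _
    haveI : Nonempty (Orb V (p.adicCompletion ℚ) (AlgebraicClosure (p.adicCompletion ℚ))) :=
      ⟨Quotient.mk _ ⟨a p, (hC p).root_a⟩⟩
    exact Nat.card_pos
  set I0 : Subgroup Aˣ := ⨅ p : S0, C p with hI00
  have hI0' : I0.relIndex G ≠ 0 := Subgroup.relIndex_iInf_ne_zero fun p => (hCidx p).1
  have hIle' : I0.relIndex G ≤ 2 ^ (∑ p ∈ S0, (r p - 1)) * 2 := by
    refine (Subgroup.relIndex_iInf_le _).trans ?_
    refine (Finset.prod_le_prod' fun p _ => (hCidx p).2).trans ?_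
    rw [Finset.prod_mul_distrib, Finset.prod_coe_sort S0 (fun p => 2 ^ (r p - 1)),
      Finset.prod_coe_sort S0 (fun p => (if ng p = 2 then 2 else 1 : ℕ)),
      Finset.prod_pow_eq_pow_sum]
    apply Nat.mul_le_mul_left
    rw [Finset.prod_ite, Finset.prod_const, Finset.prod_const_one, mul_one]
    have h1 : (S0.filter (fun p => ng p = 2)).card ≤ 1 := by
      rw [Finset.card_le_one]
      intro p hp p' hp'
      rw [Finset.mem_filter] at hp hp'
      exact ng_inj (hp.2.trans hp'.2.symm)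
    calc 2 ^ (S0.filter (fun p => ng p = 2)).card ≤ 2 ^ 1 := Nat.pow_le_pow_right (by norm_num) h1
      _ = 2 := rfl
  obtain ⟨hC1, hC2⟩ := Cinf_index φ
  have hC3 : (Cinf φ).relIndex G ∣ (Cinf φ).index :=
    Subgroup.relIndex_dvd_index_of_normal _ _
  have hC4 : (Cinf φ).relIndex G ≠ 0 := fun h0 => hC1 (by
    rw [h0] at hC3
    exact Nat.eq_zero_of_zero_dvd hC3)
  have hC5 : (Cinf φ).relIndex G ≤ 2 :=
    (Nat.le_of_dvd (Nat.pos_of_ne_zero hC1) hC3).trans hC2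
  set I : Subgroup Aˣ := I0 ⊓ Cinf φ with hI
  have hI0 : I.relIndex G ≠ 0 := Subgroup.relIndex_inf_ne_zero hI0' hC4
  have hIle : I.relIndex G ≤ 2 ^ (∑ p ∈ S0, (r p - 1)) * 2 * 2 :=
    Subgroup.relIndex_inf_le.trans (Nat.mul_le_mul hIle' hC5)
  -- the subgroup of the squares and of the rational numbers
  set Q : Subgroup Aˣ := (SU S).map (io A) with hQ
  have hQG : Q ≤ G := by
    rintro _ ⟨x, hx, rfl⟩
    exact io_mem hD hx
  set B : Subgroup Aˣ := SqrH G ⊔ Q with hB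
  have hBG : B ≤ G := sup_le (sqrH_le G) hQG
  have hX : (SqrH G).relIndex G = 2 ^ (Units.rank A + T.card) * 2 := by
    rw [← sqr_sub, su_idx, two_su]
  have hX1 : (SqrH G).relIndex B * B.relIndex G = (SqrH G).relIndex G :=
    Subgroup.relIndex_mul_relIndex _ _ _ le_sup_left hBG
  have hX2 : (SqrH G).relIndex B ≤ 2 ^ (S.card + 1) := by
    have e1 : (SqrH G).relIndex B = (SqrH G).relIndex Q := by
      rw [hB, Subgroup.relIndex_sup_left]
    have e2 : (SqrH G).relIndex Q ∣ (SqrH (SU S)).relIndex (SU S) := by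
      rw [hQ, ← Subgroup.relIndex_comap]
      apply Subgroup.relIndex_dvd_of_le_left
      rintro _ ⟨x, hx, rfl⟩
      exact ⟨io A x, io_mem hD hx, by
        show (io A x) ^ 2 = io A (x ^ 2)
        rw [map_pow]⟩
    have e3 : (SqrH (SU S)).relIndex (SU S) = 2 ^ (S.card + 1) := by
      rw [← sqr_sub, su_idx, two_su, rank_Q, zero_add, pow_succ]
    rw [e1]
    rw [e3] at e2
    exact Nat.le_of_dvd (by positivity) e2
  have hB0 : B.relIndex G ≠ 0 := by
    intro h0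
    rw [h0, mul_zero, hX] at hX1
    exact absurd hX1.symm (by positivity)
  -- the index of `B` in the intersection
  have hJ1 : B.relIndex G ≤ B.relIndex (I ⊓ G) * I.relIndex G := by
    have h1 : (B ⊓ (I ⊓ G)).relIndex G = (B ⊓ (I ⊓ G)).relIndex (I ⊓ G) * (I ⊓ G).relIndex G :=
      (Subgroup.relIndex_mul_relIndex _ _ _ inf_le_right inf_le_right).symm
    rw [Subgroup.inf_relIndex_right, Subgroup.inf_relIndex_right] at h1
    have h2 : B.relIndex G ∣ (B ⊓ (I ⊓ G)).relIndex G :=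
      Subgroup.relIndex_dvd_of_le_left G inf_le_left
    rw [h1] at h2
    refine Nat.le_of_dvd (Nat.pos_of_ne_zero ?_) h2
    refine mul_ne_zero ?_ hI0
    intro h0
    apply hB0
    exact Subgroup.relIndex_eq_zero_of_le_right inf_le_right h0
  have hJ0 : B.relIndex (I ⊓ G) ≠ 0 := by
    intro h0
    rw [h0, zero_mul] at hJ1
    exact hB0 (Nat.le_zero.1 hJ1)
  have hJ : 2 ^ (∑ l ∈ R, ((Tq A l).ncard - 1)) ≤ B.relIndex (I ⊓ G) := by
    have h3 : (SqrH G).relIndex G ≤ 2 ^ (S.card + 1) *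
        (B.relIndex (I ⊓ G) * (2 ^ (∑ p ∈ S0, (r p - 1)) * 2 * 2)) := by
      rw [← hX1]
      exact Nat.mul_le_mul hX2 (hJ1.trans (Nat.mul_le_mul_left _ hIle))
    rw [hX] at h3
    have hrk := hrk2
    have hT1 : (∑ p ∈ S0, (Tq A (ng p)).ncard) + ∑ l ∈ R, (Tq A l).ncard ≤ T.card :=
      card_TR (A := A) hD0 R hR hD
    have hsum : ∑ p ∈ S0, (r p - 1) + S0.card = ∑ p ∈ S0, r p := by
      rw [Finset.card_eq_sum_ones, ← Finset.sum_add_distrib]
      refine Finset.sum_congr rfl fun p _ => ?_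
      have := (hr1 p).1
      omega
    have hsum3 : ∑ l ∈ R, ((Tq A l).ncard - 1) + R.card = ∑ l ∈ R, (Tq A l).ncard := by
      rw [Finset.card_eq_sum_ones, ← Finset.sum_add_distrib]
      refine Finset.sum_congr rfl fun l hl => ?_
      have := hR1 l hl
      omega
    have hsum2 : ∑ p ∈ S0, r p ≤ ∑ p ∈ S0, (Tq A (ng p)).ncard :=
      Finset.sum_le_sum fun p _ => (hr1 p).2
    have hScard : S.card ≤ S0.card + R.card := card_SR hD0 R hR hD
    have h4 : 2 ^ (Units.rank A + T.card) * 2 = 2 ^ (Units.rank A + T.card + 1) := by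
      rw [pow_succ]
    have h5 : 2 ^ (S.card + 1) * (B.relIndex (I ⊓ G) * (2 ^ (∑ p ∈ S0, (r p - 1)) * 2 * 2)) =
        B.relIndex (I ⊓ G) * 2 ^ (S.card + 1 + (∑ p ∈ S0, (r p - 1) + 1 + 1)) := by
      rw [pow_add 2 (S.card + 1) (∑ p ∈ S0, (r p - 1) + 1 + 1), pow_succ 2 (∑ p ∈ S0, (r p - 1) + 1),
        pow_succ 2 (∑ p ∈ S0, (r p - 1))]
      ring
    rw [h4, h5] at h3
    have h6 : 2 ^ (∑ l ∈ R, ((Tq A l).ncard - 1)) *
          2 ^ (S.card + 1 + (∑ p ∈ S0, (r p - 1) + 1 + 1)) ≤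
        B.relIndex (I ⊓ G) * 2 ^ (S.card + 1 + (∑ p ∈ S0, (r p - 1) + 1 + 1)) := by
      refine le_trans ?_ h3
      rw [← pow_add]
      apply Nat.pow_le_pow_right (by norm_num)
      omega
    exact Nat.le_of_mul_le_mul_right h6 (by positivity)
  -- the representatives
  haveI hfi : (B.subgroupOf (I ⊓ G)).FiniteIndex := ⟨hJ0⟩
  haveI hfin : Finite (↥(I ⊓ G) ⧸ B.subgroupOf (I ⊓ G)) :=
    Subgroup.finite_quotient_of_finiteIndex
  have hcard : Nat.card (↥(I ⊓ G) ⧸ B.subgroupOf (I ⊓ G)) = B.relIndex (I ⊓ G) := rfl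
  let E : Fin (B.relIndex (I ⊓ G)) ≃ (↥(I ⊓ G) ⧸ B.subgroupOf (I ⊓ G)) :=
    (finCongr hcard.symm).trans (Finite.equivFin _).symm
  let y : Fin (B.relIndex (I ⊓ G)) → ↥(I ⊓ G) := fun i => (E i).out
  have hy : ∀ i j, (y i)⁻¹ * y j ∈ B.subgroupOf (I ⊓ G) → i = j := by
    intro i j hij
    apply E.injective
    rw [← Quotient.out_eq (E i), ← Quotient.out_eq (E j)]
    exact QuotientGroup.eq.2 hij
  set N : Fin (B.relIndex (I ⊓ G)) → ℚˣ := fun i => nrm A (y i).1 with hN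
  have hNS : ∀ i, N i ∈ SU S := fun i => nrm_mem h hV hD (y i).2.2
  have hNval : ∀ i, (N i : ℚ) = Algebra.norm ℚ (((y i).1 : Aˣ) : A) := fun i => rfl
  have hzG : ∀ i, (y i).1 * io A (N i) ∈ G := fun i =>
    G.mul_mem (y i).2.2 (io_mem hD (hNS i))
  refine ⟨B.relIndex (I ⊓ G), fun i => (y i).1 * io A (N i), hJ, fun i => ⟨?_, ?_, ?_, ?_⟩, ?_⟩
  · refine ⟨(N i : ℚ) ^ 2, pow_ne_zero 2 (N i).ne_zero, ?_⟩
    rw [Units.val_mul, map_mul]
    have e1 : ((io A (N i) : Aˣ) : A) = algebraMap ℚ A (N i : ℚ) := rfl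
    rw [e1, Algebra.norm_algebraMap, h.deg, ← hNval]
    ring
  · intro u hu
    exact hzG i u (by
      intro hmem
      exact hu (mem_TF.1 hmem))
  · intro p hp
    have hzC : (y i).1 ∈ C ⟨p, mem_TFQ.2 hp⟩ := (Subgroup.mem_iInf.1 (y i).2.1.1) _
    have hD1 := (mem_DD (L := p.adicCompletion ℚ) (hC p)).1 hzC
    obtain ⟨η, d, P, hη⟩ := hD1
    have hη' : ∀ e, em h e (((y i).1 : Aˣ) : A) =
        (η.1 e : AlgebraicClosure (p.adicCompletion ℚ)) ^ 2 *
      algebraMap _ _ (d : p.adicCompletion ℚ) * kpf P e := hη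
    obtain ⟨y1, hy1⟩ := prod_fixed (hC p) η
    obtain ⟨y2, hy2⟩ := kp_norm (hC p) P
    set Ω' := AlgebraicClosure (p.adicCompletion ℚ) with hΩ'
    set ι := algebraMap (p.adicCompletion ℚ) Ω' with hι
    have hnorm : algebraMap ℚ Ω' (N i : ℚ) = (ι y1 * ι y2 * ι (d : p.adicCompletion ℚ)) ^ 2 *
        ι (d : p.adicCompletion ℚ) := by
      rw [hNval, norm_em h (hC p), hη', hη', hη', hy1]
      linear_combination (((η.1 ⟨a p, (hC p).root_a⟩ : Ω') * (η.1 ⟨b p, (hC p).root_b⟩) *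
        (η.1 ⟨c p, (hC p).root_c⟩)) ^ 2 * ι (d : p.adicCompletion ℚ) ^ 3) * hy2
    refine ⟨act V (incl ℚ (p.adicCompletion ℚ) Ω') P, fun σ => rs_act_incl V σ P, fun φ' => ?_⟩
    set e : Rt V Ω' := ⟨φ' θ, root_em h φ'⟩ with he
    refine ⟨(η.1 e : Ω') * (ι y1 * ι y2 * ι (d : p.adicCompletion ℚ)) *
      ι (d : p.adicCompletion ℚ), fun σ hσ => ?_, fun b' c' hC' => ?_⟩
    · have hmv : mv σ e = e := Subtype.ext hσ
      rw [map_mul, map_mul, map_mul, map_mul, equi, hmv, σ.commutes, σ.commutes, σ.commutes]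
    · rw [em_uniq h e φ' rfl, Units.val_mul, map_mul, hη' e]
      have e1 : ((io A (N i) : Aˣ) : A) = algebraMap ℚ A (N i : ℚ) := rfl
      rw [e1, (em h e).commutes, hnorm, kpf_eq P e hC']
      ring
  · have hyC : (y i).1 ∈ Cinf φ := (y i).2.1.2
    rw [mem_Cinf] at hyC
    rw [Units.val_mul, map_mul]
    have e1 : ((io A (N i) : Aˣ) : A) = algebraMap ℚ A (N i : ℚ) := rfl
    have e2 : φ (algebraMap ℚ A (N i : ℚ)) = ((N i : ℚ) : ℝ) := by
      rw [← RingHom.comp_apply]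
      exact map_ratCast _ _
    rw [e1, e2, hNval]
    exact hyC
  · rintro i j ⟨s, hs⟩
    apply hy
    rw [Subgroup.mem_subgroupOf]
    show ((y i).1)⁻¹ * (y j).1 ∈ B
    have hs0 : s ≠ 0 := by
      rintro rfl
      rw [zero_pow two_ne_zero] at hs
      exact mul_ne_zero ((y i).1 * io A (N i)).ne_zero ((y j).1 * io A (N j)).ne_zero hs
    have hzN : ((y i).1 * io A (N i)) * ((y j).1 * io A (N j)) = (Units.mk0 s hs0) ^ 2 :=
      Units.ext (by
        rw [Units.val_mul]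
        exact hs)
    have hsG : Units.mk0 s hs0 ∈ G := by
      intro u hu
      have h1 := G.mul_mem (hzG i) (hzG j)
      rw [hzN] at h1
      have h3 : u.valuation A (((Units.mk0 s hs0) ^ 2 : Aˣ) : A) = 1 := h1 u hu
      rw [Units.val_pow_eq_pow_val, map_pow] at h3
      exact (pow_eq_one_iff_of_nonneg zero_le' (by norm_num)).1 h3
    have hz : ((y i).1)⁻¹ * (y j).1 = (((y i).1)⁻¹ * Units.mk0 s hs0) ^ 2 *
        io A ((N i)⁻¹ * (N j)⁻¹) := by
      rw [mul_pow, map_mul, map_inv, map_inv, ← hzN]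
      exact (grp _ _ _ _).symm
    rw [hz]
    refine Subgroup.mul_mem_sup ⟨_, G.mul_mem (G.inv_mem (y i).2.2) hsG, rfl⟩
      ⟨(N i)⁻¹ * (N j)⁻¹, (SU S).mul_mem ((SU S).inv_mem (hNS i)) ((SU S).inv_mem (hNS j)), rfl⟩

end main

end ZSBx

open ZSBx

theorem t_ZSB : S_ZSB := by
  intro V A _ _ θ h hV D0 hD0 R hR hR1 hD
  by_cases hex : ∃ φ : A →+* ℝ, ∀ ψ : A →+* ℝ, φ θ ≤ ψ θ
  · obtain ⟨φ, hφ⟩ := hex
    by_cases huni : ∀ ψ : A →+* ℝ, ψ = φ
    · obtain ⟨n, z, hn, hz, hzz⟩ := Pool.Agent.H30GR.exists_zs h hV hD0 R hR hR1 hD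
      refine ⟨n, z, hn, fun i => ⟨(hz i).1, (hz i).2.1, fun p hp => by
        convert (hz i).2.2 p hp <;> exact Subsingleton.elim _ _, ?_⟩, hzz⟩
      intro ψ hψ
      rw [huni ψ]
      obtain ⟨r, hr0, hr⟩ := (hz i).1
      exact norm_pos h.deg φ huni _ (z i).ne_zero (by rw [hr]; positivity)
    · push Not at huni
      obtain ⟨ψ, hψ⟩ := huni
      obtain ⟨n, z, hn, hz, hzz⟩ := exists_zs2 h (rank_two h.deg ψ φ hψ) φ hV hD0 R hR hR1 hD
      refine ⟨n, z, hn, fun i => ⟨(hz i).1, (hz i).2.1, fun p hp => by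
        convert (hz i).2.2.1 p hp <;> exact Subsingleton.elim _ _, ?_⟩, hzz⟩
      intro χ hχ
      have h1 : χ θ = φ θ := le_antisymm (hχ φ) (hφ χ)
      have h2 : χ = φ := by
        have h3 : χ.toRatAlgHom = φ.toRatAlgHom := by
          apply AlgHom.ext_of_adjoin_eq_top h.gen
          intro x hx
          rw [Set.mem_singleton_iff] at hx
          rw [hx]
          exact h1
        ext x
        exact DFunLike.congr_fun h3 x
      rw [h2]
      exact (hz i).2.2.2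
  · obtain ⟨n, z, hn, hz, hzz⟩ := Pool.Agent.H30GR.exists_zs h hV hD0 R hR hR1 hD
    exact ⟨n, z, hn, fun i => ⟨(hz i).1, (hz i).2.1, fun p hp => by
        convert (hz i).2.2 p hp <;> exact Subsingleton.elim _ _, fun ψ hψ =>
      absurd ⟨ψ, hψ⟩ hex⟩, hzz⟩

end Pool.Agent.H29B
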