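import Pool.Agent.H29B.Thm
import Pool.Agent.H29B.CRB
import Pool.Agent.H29B.DIAGB
import Pool.Agent.H29B.EVB
import Pool.Agent.H29B.GLR
import Pool.Agent.H29B.INB
import Pool.Agent.H29B.ISQB
import Pool.Agent.H29B.LATB
import Pool.Agent.H29B.LOWR
import Pool.Agent.H29B.PLBB
import Pool.Agent.H29B.RECB
import Pool.Agent.H29B.SELR
import Pool.Agent.H29B.SIZEB
import Pool.Agent.H29B.SLOWB
import Pool.Agent.H29B.SUPB
import Pool.Agent.H29B.TAILB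
import Pool.Agent.H29B.ZSB
import Pool.Agent.H29A.EXW
import Pool.Agent.H29A.GLC
import Pool.Agent.H29A.INL
import Pool.Agent.H29A.ISOW
import Pool.Agent.H29A.MAJW
import Pool.Agent.H29A.MOMW
import Pool.Agent.H29A.MUL
import Pool.Agent.H29A.NFW
import Pool.Agent.H29A.NSW
import Pool.Agent.H29A.PRW
import Pool.Agent.H29A.RAMC
import Pool.Agent.H29A.RAW
import Pool.Agent.H29A.REDW
import Pool.Agent.H29A.SQV
import Pool.Agent.H29A.TTW
import Pool.Agent.H29A.TWC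
import Pool.Agent.H29A.UNW
import Pool.Agent.H29A.DEN
import Pool.Agent.Helper29L.Lin
import Pool.Agent.Helper29L.TV

/-!
# Project ALL, part 2: the pieces together
-/

set_option autoImplicit false
set_option linter.all false

open Finset Filter
open scoped Classical

namespace Pool.Agent.H29B

open Pool.Agent.H29A
open Pool.Agent.Helper29L (lin2 tv2 NiceP hgt)
open Pool.Agent.Helper29K (Pr8)

theorem exw : S_EXW := t_EXW t_INL

theorem pcs : Pcs :=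
  ⟨lin2, exw, t_MUL, t_RECB t_DIAGB t_ISOW (t_UNW t_INL) (t_RAW t_INL) exw,
    t_SIZEB t_ZSB (t_NSW t_INL exw) exw, t_SLOWB t_CRB t_LOWR t_TWC t_SQV t_RAMC,
    t_SUPB t_GLC t_GLR t_TWC t_SQV (t_EVB exw), t_SELR⟩

theorem plbb : S_PLBB :=
  t_PLBB (t_ISQB t_DIAGB t_ISOW (t_UNW t_INL) (t_RAW t_INL) exw) t_MAJW t_REDW t_NFW
    (t_LATB t_INL t_INB exw (t_NSW t_INL exw)) (t_TTW t_INL) (t_NSW t_INL exw) exw

/-- **Almost all elliptic curves over `ℚ`.** -/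
theorem fin {ε : ℝ} (hε : 0 < ε) :
    ∃ (k : ℕ) (𝒬 : ℕ → Finset ℕ), (∀ i < k + 1, Pr8 (𝒬 i)) ∧
      (∀ i < k + 1, ∀ j < i, Disjoint (𝒬 j) (𝒬 i)) ∧ ∀ᶠ T : ℕ in atTop,
      (({p : ℤ × ℤ | p ∈ AllT T ∧ ¬ (NiceP k 𝒬 ε p ∧ ∀ z : ℤ, z ^ 3 + p.1 * z + p.2 ≠ 0)}.ncard : ℕ) : ℝ) ≤
        ε * ((AllT T).ncard : ℝ) :=
  main4 pcs plbb t_MOMW t_PRW t_TAILB t_DEN tv2 hε

end Pool.Agent.H29B
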