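import Pool.Agent.H29B.Stm
import Pool.Agent.Helper29L.Bal

/-!
# Project ALL, part 2: the groups of classes as a totally singular space (as `H29A/Grp.lean`)
-/

set_option autoImplicit false
set_option linter.all false

open IsDedekindDomain NumberField
open scoped Classical

namespace Pool.Agent.H29B

open Pool.Agent.H29A (GpW OKW CondAt InRelW InSelW S_EXW S_MUL)

open Pool.Agent.N922.PQ
open Pool.Agent.Helper29L (Gp PBad InB PD WZ S_LIN2 sub mem_sub sub_insert psi psi_fst psi_snd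
  card_sub odd_not_dvd not_ev_exp)
open Pool.Agent.Helper29L.SZ (VV)
open Pool.Agent.Y710.CV (Cond cond1)
open Pool.Agent.R425.G (ng)
open Pool.Agent.N874.PP (Tup chA chB gq tau Two Ev Sq1 U0 sW)

/-- The pieces which are used here. -/
structure Pcs : Prop where
  lin : S_LIN2
  exw : S_EXW
  mul : S_MUL
  rcp : S_RECB
  size : S_SIZEB
  slow : S_SLOWB
  sup : S_SUPB
  selr : S_SELR

/-- A prime `1` modulo `W` does not divide `W`. -/
theorem gpw_ndvd {W : ℕ} (hW : OKW W) {a b Q : ℤ} (h : GpW W a b Q) : ¬ Q ∣ (W : ℤ) := by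
  intro hQ
  have h1 : Q ∣ Q - 1 := hQ.trans h.one
  have h2 : Q ∣ 1 := by
    have := dvd_sub (dvd_refl Q) h1
    rwa [sub_sub_cancel] at this
  exact h.pr.2.not_unit (isUnit_of_dvd_one h2)

section grp

variable {L : Type} [Field L] [NumberField L]

/-- `W` is a unit at the primes over `Q`. -/
theorem gpw_notMem {W : ℕ} (hW : OKW W) {a b Q : ℤ} (h : GpW W a b Q)
    {𝔓 : HeightOneSpectrum (𝓞 L)} (hov : Ov Q 𝔓) : (W : 𝓞 L) ∉ 𝔓.asIdeal := by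
  intro hm
  have hcop : IsCoprime Q (W : ℤ) := by
    rw [h.pr.2.coprime_iff_not_dvd]
    exact gpw_ndvd hW h
  obtain ⟨u, v, huv⟩ := hcop
  have h1 : (Q : 𝓞 L) ∈ 𝔓.asIdeal := hov
  have h2 : ((u * Q + v * (W : ℤ) : ℤ) : 𝓞 L) ∈ 𝔓.asIdeal := by
    push_cast
    exact 𝔓.asIdeal.add_mem (𝔓.asIdeal.mul_mem_left _ h1) (𝔓.asIdeal.mul_mem_left _ (by simpa using hm))
  rw [huv, Int.cast_one] at h2
  exact 𝔓.isPrime.ne_top ((Ideal.eq_top_iff_one _).2 h2)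

/-- The data: the curve, the primes `Q ∈ S` of the type, and the primes `𝔮 Q` of degree two over them. -/
structure CtxW (W : ℕ) (a b : ℤ) (θ : L) (S : Finset ℤ) (𝔮 : ℤ → HeightOneSpectrum (𝓞 L)) : Prop where
  ok : OKW W
  cub : IsCub a b θ
  fam : GB W a b
  gp : ∀ Q ∈ S, GpW W a b Q
  ov : ∀ Q ∈ S, Ov Q (𝔮 Q)
  v1 : ∀ Q ∈ S, (𝔮 Q).valuation L θ = 1
  ne : ∀ Q ∈ S, ¬ Ev (𝔮 Q) ((Q : L) * θ)
  uniq : ∀ Q ∈ S, ∀ 𝔓 : HeightOneSpectrum (𝓞 L), Ov Q 𝔓 → 𝔓.valuation L θ = 1 → 𝔓 = 𝔮 Q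

theorem theta_int {a b : ℤ} {θ : L} (h : IsCub a b θ) : ∃ t : 𝓞 L, algebraMap (𝓞 L) L t = θ :=
  Pool.Agent.N301.PQ.theta_ex (𝓞 L) h

theorem exists_ctx (H : Pcs) {W : ℕ} (hW : OKW W) {a b : ℤ} {θ : L} (hc : IsCub a b θ)
    (hF : GB W a b) {S : Finset ℤ} (hS : ∀ Q ∈ S, GpW W a b Q) :
    ∃ 𝔮 : ℤ → HeightOneSpectrum (𝓞 L), CtxW W a b θ S 𝔮 := by
  obtain ⟨t, ht⟩ := theta_int hc
  have hex : ∀ Q ∈ S, ∃ 𝔮 : HeightOneSpectrum (𝓞 L), Ov Q 𝔮 ∧ 𝔮.valuation L θ = 1 ∧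
      ¬ Ev 𝔮 ((Q : L) * θ) ∧
      ∀ 𝔓 : HeightOneSpectrum (𝓞 L), Ov Q 𝔓 → 𝔓.valuation L θ = 1 → 𝔓 = 𝔮 := by
    intro Q hQ
    obtain ⟨𝔓₁, 𝔮, hd, h3, h4⟩ := H.exw L a b θ t hc ht Q (hS Q hQ).toGp
    refine ⟨𝔮, hd.ovq, h4, not_ev_exp (by rw [map_mul, h4, mul_one, hd.unif']), fun 𝔓 h𝔓 hv => ?_⟩
    rcases hd.only 𝔓 h𝔓 with rfl | rfl
    · exact absurd hv h3.ne
    · rfl
  by_cases hne : S.Nonempty
  · obtain ⟨Q₀, hQ₀⟩ := hne
    obtain ⟨𝔮₀, -⟩ := hex Q₀ hQ₀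
    refine ⟨fun Q => if hQ : Q ∈ S then (hex Q hQ).choose else 𝔮₀, hW, hc, hF, hS, ?_, ?_, ?_, ?_⟩
    all_goals
      intro Q hQ
      simp only [dif_pos hQ]
    · exact (hex Q hQ).choose_spec.1
    · exact (hex Q hQ).choose_spec.2.1
    · exact (hex Q hQ).choose_spec.2.2.1
    · exact (hex Q hQ).choose_spec.2.2.2
  · rw [Finset.not_nonempty_iff_eq_empty] at hne
    subst hne
    haveI hne : Nonempty (HeightOneSpectrum (𝓞 L)) := by
      have hnf : ¬ IsField (𝓞 L) := RingOfIntegers.not_isField L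
      obtain ⟨m, hm⟩ := Ideal.exists_maximal (𝓞 L)
      exact ⟨⟨m, hm.isPrime, Ring.ne_bot_of_isMaximal_of_not_isField hm hnf⟩⟩
    exact ⟨fun _ => Classical.arbitrary _, hW, hc, hF, hS, by simp, by simp, by simp, by simp⟩

variable {W : ℕ} {a b : ℤ} {θ : L} {S : Finset ℤ} {𝔮 : ℤ → HeightOneSpectrum (𝓞 L)}

theorem CtxW.wne (C : CtxW W a b θ S 𝔮) {Q : ℤ} (hQ : Q ∈ S) : (Q : L) * θ ≠ 0 := by
  intro h0
  exact C.ne Q hQ (by rw [h0]; exact ⟨0, by simp⟩)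

theorem CtxW.cls (C : CtxW W a b θ S 𝔮) {Q : ℤ} (hQ : Q ∈ S) {x y : L} (hx : x ≠ 0) (hy : y ≠ 0) :
    (Ev (𝔮 Q) (x * y) ↔ (Ev (𝔮 Q) x ↔ Ev (𝔮 Q) y)) ∧
    (U0 (𝔮 Q) ((Q : L) * θ) (x * y) ↔ (U0 (𝔮 Q) ((Q : L) * θ) x ↔ U0 (𝔮 Q) ((Q : L) * θ) y)) :=
  parts.cls L (𝓞 L) Q (𝔮 Q) ((Q : L) * θ) (C.gp Q hQ).pr.2
    (odd_not_dvd (C.gp Q hQ).pr (C.gp Q hQ).m8) (C.ov Q hQ) (C.wne hQ) (C.ne Q hQ) x y hx hy

theorem CtxW.psi_mul (C : CtxW W a b θ S 𝔮) {x y : L} (hx : x ≠ 0) (hy : y ≠ 0) :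
    psi θ S 𝔮 (x * y) = psi θ S 𝔮 x + psi θ S 𝔮 y := by
  funext Q
  have h := C.cls Q.2 hx hy
  exact Prod.ext (cl_add_aux h.1) (cl_add_aux h.2)

theorem CtxW.rel_mul (H : Pcs) (C : CtxW W a b θ S 𝔮) {x y : L} (hx : InRelB W a b S θ x)
    (hy : InRelB W a b S θ y) : InRelB W a b S θ (x * y) where
  ne := mul_ne_zero hx.ne hy.ne
  norm := by
    rw [map_mul]
    exact hx.norm.mul hy.norm
  loc v hv := H.mul L a b θ C.cub C.fam.ne v x y hx.ne hy.ne (hx.loc v hv) (hy.loc v hv)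
  ev 𝔓 hW h := Pool.Agent.Helper29L.ev_mul (hx.ev 𝔓 hW h) (hy.ev 𝔓 hW h)
  real φ hφ := by
    rw [map_mul]
    exact mul_pos (hx.real φ hφ) (hy.real φ hφ)

theorem condAt_one (v : HeightOneSpectrum (𝓞 ℚ)) (a b : ℤ) (θ : L) : CondAt v a b θ (1 : L) := by
  refine cond1 fun φ => ⟨1, fun σ _ => map_one σ, ?_⟩
  rw [map_one, one_pow]

theorem CtxW.rel_one (C : CtxW W a b θ S 𝔮) : InRelB W a b S θ 1 where
  ne := one_ne_zero
  norm := by
    rw [map_one]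
    exact IsSquare.one
  loc v _ := condAt_one v a b θ
  ev 𝔓 _ h := ⟨1, by rw [map_one, one_pow]⟩
  real φ _ := by
    rw [map_one]
    exact one_pos

theorem CtxW.psi_one (C : CtxW W a b θ S 𝔮) : psi θ S 𝔮 (1 : L) = 0 := by
  have h := C.psi_mul (one_ne_zero (α := L)) (one_ne_zero (α := L))
  rw [mul_one] at h
  exact left_eq_add.1 h

theorem CtxW.psi_sq (C : CtxW W a b θ S 𝔮) {x : L} (hx : x ≠ 0) : psi θ S 𝔮 (x * x) = 0 := by
  rw [C.psi_mul hx hx]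
  funext Q
  exact Prod.ext (CharTwo.add_self_eq_zero _) (CharTwo.add_self_eq_zero _)

/-- The space of the local classes of the relaxed group. -/
noncomputable def VVW (H : Pcs) (C : CtxW W a b θ S 𝔮) :
    Submodule (ZMod 2) (S → ZMod 2 × ZMod 2) where
  carrier := {v | ∃ α, InRelB W a b S θ α ∧ psi θ S 𝔮 α = v}
  zero_mem' := ⟨1, C.rel_one, C.psi_one⟩
  add_mem' := by
    rintro _ _ ⟨α, hα, rfl⟩ ⟨β, hβ, rfl⟩
    exact ⟨α * β, C.rel_mul H hα hβ, C.psi_mul hα.ne hβ.ne⟩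
  smul_mem' := by
    rintro c _ ⟨α, hα, rfl⟩
    have hc : c = 0 ∨ c = 1 := by
      fin_cases c
      · exact Or.inl rfl
      · exact Or.inr rfl
    rcases hc with rfl | rfl
    · exact ⟨1, C.rel_one, by rw [C.psi_one, zero_smul]⟩
    · exact ⟨α, hα, by rw [one_smul]⟩

/-- The space is totally singular. -/
theorem VV_iso (H : Pcs) (C : CtxW W a b θ S 𝔮) : ∀ v ∈ VVW H C, ∑ Q, (v Q).1 * (v Q).2 = 0 := by
  rintro _ ⟨α, hα, rfl⟩
  have h := H.rcp W C.ok L a b θ S C.cub C.fam C.gp 𝔮 (fun Q hQ => ⟨C.ov Q hQ, C.v1 Q hQ⟩) α hα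
  have e1 : ∑ Q : S, (psi θ S 𝔮 α Q).1 * (psi θ S 𝔮 α Q).2 = ∑ Q ∈ S,
      (if ¬ Ev (𝔮 Q) α ∧ ¬ Sq1 (𝔮 Q) (α * ((Q : L) * θ)) then (1 : ZMod 2) else 0) := by
    rw [← Finset.sum_coe_sort S]
    refine Finset.sum_congr rfl fun Q _ => ?_
    simp only [psi, cl]
    by_cases he : Ev (𝔮 Q) α
    · rw [if_pos he, zero_mul, if_neg (fun h => h.1 he)]
    · by_cases hs : Sq1 (𝔮 Q) (α * (((Q : ℤ) : L) * θ))
      · have hu : U0 (𝔮 Q) (((Q : ℤ) : L) * θ) α := ⟨fun h => absurd h he, fun _ => hs⟩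
        rw [if_neg he, if_pos hu, mul_zero, if_neg (fun h => h.2 hs)]
      · have hu : ¬ U0 (𝔮 Q) (((Q : ℤ) : L) * θ) α := fun h => hs (h.2 he)
        rw [if_neg he, if_neg hu, mul_one, if_pos ⟨he, hs⟩]
  rw [e1, Finset.sum_ite, Finset.sum_const_zero, add_zero, Finset.sum_const, nsmul_eq_mul,
    mul_one]
  exact (ZMod.natCast_eq_zero_iff_even).2 h

/-- The local classes determine the class. -/
def InjW (W : ℕ) (a b : ℤ) (θ : L) (S : Finset ℤ) (𝔮 : ℤ → HeightOneSpectrum (𝓞 L)) : Prop :=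
  ∀ α, InRelB W a b S θ α → psi θ S 𝔮 α = 0 → IsSquare α

theorem InjW.sq (H : Pcs) (C : CtxW W a b θ S 𝔮) (hI : InjW W a b θ S 𝔮) {α β : L}
    (hα : InRelB W a b S θ α) (hβ : InRelB W a b S θ β) (h : psi θ S 𝔮 α = psi θ S 𝔮 β) :
    IsSquare (α * β) := by
  apply hI _ (C.rel_mul H hα hβ)
  rw [C.psi_mul hα.ne hβ.ne, h]
  funext Q
  exact Prod.ext (CharTwo.add_self_eq_zero _) (CharTwo.add_self_eq_zero _)

/-- The dimension of the space. -/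
theorem VV_rank (H : Pcs) (C : CtxW W a b θ S 𝔮) (hI : InjW W a b θ S 𝔮) :
    Fintype.card S ≤ Module.finrank (ZMod 2) (VVW H C) := by
  obtain ⟨z, hz, hzz⟩ := H.size W C.ok L a b θ S C.cub C.fam C.gp
  have h1 : 2 ^ S.card ≤ Nat.card (VVW H C) := by
    let g : Fin (2 ^ S.card) → VVW H C := fun i => ⟨psi θ S 𝔮 (z i), ⟨z i, hz i, rfl⟩⟩
    have hg : Function.Injective g := by
      intro i j hij
      by_contra hne
      exact hzz i j hne (hI.sq H C (hz i) (hz j) (congrArg Subtype.val hij))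
    have := Nat.card_le_card_of_injective g hg
    rwa [Nat.card_eq_fintype_card, Fintype.card_fin] at this
  rw [card_sub] at h1
  rw [Fintype.card_coe]
  exact (Nat.pow_le_pow_iff_right (by norm_num)).1 h1

theorem InSelB.rel {Z : Finset ℤ} {α : L} (h : InSelB W a b Z θ α) (hZ : Z ⊆ S) :
    InRelB W a b S θ α where
  ne := h.ne
  norm := h.norm
  loc := h.loc
  ev 𝔓 hW h1 := h.ev 𝔓 hW fun Q hQ => h1 Q (hZ hQ)
  real := h.real

/-- The Selmer classes in the space. -/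
theorem mem_WZ (H : Pcs) (C : CtxW W a b θ S 𝔮) {Z : Finset ℤ} (hZ : Z ⊆ S) {α : L}
    (hα : InRelB W a b S θ α) :
    psi θ S 𝔮 α ∈ WZ (VVW H C) (sub S Z) ↔ InSelB W a b Z θ α := by
  constructor
  · rintro ⟨-, h1, h2⟩
    refine ⟨⟨⟨hα.ne, hα.norm, hα.loc, fun 𝔓 hW h => ?_⟩, ?_⟩, hα.real⟩
    · by_cases hex : ∃ Q ∈ S, Ov Q 𝔓 ∧ 𝔓.valuation L θ = 1
      · obtain ⟨Q, hQ, h3, h4⟩ := hex
        have h5 : Q ∉ Z := fun h6 => h Q h6 ⟨h3, h4⟩
        rw [C.uniq Q hQ 𝔓 h3 h4]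
        exact (psi_fst (θ := θ) (𝔮 := 𝔮) (⟨Q, hQ⟩ : S)).1 (h1 ⟨Q, hQ⟩ (by rwa [mem_sub]))
      · exact hα.ev 𝔓 hW fun Q hQ h3 => hex ⟨Q, hQ, h3⟩
    · intro Q hQ 𝔓 h3 h4
      rw [C.uniq Q (hZ hQ) 𝔓 h3 h4]
      exact (psi_snd (⟨Q, hZ hQ⟩ : S)).1 (h2 ⟨Q, hZ hQ⟩ (by rwa [mem_sub]))
  · intro h
    refine ⟨⟨α, hα, rfl⟩, ?_, ?_⟩
    · intro Q hQ
      rw [mem_sub] at hQ
      rw [psi_fst]
      apply h.ev _ (gpw_notMem C.ok (C.gp Q Q.2) (C.ov Q Q.2))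
      rintro P hP ⟨h1, h2⟩
      have : P = Q := below_unique (C.gp P (hZ hP)).pr (C.gp Q Q.2).pr h1 (C.ov Q Q.2)
      exact hQ (this ▸ hP)
    · intro Q hQ
      rw [mem_sub] at hQ
      rw [psi_snd]
      exact h.u0 Q hQ _ (C.ov Q Q.2) (C.v1 Q Q.2)

/-- The rank. -/
noncomputable def rkW (H : Pcs) (C : CtxW W a b θ S 𝔮) (Z : Finset ℤ) : ℕ :=
  Module.finrank (ZMod 2) (WZ (VVW H C) (sub S Z))

/-- The number of the classes. -/
theorem sel_num (H : Pcs) (C : CtxW W a b θ S 𝔮) (hI : InjW W a b θ S 𝔮) {Z : Finset ℤ} (hZ : Z ⊆ S) :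
    (∃ z : Fin (2 ^ rkW H C Z) → L, (∀ i, InSelB W a b Z θ (z i)) ∧
      ∀ i j, i ≠ j → ¬ IsSquare (z i * z j)) ∧
    ∀ (n : ℕ) (z : Fin n → L), (∀ i, InSelB W a b Z θ (z i)) →
      (∀ i j, i ≠ j → ¬ IsSquare (z i * z j)) → n ≤ 2 ^ rkW H C Z := by
  have hcard : Nat.card (WZ (VVW H C) (sub S Z)) = 2 ^ rkW H C Z := card_sub _
  constructor
  · have e : Fin (2 ^ rkW H C Z) ≃ WZ (VVW H C) (sub S Z) := by
      have := Finite.equivFin (WZ (VVW H C) (sub S Z))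
      rw [hcard] at this
      exact this.symm
    have hex : ∀ i, ∃ α, InRelB W a b S θ α ∧ psi θ S 𝔮 α = (e i : S → ZMod 2 × ZMod 2) :=
      fun i => (e i).2.1
    choose z hz1 hz2 using hex
    refine ⟨z, fun i => (mem_WZ H C hZ (hz1 i)).1 (by rw [hz2 i]; exact (e i).2), ?_⟩
    intro i j hij hsq
    apply hij
    apply e.injective
    apply Subtype.ext
    rw [← hz2 i, ← hz2 j]
    obtain ⟨x, hx⟩ := hsq
    have hx0 : x ≠ 0 := by
      rintro rfl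
      rw [mul_zero] at hx
      exact mul_ne_zero (hz1 i).ne (hz1 j).ne hx
    have h1 := C.psi_sq hx0
    rw [← hx, C.psi_mul (hz1 i).ne (hz1 j).ne] at h1
    rw [← sub_eq_zero, sub_eq_add_neg]
    have h2 : -psi θ S 𝔮 (z j) = psi θ S 𝔮 (z j) := by
      rw [neg_eq_iff_add_eq_zero]
      funext Q
      exact Prod.ext (CharTwo.add_self_eq_zero _) (CharTwo.add_self_eq_zero _)
    rw [h2, h1]
  · intro n z hz hzz
    let g : Fin n → WZ (VVW H C) (sub S Z) := fun i =>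
      ⟨psi θ S 𝔮 (z i), (mem_WZ H C hZ ((hz i).rel hZ)).2 (hz i)⟩
    have hg : Function.Injective g := by
      intro i j hij
      by_contra hne
      exact hzz i j hne (hI.sq H C ((hz i).rel hZ) ((hz j).rel hZ) (congrArg Subtype.val hij))
    have := Nat.card_le_card_of_injective g hg
    rwa [Nat.card_eq_fintype_card, Fintype.card_fin, hcard] at this

/-- **The 2-Selmer group of the twist.** -/
theorem sel_card (H : Pcs) (C : CtxW W a b θ S 𝔮) (hI : InjW W a b θ S 𝔮) {Z : Finset ℤ}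
    (hZ : Z ⊆ S) {d : ℤ} (hd : d = ∏ Q ∈ Z, Q) :
    Finite (Pool.Agent.H30GR.Sel2 (Pool.Agent.H30EV.curve ℚ (a * d ^ 2, b * d ^ 3))) ∧
    Nat.card (Pool.Agent.H30GR.Sel2 (Pool.Agent.H30EV.curve ℚ (a * d ^ 2, b * d ^ 3))) =
      2 ^ rkW H C Z := by
  obtain ⟨⟨z, hz, hzz⟩, hle⟩ := sel_num H C hI hZ
  have hup := H.selr (a * d ^ 2, b * d ^ 3) (2 ^ rkW H C Z)
    (H.sup W C.ok L a b θ Z d C.cub C.fam (fun Q hQ => C.gp Q (hZ hQ)) hd (2 ^ rkW H C Z) hle)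
  refine ⟨hup.1, le_antisymm hup.2 ?_⟩
  haveI := hup.1
  obtain ⟨c, hc, hcc⟩ := H.slow W C.ok L a b θ Z d C.cub C.fam (fun Q hQ => C.gp Q (hZ hQ)) hd _ z
    hz hzz
  exact Pool.Agent.H30GR.sel_low c hc hcc

/-! ### Balanced classes -/

/-- The nontrivial classes of `Sel(Z)` are balanced on `A`. -/
def BalancedW (W : ℕ) (θ : L) (a b : ℤ) (𝔮 : ℤ → HeightOneSpectrum (𝓞 L)) (Z A : Finset ℤ)
    (δ : ℝ) : Prop :=
  ∀ α : L, InSelB W a b Z θ α → ¬ IsSquare α →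
    |((A.filter fun Q => Sq1 (𝔮 Q) α).card : ℝ) - 1 / 2 * A.card| ≤ δ * A.card

theorem CtxW.sq_psi (C : CtxW W a b θ S 𝔮) {α : L} (hα : α ≠ 0) (h : IsSquare α) :
    psi θ S 𝔮 α = 0 := by
  obtain ⟨x, rfl⟩ := h
  exact C.psi_sq (left_ne_zero_of_mul hα)

/-- Injectivity from the balance of `Sel(∅)`. -/
theorem inj_of (H : Pcs) (C : CtxW W a b θ S 𝔮) {A : Finset ℤ} (hA : A ⊆ S) (hne : A.Nonempty) {δ : ℝ}
    (hδ : δ < 1 / 2) (hb : BalancedW W θ a b 𝔮 ∅ A δ) : InjW W a b θ S 𝔮 := by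
  intro α hα h0
  by_contra hns
  have hsel : InSelB W a b ∅ θ α := by
    rw [← mem_WZ H C (Finset.empty_subset _) hα, h0]
    exact Submodule.zero_mem _
  have h1 := hb α hsel hns
  have h2 : A.filter (fun Q => Sq1 (𝔮 Q) α) = A := by
    rw [Finset.filter_eq_self]
    intro Q hQ
    have h3 := (psi_snd (θ := θ) (𝔮 := 𝔮) (α := α) (⟨Q, hA hQ⟩ : S)).1 (by rw [h0]; rfl)
    have h4 := (psi_fst (θ := θ) (𝔮 := 𝔮) (α := α) (⟨Q, hA hQ⟩ : S)).1 (by rw [h0]; rfl)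
    exact h3.1 h4
  rw [h2] at h1
  have h3 : (0 : ℝ) < A.card := by exact_mod_cast hne.card_pos
  have h4 := le_abs_self ((A.card : ℝ) - 1 / 2 * A.card)
  nlinarith

/-- The two possibilities. -/
theorem rk_step (H : Pcs) (C : CtxW W a b θ S 𝔮) (hI : InjW W a b θ S 𝔮) {Z : Finset ℤ}
    {q : ℤ} (hq : q ∈ S) (hqZ : q ∉ Z) :
    ((∀ v ∈ WZ (VVW H C) (sub S Z), (v ⟨q, hq⟩).2 = 0) → rkW H C (insert q Z) = rkW H C Z + 1) ∧
    ((∃ v ∈ WZ (VVW H C) (sub S Z), (v ⟨q, hq⟩).2 ≠ 0) → rkW H C (insert q Z) + 1 = rkW H C Z) := by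
  have h := H.lin S (VVW H C) (VV_iso H C) (VV_rank H C hI) (sub S Z) ⟨q, hq⟩ (by rwa [mem_sub])
  unfold rkW
  have e : sub S (insert q Z) = @insert S (Finset S)
      (@Finset.instInsert S (fun x y => Classical.propDecidable (x = y))) ⟨q, hq⟩ (sub S Z) := by
    ext x
    rw [@Finset.mem_insert _ (fun x y => Classical.propDecidable (x = y)), mem_sub, mem_sub,
      Finset.mem_insert]
    exact or_congr_left ⟨fun h => Subtype.ext h, fun h => congrArg Subtype.val h⟩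
  rw [e]
  exact h

/-- **The proportion of the primes at which the rank grows.** -/
theorem up_count (H : Pcs) (C : CtxW W a b θ S 𝔮) (hI : InjW W a b θ S 𝔮)
    {Z A : Finset ℤ} (hZ : Z ⊆ S) (hA : A ⊆ S) (hdis : Disjoint Z A) {δ : ℝ} (hδ : 0 ≤ δ)
    (hb : BalancedW W θ a b 𝔮 Z A δ) :
    (∀ q ∈ A, rkW H C (insert q Z) = rkW H C Z + 1 ∨ rkW H C (insert q Z) + 1 = rkW H C Z) ∧
    |((A.filter fun q => rkW H C (insert q Z) = rkW H C Z + 1).card : ℝ) -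
      (1 / 2) ^ rkW H C Z * A.card| ≤ 2 * δ * A.card := by
  have hstep : ∀ q (hq : q ∈ A), ((∀ v ∈ WZ (VVW H C) (sub S Z), (v ⟨q, hA hq⟩).2 = 0) →
      rkW H C (insert q Z) = rkW H C Z + 1) ∧
      ((∃ v ∈ WZ (VVW H C) (sub S Z), (v ⟨q, hA hq⟩).2 ≠ 0) →
        rkW H C (insert q Z) + 1 = rkW H C Z) :=
    fun q hq => rk_step H C hI (hA hq) fun h => Finset.disjoint_left.1 hdis h hq
  constructor
  · intro q hq
    by_cases h : ∀ v ∈ WZ (VVW H C) (sub S Z), (v ⟨q, hA hq⟩).2 = 0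
    · exact Or.inl ((hstep q hq).1 h)
    · push Not at h
      exact Or.inr ((hstep q hq).2 h)
  · letI : Fintype (WZ (VVW H C) (sub S Z)) := Fintype.ofFinite _
    have hcard : (Fintype.card (WZ (VVW H C) (sub S Z)) : ℝ) = 2 ^ rkW H C Z := by
      rw [← Nat.card_eq_fintype_card, card_sub]
      push_cast
      rfl
    obtain ⟨l, hl⟩ : ∃ l : ℤ → WZ (VVW H C) (sub S Z) → ZMod 2, ∀ q, l q = fun v =>
        if hq : q ∈ S then (v.1 ⟨q, hq⟩).2 else 0 := ⟨_, fun q => rfl⟩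
    have hlS : ∀ q (hq : q ∈ S) v, l q v = ((v : S → ZMod 2 × ZMod 2) ⟨q, hq⟩).2 := by
      intro q hq v
      rw [hl]
      simp only [dif_pos hq]
    have h := Pool.Agent.Helper29L.char_count (W := WZ (VVW H C) (sub S Z)) A l (by
        intro q v w
        by_cases hq : q ∈ S
        · rw [hlS q hq, hlS q hq, hlS q hq]
          rfl
        · rw [hl]
          simp only [dif_neg hq, add_zero]) (by
        intro q
        by_cases hq : q ∈ S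
        · rw [hlS q hq]
          rfl
        · rw [hl]
          simp only [dif_neg hq]) hδ (by
        rintro ⟨w, hw⟩ hw0
        obtain ⟨α, hα, rfl⟩ := hw.1
        have hsel : InSelB W a b Z θ α := (mem_WZ H C hZ hα).1 hw
        have hns : ¬ IsSquare α := by
          intro hsq
          exact hw0 (Subtype.ext (C.sq_psi hα.ne hsq))
        have h1 := hb α hsel hns
        have h2 : (A.filter fun q => l q ⟨psi θ S 𝔮 α, hw⟩ = 0) =
            A.filter fun Q => Sq1 (𝔮 Q) α := by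
          refine Finset.filter_congr fun q hq => ?_
          rw [hlS q (hA hq)]
          have hev : Ev (𝔮 q) α := by
            refine (psi_fst (θ := θ) (𝔮 := 𝔮) (⟨q, hA hq⟩ : S)).1 (hw.2.1 ⟨q, hA hq⟩ ?_)
            rw [mem_sub]
            exact fun h => Finset.disjoint_left.1 hdis h hq
          show (psi θ S 𝔮 α ⟨q, hA hq⟩).2 = 0 ↔ Sq1 (𝔮 q) α
          rw [psi_snd]
          exact ⟨fun h => h.1 hev, fun h => ⟨fun _ => h, fun h2 => absurd hev h2⟩⟩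
        rw [h2]
        exact h1)
    have h2 : (A.filter fun q => rkW H C (insert q Z) = rkW H C Z + 1) =
        A.filter fun q => ∀ w, l q w = 0 := by
      refine Finset.filter_congr fun q hq => ?_
      constructor
      · intro h3
        by_contra h4
        push Not at h4
        obtain ⟨v, hv⟩ := h4
        rw [hlS q (hA hq)] at hv
        have := (hstep q hq).2 ⟨v, v.2, hv⟩
        omega
      · intro h3
        refine (hstep q hq).1 fun v hv => ?_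
        have := h3 ⟨v, hv⟩
        rwa [hlS q (hA hq)] at this
    rw [h2]
    rw [hcard] at h
    have e : (1 / 2 : ℝ) ^ rkW H C Z * (A.card : ℝ) = (A.card : ℝ) / 2 ^ rkW H C Z := by
      rw [one_div, inv_pow]
      field_simp
    rw [e]
    exact h

/-- The rank of `Sel(∅)` is at most the number of the primes in `A`. -/
theorem rk_le (H : Pcs) (C : CtxW W a b θ S 𝔮) {A : Finset ℤ} (hA : A ⊆ S) (hne : A.Nonempty) {δ : ℝ}
    (hδ : δ < 1 / 2) (hb : BalancedW W θ a b 𝔮 ∅ A δ) : rkW H C ∅ ≤ A.card := by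
  let g : WZ (VVW H C) (sub S ∅) →ₗ[ZMod 2] (A → ZMod 2) :=
    { toFun := fun v Q => ((v : S → ZMod 2 × ZMod 2) ⟨Q, hA Q.2⟩).2
      map_add' := fun v w => rfl
      map_smul' := fun c v => rfl }
  have hg : Function.Injective g := by
    rw [← LinearMap.ker_eq_bot, LinearMap.ker_eq_bot']
    rintro ⟨w, hw⟩ hw0
    obtain ⟨α, hα, rfl⟩ := hw.1
    have hsel : InSelB W a b ∅ θ α := (mem_WZ H C (Finset.empty_subset _) hα).1 hw
    by_cases hsq : IsSquare α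
    · exact Subtype.ext (C.sq_psi hα.ne hsq)
    · exfalso
      have h1 := hb α hsel hsq
      have h2 : A.filter (fun Q => Sq1 (𝔮 Q) α) = A := by
        rw [Finset.filter_eq_self]
        intro Q hQ
        have h3 : (psi θ S 𝔮 α ⟨Q, hA hQ⟩).2 = 0 := congrFun hw0 ⟨Q, hQ⟩
        have h4 : (psi θ S 𝔮 α ⟨Q, hA hQ⟩).1 = 0 := hw.2.1 ⟨Q, hA hQ⟩ (by rw [mem_sub]; simp)
        exact ((psi_snd (⟨Q, hA hQ⟩ : S)).1 h3).1 ((psi_fst (θ := θ) (⟨Q, hA hQ⟩ : S)).1 h4)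
      rw [h2] at h1
      have h3 : (0 : ℝ) < A.card := by exact_mod_cast hne.card_pos
      have h4 := le_abs_self ((A.card : ℝ) - 1 / 2 * A.card)
      nlinarith
  have h1 := LinearMap.finrank_le_finrank_of_injective hg
  rw [Module.finrank_fintype_fun_eq_card, Fintype.card_coe] at h1
  exact h1

end grp

end Pool.Agent.H29B
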