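import Pool.Agent.H29A.Stm
import Pool.Agent.Helper29L.LOW9
import Pool.Agent.H30GR.Low1
import Pool.Agent.H30GR.Up

/-!
# Project ALL, part 2 (helper29): almost ALL elliptic curves over `ℚ`, of both signs of the discriminant

The same as project ALL (`Pool/Agent/H29A/Stm.lean`) with `dsc a b ≠ 0` in place of `0 < dsc a b`. If `dsc a b < 0` then
the cubic has three real zeros and there is a local condition at the real place: the class is positive at the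
smallest real conjugate of `θ` (`PosAt`; for one real conjugate this follows from the square norm). All twists
are by positive `d`. File `Pool/Agent/H29B/<PIECE>.lean`, theorem `t_<PIECE> : S_<PIECE>`, namespace `Pool.Agent.H29B`.
-/

set_option autoImplicit false
set_option linter.all false

open IsDedekindDomain NumberField Filter
open scoped Classical Matrix

namespace Pool.Agent.H29B

open Pool.Agent.N922.PQ
open Pool.Agent.TH115.GD (Sep Comp IsCoc LocTriv Pt act rs cub)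
open Pool.Agent.Helper29L (Gp PBad InB PD NBas NN cubD UnbSet FewSet)
open Pool.Agent.Helper29L.SZ (VV)
open Pool.Agent.Helper29K (SE Pr8 zS Bx)
open Pool.Agent.Y710.CV (Cond)
open Pool.Agent.R425.G (ng IV CF Tq)
open Pool.Agent.N874.PP (Tup chA chB gq tau Two Ev Sq1 U0 sW IsBeta Rt)
open Pool.Agent.H30EV (curve Coch ShaCocycle cob)
open Pool.Agent.H30GR (Sel2)
open Pool.Agent.Y702.G (sh base)
open Pool.Agent.H29A

/-- The pairs `(a, b)` which we consider. -/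
structure GB (W : ℕ) (a b : ℤ) : Prop where
  ne : dsc a b ≠ 0
  irr : ∀ z : ℤ, z ^ 3 + a * z + b ≠ 0
  pow : ∀ q k : ℕ, q.Prime → 2 ≤ k → (q : ℤ) ^ k ∣ dsc a b → q ^ k ∣ W

section grp

variable {L : Type} [Field L] [NumberField L]

/-- The condition at the real place: `α` is positive at the smallest real conjugate of `θ`. -/
def PosAt (θ α : L) : Prop := ∀ φ : L →+* ℝ, (∀ ψ : L →+* ℝ, φ θ ≤ ψ θ) → 0 < φ α

/-- The classes which are relaxed at the primes `Q ∈ S`, with the real condition. -/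
structure InRelB (W : ℕ) (a b : ℤ) (S : Finset ℤ) (θ α : L) : Prop extends InRelW W a b S θ α where
  real : PosAt θ α

/-- The Selmer classes of the twist by `∏ Q ∈ Z, Q`, with the real condition. -/
structure InSelB (W : ℕ) (a b : ℤ) (Z : Finset ℤ) (θ α : L) : Prop extends InSelW W a b Z θ α where
  real : PosAt θ α

end grp

/-! ### The real place (new) -/

/-- Piece ZSB. `exists_zs` (`Pool/Agent/H30GR/Low1.lean`) with the additional conclusion `PosAt θ (z i)`. Proof. If `A` has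
exactly one real embedding, the conclusion follows from the norm (a positive square: the norm of `z` is
`φ z` times a positive number). If not, `A` is totally real (three different real embeddings `φ₀, φ₁, φ₂`, `φ₀ θ` the smallest), so
`Units.rank A = 2`. Add to the intersection `I` in the proof one more subgroup, of index at most two: `C_∞`, the
`y` with `0 < φ₁ y * φ₂ y`. The element `z = y * N(y)` has `φ₀ z = (φ₀ y) ^ 2 * φ₁ y * φ₂ y > 0`. The additional factor `2` is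
compensated by `Units.rank A = 2` in place of `rank_cubic : 1 ≤ Units.rank A`. Everything else does not change. -/
def S_ZSB : Prop := ∀ (V : WeierstrassCurve ℚ) (A : Type) [Field A] [NumberField A] (θ : A),
  CF V A θ → IV V → ∀ D0 : ℤ, D0 ≠ 0 → ∀ R : Finset ℕ,
  (∀ l ∈ R, l.Prime ∧ ¬ (l : ℤ) ∣ D0) → (∀ l ∈ R, 1 ≤ (Tq A l).ncard) →
  D0 * ((∏ l ∈ R, l : ℕ) : ℤ) ≠ 0 →
  ∃ (n : ℕ) (z : Fin n → Aˣ), 2 ^ (∑ l ∈ R, ((Tq A l).ncard - 1)) ≤ n ∧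
    (∀ i, (∃ r : ℚ, r ≠ 0 ∧ Algebra.norm ℚ (z i : A) = r ^ 2) ∧
    (∀ u : HeightOneSpectrum (𝓞 A), ((D0 * ((∏ l ∈ R, l : ℕ) : ℤ) : ℤ) : 𝓞 A) ∉ u.asIdeal →
      u.valuation A (z i : A) = 1) ∧
    (∀ p : HeightOneSpectrum (𝓞 ℚ), (ng p : ℤ) ∣ D0 →
      Cond (p.adicCompletion ℚ) (AlgebraicClosure (p.adicCompletion ℚ)) V θ (z i : A)) ∧
    PosAt θ (z i : A)) ∧
    (∀ i j, (∃ s : A, (z i : A) * (z j : A) = s ^ 2) → i = j)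

/-- Piece CRB. From the real condition to the local condition over `ℝ`. `0 < dsc a b`: `cond_real` (see `LOW9`). If
`dsc a b < 0`, let `θ₀ < θ₁ < θ₂` be the real zeros; the signs of `z` are `(+, +, +)` (then `cond1` with the square
roots) or `(+, -, -)` (the norm is a square): then `cond2` with a point `(x, y)`, `y ≠ 0`, `x` between the
smallest and the second zero. -/
def S_CRB : Prop := ∀ (L : Type) [Field L] [NumberField L] (a b : ℤ) (θ : L), IsCub a b θ →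
  dsc a b ≠ 0 → ∀ d : ℤ, 0 < d → ∀ z : L, z ≠ 0 → IsSquare (Algebra.norm ℚ z) → PosAt θ z →
  Cond ℝ (AlgebraicClosure ℝ) (sh (Pool.Agent.Helper29L.LOW.Wt a b d)) (4 * d * θ) z

/-- Piece LOWR. `low_aux'` (`Helper29L/LOW9.lean`) with the hypothesis `hcondR` in place of `W.Δ < 0` (in the proof of
`exists_classes'` the negative discriminant is used only for `hcondI`, and as `W.Δ ≠ 0`). -/
def S_LOWR : Prop := ∀ (K : Type) [Field K] [NumberField K] [IsGalois ℚ K] (W : WeierstrassCurve ℤ),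
  W.Δ ≠ 0 → (∀ x : K, cub (sh W) x ≠ 0) → ∀ (A : Type) [Field A] [NumberField A] (θ : A),
  CF (sh W) A θ → ∀ (n : ℕ) (z : Fin n → A), (∀ i, z i ≠ 0) →
  (∀ i, IsSquare (Algebra.norm ℚ (z i))) → (∀ i j, IsSquare (z i * z j) → i = j) →
  (∀ (i : Fin n) (v : HeightOneSpectrum (𝓞 K)),
    Cond (v.adicCompletion K) (AlgebraicClosure (v.adicCompletion K)) (sh W) θ (z i)) →
  (∀ i : Fin n, Cond ℝ (AlgebraicClosure ℝ) (sh W) θ (z i)) →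
  ∃ c : Fin n → Coch (base W K),
    (∀ i, ShaCocycle (base W K) (c i) ∧ ∀ σ, 2 • c i σ = 0) ∧
    (∀ i j, (∃ Q, 2 • Q = 0 ∧ c i - c j = cob Q) → i = j)

/-- Piece GLR. The real condition for a Selmer cocycle. By `S_GLF` (`N874/QM/Stm`, proved, see piece GLC) with `F = ℝ` and
`S_FARR` (same file, proved, `Pool.Agent.N530.QM`, or find it by grep) we have `PLoc ℝ A B h`. Let `φ` be an embedding with
`φ θ` smallest. Either `h = g ^ 2` modulo the cubic, so `φ (h(θ)) = g(φ θ) ^ 2`; or `(x - X) h = g ^ 2` with a real point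
`(x, y)`, `y ≠ 0`: then `x` is larger than the smallest real zero `φ θ` of the cubic (it is negative below), and
`(x - φ θ) * φ (h(θ)) = g(φ θ) ^ 2`. -/
def S_GLR : Prop := ∀ (A B : ℤ), 4 * A ^ 3 + 27 * B ^ 2 ≠ 0 →
  ∀ f : (Sep ℚ ≃ₐ[ℚ] Sep ℚ) → Pt (sW (A : ℚ) (B : ℚ)) (Sep ℚ), IsCoc (sW (A : ℚ) (B : ℚ)) f →
  (∀ σ, (2 : ℕ) • f σ = 0) → ∀ (β : Sep ℚ → Sep ℚ) (h : Polynomial ℚ), IsBeta (A : ℚ) (B : ℚ) f β →
    (∀ t : Sep ℚ, Rt (A : ℚ) (B : ℚ) t → Polynomial.aeval t h = β t ^ 2) →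
    LocTriv (sW (A : ℚ) (B : ℚ)) ℝ (Sep ℝ) f →
    ∀ (L : Type) [Field L] [NumberField L] (θ : L), IsCub A B θ → Polynomial.aeval θ h ≠ 0 →
      PosAt θ (Polynomial.aeval θ h)

/-- The 2-Selmer group over `ℚ` has at most `N` elements (compare `SelBd` in `H30GR/SelC.lean`; here with the real
place). -/
def SelBdR (W : WeierstrassCurve ℚ) (N : ℕ) : Prop :=
  ∀ (m : ℕ) (z : Fin m → (Sep ℚ ≃ₐ[ℚ] Sep ℚ) → Pt W (Sep ℚ)), (∀ i, IsCoc W (z i)) →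
    (∀ i σ, (2 : ℕ) • z i σ = 0) →
    (∀ i, ∀ v : HeightOneSpectrum (𝓞 ℚ), LocTriv W (Comp (𝓞 ℚ) ℚ v) (Sep (Comp (𝓞 ℚ) ℚ v)) (z i)) →
    (∀ i, LocTriv W ℝ (Sep ℝ) (z i)) →
    (∀ i j, (∃ T : Pt W (Sep ℚ), (2 : ℕ) • T = 0 ∧
      ∀ σ, z i σ - z j σ = act W (rs ℚ σ) T - T) → i = j) → m ≤ N

/-- Piece SELR. `sel_fin` (`H30GR/Up.lean`, `loc_of`) with the real place (`ShaCocycle.real` for the unique `ρ : ℚ →+* ℝ`; the
two structures of an algebra on `ℝ` over `ℚ` are equal). -/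
def S_SELR : Prop := ∀ (q : ℤ × ℤ) (N : ℕ), SelBdR (sW (q.1 : ℚ) (q.2 : ℚ)) N →
  Finite (Sel2 (curve ℚ q)) ∧ Nat.card (Sel2 (curve ℚ q)) ≤ N

/-- Piece DIAGB. `S_DIAGW` with the real condition in place of `0 < dsc a b`: the form `c₂(x ^ 2 / α)` is
`∑ x_i ^ 2 / (α_i f'(θ_i))` over `ℝ`; for three real zeros `f'(θ_i)` has the signs `+, -, +` and `α` the signs `+, +, +` or
`+, -, -`, so the form is indefinite. (Reuse the parts of `H29A/DIAGW.lean` which do not use the hypothesis.) -/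
def S_DIAGB : Prop := ∀ (L : Type) [Field L] [NumberField L] (a b : ℤ) (θ : L) (h : IsCub a b θ),
  dsc a b ≠ 0 → ∀ α : L, α ≠ 0 → IsSquare (Algebra.norm ℚ α) → PosAt θ α →
  ∃ d e : ℤ, d ≠ 0 ∧ e ≠ 0 ∧ Spl (d : ℝ) (e : ℝ) ∧
    (∀ (p : ℕ) [Fact p.Prime], IsoAt h p α ↔ Spl (d : ℚ_[p]) (e : ℚ_[p])) ∧
    (Spl (d : ℚ) (e : ℚ) → ∃ x : L, x ≠ 0 ∧ h.co 2 (x * x / α) = 0)

/-! ### Copies of the pieces of project ALL with `GB` in place of `GW` (the same proofs) -/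

/-- Piece INB (copy of `H29A/INW.lean`). -/
def S_INB : Prop := ∀ (W : ℕ), OKW W → ∀ (L : Type) [Field L] [NumberField L] (a b : ℤ) (θ : L),
  IsCub a b θ → GB W a b → ∀ x : L, IsIntegral ℤ x → ∃ v : Fin 3 → ℤ, Crd θ v ((W : L) * x)

/-- Piece RECB (copy of `H29A/RECW.lean`). `t_RECB (hD : S_DIAGB) (hI : S_ISOW) (hU : S_UNW) (hR : S_RAW) (hE : S_EXW) :
S_RECB`. -/
def S_RECB : Prop := ∀ (W : ℕ), OKW W → ∀ (L : Type) [Field L] [NumberField L] (a b : ℤ) (θ : L)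
  (S : Finset ℤ), IsCub a b θ → GB W a b → (∀ Q ∈ S, GpW W a b Q) →
  ∀ 𝔮 : ℤ → HeightOneSpectrum (𝓞 L), (∀ Q ∈ S, Ov Q (𝔮 Q) ∧ (𝔮 Q).valuation L θ = 1) →
  ∀ α : L, InRelB W a b S θ α →
    Even (S.filter fun Q => ¬ Ev (𝔮 Q) α ∧ ¬ Sq1 (𝔮 Q) (α * ((Q : L) * θ))).card

/-- Piece ISQB (copy of `H29A/ISQ.lean`). `t_ISQB (hD : S_DIAGB) (hI : S_ISOW) (hU : S_UNW) (hR : S_RAW) (hE : S_EXW) :
S_ISQB`. -/
def S_ISQB : Prop := ∀ (W : ℕ), OKW W → ∀ (L : Type) [Field L] [NumberField L] (a b : ℤ) (θ : L)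
  (h : IsCub a b θ) (Z : Finset ℤ), GB W a b → (∀ Q ∈ Z, GpW W a b Q) →
  ∀ α : L, InSelB W a b Z θ α → ∃ x : L, x ≠ 0 ∧ h.co 2 (x * x / α) = 0

/-- Piece SIZEB (copy of `H29A/SIZEW.lean` with ZSB in place of `exists_zs`).
`t_SIZEB (hZ : S_ZSB) (hN : S_NSW) (hE : S_EXW) : S_SIZEB`. -/
def S_SIZEB : Prop := ∀ (W : ℕ), OKW W → ∀ (L : Type) [Field L] [NumberField L] (a b : ℤ) (θ : L)
  (S : Finset ℤ), IsCub a b θ → GB W a b → (∀ Q ∈ S, GpW W a b Q) →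
  ∃ z : Fin (2 ^ S.card) → L, (∀ i, InRelB W a b S θ (z i)) ∧ ∀ i j, i ≠ j → ¬ IsSquare (z i * z j)

/-- Piece SLOWB (copy of `H29A/SLOWW.lean`, with LOWR in place of `low_aux'`).
`t_SLOWB (hC : S_CRB) (hL : S_LOWR) (hT : S_TWC) (hS : S_SQV) (hR : S_RAMC) : S_SLOWB`. -/
def S_SLOWB : Prop := ∀ (W : ℕ), OKW W → ∀ (L : Type) [Field L] [NumberField L] (a b : ℤ) (θ : L)
  (Z : Finset ℤ) (d : ℤ), IsCub a b θ → GB W a b → (∀ Q ∈ Z, GpW W a b Q) → d = ∏ Q ∈ Z, Q →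
  ∀ (n : ℕ) (z : Fin n → L), (∀ i, InSelB W a b Z θ (z i)) →
  (∀ i j, i ≠ j → ¬ IsSquare (z i * z j)) →
  ∃ c : Fin n → Coch (curve ℚ (a * d ^ 2, b * d ^ 3)),
    (∀ i, ShaCocycle (curve ℚ (a * d ^ 2, b * d ^ 3)) (c i) ∧ ∀ σ, 2 • c i σ = 0) ∧
    (∀ i j, (∃ Q, 2 • Q = 0 ∧ c i - c j = cob Q) → i = j)

/-- Piece EVB (copy of `H29A/EVC.lean`). -/
def S_EVB : Prop := ∀ (W : ℕ), OKW W → ∀ (L : Type) [Field L] [NumberField L] (a b : ℤ) (θ : L)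
  (Z : Finset ℤ) (d : ℤ), IsCub a b θ → GB W a b → (∀ Q ∈ Z, GpW W a b Q) → d = ∏ Q ∈ Z, Q →
  ∀ f : (Sep ℚ ≃ₐ[ℚ] Sep ℚ) → Pt (sW (((a * d ^ 2 : ℤ)) : ℚ) (((b * d ^ 3 : ℤ)) : ℚ)) (Sep ℚ),
  IsCoc (sW (((a * d ^ 2 : ℤ)) : ℚ) (((b * d ^ 3 : ℤ)) : ℚ)) f → (∀ σ, (2 : ℕ) • f σ = 0) →
  (∀ v : HeightOneSpectrum (𝓞 ℚ), LocTriv (sW (((a * d ^ 2 : ℤ)) : ℚ) (((b * d ^ 3 : ℤ)) : ℚ))
    (Comp (𝓞 ℚ) ℚ v) (Sep (Comp (𝓞 ℚ) ℚ v)) f) →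
  ∀ (β : Sep ℚ → Sep ℚ) (h : Polynomial ℚ),
    IsBeta (((a * d ^ 2 : ℤ)) : ℚ) (((b * d ^ 3 : ℤ)) : ℚ) f β →
    (∀ t : Sep ℚ, Rt (((a * d ^ 2 : ℤ)) : ℚ) (((b * d ^ 3 : ℤ)) : ℚ) t →
      Polynomial.aeval t h = β t ^ 2) →
  Polynomial.aeval ((d : L) * θ) h ≠ 0 ∧ IsSquare (Algebra.norm ℚ (Polynomial.aeval ((d : L) * θ) h)) ∧
  (∀ 𝔓 : HeightOneSpectrum (𝓞 L), (W : 𝓞 L) ∉ 𝔓.asIdeal →
    (∀ Q ∈ Z, ¬ (Ov Q 𝔓 ∧ 𝔓.valuation L θ = 1)) → Ev 𝔓 (Polynomial.aeval ((d : L) * θ) h)) ∧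
  ∀ Q ∈ Z, ∀ 𝔓 : HeightOneSpectrum (𝓞 L), Ov Q 𝔓 → 𝔓.valuation L θ = 1 →
    U0 𝔓 ((Q : L) * θ) (Polynomial.aeval ((d : L) * θ) h)

/-- Piece SUPB (copy of `H29A/SUPW.lean`, with the real place by GLR; `d > 0`).
`t_SUPB (hG : S_GLC) (hR : S_GLR) (hT : S_TWC) (hS : S_SQV) (hE : S_EVB) : S_SUPB`. -/
def S_SUPB : Prop := ∀ (W : ℕ), OKW W → ∀ (L : Type) [Field L] [NumberField L] (a b : ℤ) (θ : L)
  (Z : Finset ℤ) (d : ℤ), IsCub a b θ → GB W a b → (∀ Q ∈ Z, GpW W a b Q) → d = ∏ Q ∈ Z, Q →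
  ∀ N : ℕ, (∀ (n : ℕ) (z : Fin n → L), (∀ i, InSelB W a b Z θ (z i)) →
    (∀ i j, i ≠ j → ¬ IsSquare (z i * z j)) → n ≤ N) →
  SelBdR (sW (((a * d ^ 2 : ℤ)) : ℚ) (((b * d ^ 3 : ℤ)) : ℚ)) N

/-- Piece LATB (copy of `H29A/LATW.lean`). `t_LATB (hI : S_INL) (hW : S_INB) (hE : S_EXW) (hN : S_NSW) : S_LATB`. -/
def S_LATB : Prop := ∀ (W : ℕ), OKW W → ∀ (L : Type) [Field L] [NumberField L] (a b : ℤ) (θ : L)
  (h : IsCub a b θ) (Z : Finset ℤ) (D : ℤ) (hD0 : D ≠ 0), GB W a b → (∀ Q ∈ Z, GpW W a b Q) →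
  D = ∏ Q ∈ Z, Q → ∀ α : L, InSelW W a b Z θ α →
  (∀ Q ∈ Z, ∀ 𝔓 : HeightOneSpectrum (𝓞 L), Ov Q 𝔓 → 𝔓.valuation L θ = 1 → ¬ Ev 𝔓 α) →
    ∃ (e : Fin 3 → L) (G B : Matrix (Fin 3) (Fin 3) ℤ) (n : ℕ), LinearIndependent ℚ e ∧
      (∀ i, InB α (e i)) ∧ (∀ y, InB α y → ∃ c : Fin 3 → ℤ, (D : L) * y = ∑ i, (c i : L) * e i) ∧
      0 < n ∧ n ≤ W ^ 5 ∧ G.det = -(n : ℤ) ^ 2 ∧
      (∀ i j, (G i j : ℚ) = (W : ℚ) ^ 2 * (cubD h hD0).co 2 (e i * e j / α)) ∧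
      ∀ i j, (B i j : ℚ) = (W : ℚ) ^ 2 * (cubD h hD0).co 1 (e i * e j / α)

/-- Piece PLBB (copy of `H29A/PLBW.lean`). `t_PLBB (hQ : S_ISQB) (hM : S_MAJW) (hR : S_REDW) (hN : S_NFW) (hL : S_LATB)
(hT : S_TTW) (hS : S_NSW) (hE : S_EXW) : S_PLBB`. -/
def S_PLBB : Prop := ∀ (W : ℕ), OKW W → ∃ κ M₀ N₁ : ℕ, 0 < M₀ ∧ ∀ (L : Type) [Field L] [NumberField L]
  (a b : ℤ) (θ : L) (X : ℕ) (Z S E : Finset ℤ) (D : ℕ), IsCub a b θ → |a| ≤ X ^ 2 → |b| ≤ X ^ 3 →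
  GB W a b → (∀ Q ∈ Z ∪ S, GpW W a b Q) → (∀ Q ∈ S, (N₁ : ℤ) < Q) → Disjoint Z S →
  ((D : ℕ) : ℤ) = ∏ Q ∈ Z, Q → ∀ α : L, InSelB W a b Z θ α → ¬ IsSquare α →
  (∀ Q ∈ Z, ∀ 𝔓 : HeightOneSpectrum (𝓞 L), Ov Q 𝔓 → 𝔓.valuation L θ = 1 → ¬ Ev 𝔓 α) →
  (∀ Q ∈ S, ∀ 𝔓 : HeightOneSpectrum (𝓞 L), Ov Q 𝔓 → 𝔓.valuation L θ = 1 →
    (Sq1 𝔓 α ↔ Q ∉ E)) →
  PBad κ (M₀ * D * X) S E (fun _ => a * (M₀ * D) ^ 2) (a * (M₀ * D) ^ 2) (b * (M₀ * D) ^ 3)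

/-- Piece TAILB (copy of `H29A/TAIL.lean`; the proof does not use the sign). -/
def S_TAILB : Prop := ∀ ε : ℝ, 0 < ε → ∃ W : ℕ, OKW W ∧ ∀ᶠ X : ℕ in atTop,
  (((BxA X).filter fun p => dsc p.1 p.2 ≠ 0 ∧ ¬ GB W p.1 p.2).card : ℝ) ≤ ε * (X : ℝ) ^ 5

end Pool.Agent.H29B
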