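import Pool.Agent.H29B.Stm
import Pool.Agent.H29A.TAIL

/-!
# Project ALL, part 2, piece TAILB
-/

set_option autoImplicit false
set_option linter.all false

open IsDedekindDomain NumberField Filter
open scoped Classical Matrix

namespace Pool.Agent.H29B

open Pool.Agent.N922.PQ
open Pool.Agent.H29A
open Pool.Agent.H29A.Tail (tail_gen Good)

theorem t_TAILB : S_TAILB := by
  intro ε hε
  obtain ⟨W, hW, h⟩ := tail_gen ε hε
  refine ⟨W, hW, h.mono fun X hX => le_trans ?_ hX⟩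
  have h1 : ((BxA X).filter fun p => dsc p.1 p.2 ≠ 0 ∧ ¬ GB W p.1 p.2) ⊆
      (BxA X).filter fun p => dsc p.1 p.2 ≠ 0 ∧ ¬ Good W p.1 p.2 := by
    intro p hp
    rw [Finset.mem_filter] at hp ⊢
    exact ⟨hp.1, hp.2.1, fun hg => hp.2.2 ⟨hp.2.1, hg.1, hg.2⟩⟩
  exact_mod_cast Finset.card_le_card h1

end Pool.Agent.H29B
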