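import Pool.Agent.H29B.Det
import Pool.Agent.H29A.Thm

/-!
# Project ALL, part 2: almost all curves (as `H29A/Thm.lean`)
-/

set_option autoImplicit false
set_option linter.all false

open IsDedekindDomain NumberField Finset Filter
open scoped Classical

namespace Pool.Agent.H29B

open Pool.Agent.H29A (GpW OKW PrW BxA mem_BxA FewA TypW tw box_of tw_inj lev S_MOMW S_PRW S_DEN)

open Pool.Agent.H30EV (curve twist)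
open Pool.Agent.H30GR (Sel2)
open Pool.Agent.Helper29L (Gp PBad WZ S_LIN2 UnbSet FewSet Rk lv lv_sub StepOK SelDim hgt S_TV2 TV2k
  NiceP niceP_of fin_hgt)
open Pool.Agent.Helper29K (SE Pr8 zS NR mem_zS card_zS prod_zS)

/-- **One curve.** -/
theorem rk_of (H : Pcs) {W κ M₀ N : ℕ} (hW : OKW W) (hκ : Cst W κ M₀ N)
    {δ : ℝ} {k : ℕ} (hδ : 0 < δ) {p : ℤ × ℤ} (hF : GB W p.1 p.2) {X : ℕ} (hX : p ∈ BxA X)
    {𝒬₀ : Finset ℕ} (h8₀ : PrW W N 𝒬₀) {m₀ : ℕ} (hm₀ : 1 ≤ m₀)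
    (hf₀ : p ∉ FewA 𝒬₀ m₀ X)
    (hu₀ : ∀ Z ⊆ (∅ : Finset ℕ), tw M₀ Z p ∉ UnbSet κ (M₀ * (∏ Q ∈ Z, Q) * X) 𝒬₀ (1 / 8) m₀)
    {𝒬 : ℕ → Finset ℕ} {m : ℕ → ℕ}
    (h𝒬 : ∀ i < k + 1, PrW W N (𝒬 i) ∧ Disjoint 𝒬₀ (𝒬 i) ∧ 1 ≤ m i)
    (hdis : ∀ i < k + 1, ∀ j < i, Disjoint (𝒬 j) (𝒬 i))
    (hf : ∀ i < k + 1, p ∉ FewA (𝒬 i) (m i) X)
    (hu : ∀ i < k + 1, ∀ Z ⊆ (range i).biUnion 𝒬,
      tw M₀ Z p ∉ UnbSet κ (M₀ * (∏ Q ∈ Z, Q) * X) (𝒬 i) δ (m i)) :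
    Rk 𝒬₀.card k δ 𝒬 p := by
  have hm : ∀ i < k + 1, m i ≤ (lv 𝒬 p i).card := by
    intro i hi
    by_contra hcon
    exact hf i hi ⟨hX, not_le.1 hcon⟩
  have hne : ∀ i < k + 1, (lv 𝒬 p i).Nonempty := fun i hi =>
    Finset.card_pos.1 ((h𝒬 i hi).2.2.trans (hm i hi))
  have hm0 : m₀ ≤ (SE 𝒬₀ p.1 p.2).card := by
    by_contra hcon
    exact hf₀ ⟨hX, not_le.1 hcon⟩
  obtain ⟨S, hS⟩ : ∃ S : Finset ℕ, S = SE 𝒬₀ p.1 p.2 ∪ (range (k + 1)).biUnion (lv 𝒬 p) := ⟨_, rfl⟩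
  have h0S : SE 𝒬₀ p.1 p.2 ⊆ S := by rw [hS]; exact Finset.subset_union_left
  have hWS : (range (k + 1)).biUnion (lv 𝒬 p) ⊆ S := by rw [hS]; exact Finset.subset_union_right
  have hiS : ∀ i < k + 1, lv 𝒬 p i ⊆ S := fun i hi =>
    (Finset.subset_biUnion_of_mem (lv 𝒬 p) (Finset.mem_range.2 hi)).trans hWS
  have hiW : ∀ i ≤ k + 1, (range i).biUnion (lv 𝒬 p) ⊆ S := fun i hi =>
    (Finset.biUnion_subset_biUnion_of_subset_left _ (Finset.range_mono hi)).trans hWS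
  have hPr : PrW W N S := by
    refine ⟨?_, ?_⟩
    · intro Q hQ
      rw [hS] at hQ
      rcases Finset.mem_union.1 hQ with h | h
      · exact h8₀.1 Q (Finset.mem_filter.1 h).1
      · obtain ⟨i, hi, h⟩ := Finset.mem_biUnion.1 h
        exact (h𝒬 i (Finset.mem_range.1 hi)).1.1 Q (Finset.mem_filter.1 h).1
    · intro Q hQ
      rw [hS] at hQ
      rcases Finset.mem_union.1 hQ with h | h
      · exact h8₀.2 Q (Finset.mem_filter.1 h).1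
      · obtain ⟨i, hi, h⟩ := Finset.mem_biUnion.1 h
        exact (h𝒬 i (Finset.mem_range.1 hi)).1.2 Q (Finset.mem_filter.1 h).1
  have hTyp : TypW W N p S := by
    refine ⟨hPr, ?_⟩
    intro Q hQ
    rw [hS] at hQ
    rcases Finset.mem_union.1 hQ with h | h
    · exact (Finset.mem_filter.1 h).2
    · obtain ⟨i, hi, h⟩ := Finset.mem_biUnion.1 h
      exact (Finset.mem_filter.1 h).2
  have hb₀ : BalN W p S ∅ (SE 𝒬₀ p.1 p.2) (1 / 8) :=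
    balN_of hκ hX h8₀ (fun Q hQ => absurd hQ (Finset.notMem_empty _))
      (Finset.disjoint_empty_left _) (Finset.empty_subset _) h0S hm0 hu₀
  obtain ⟨r, hr1, hr2, hr3⟩ := ranks H hW hF hTyp h0S
    (Finset.card_pos.1 (hm₀.trans hm0)) (by norm_num) hb₀
  have hWsub : ∀ i, (range i).biUnion (lv 𝒬 p) ⊆ (range i).biUnion 𝒬 := fun i =>
    Finset.biUnion_mono fun j _ => lv_sub 𝒬 p j
  have hdisW : ∀ i < k + 1, Disjoint ((range i).biUnion 𝒬) (𝒬 i) := by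
    intro i hi
    rw [Finset.disjoint_biUnion_left]
    exact fun j hj => hdis i hi j (Finset.mem_range.1 hj)
  have hstep : ∀ i < k + 1, StepOK r δ ((range i).biUnion (lv 𝒬 p)) (lv 𝒬 p i) := by
    intro i hi Z hZ
    have hZ𝒬 : Z ⊆ (range i).biUnion 𝒬 := hZ.trans (hWsub i)
    have hd : Disjoint Z (𝒬 i) := Finset.disjoint_of_subset_left hZ𝒬 (hdisW i hi)
    refine hr3 Z (lv 𝒬 p i) (hZ.trans (hiW i hi.le)) (hiS i hi)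
      (Finset.disjoint_of_subset_right (lv_sub 𝒬 p i) hd) δ hδ.le ?_
    refine balN_of hκ hX (h𝒬 i hi).1 (fun Q hQ => ?_) hd (hZ.trans (hiW i hi.le)) (hiS i hi)
      (hm i hi) fun Z' hZ' => hu i hi Z' (hZ'.trans hZ𝒬)
    obtain ⟨j, hj, h⟩ := Finset.mem_biUnion.1 (hZ𝒬 hQ)
    exact ((h𝒬 j ((Finset.mem_range.1 hj).trans hi)).1.1 Q h).1
  exact ⟨hne, r, hr2.trans (Finset.card_le_card (Finset.filter_subset _ _)),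
    fun Z hZ => hr1 Z (hZ.trans (hiW (k + 1) le_rfl)), hstep⟩

/-- The pairs of height at most `T`. -/
def AllT (T : ℕ) : Set (ℤ × ℤ) := {p | Pool.Agent.N922.PQ.dsc p.1 p.2 ≠ 0 ∧ hgt p ≤ T}

/-- **Almost all curves.** -/
theorem main3 (H : Pcs) (hPL : S_PLBB) (hMO : S_MOMW) (hPR : S_PRW) (hTA : S_TAILB) (hDE : S_DEN)
    {ε : ℝ} (hε : 0 < ε) :
    ∃ R : ℕ, ∀ (k : ℕ) (δ : ℝ), 0 < δ → δ ≤ 1 / 4 → ∃ 𝒬 : ℕ → Finset ℕ, (∀ i < k + 1, Pr8 (𝒬 i)) ∧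
      (∀ i < k + 1, ∀ j < i, Disjoint (𝒬 j) (𝒬 i)) ∧ ∀ᶠ T : ℕ in atTop,
      (({p : ℤ × ℤ | p ∈ AllT T ∧ ¬ (Rk R k δ 𝒬 p ∧ ∀ z : ℤ, z ^ 3 + p.1 * z + p.2 ≠ 0)}.ncard : ℕ) : ℝ) ≤
        ε * ((AllT T).ncard : ℝ) := by
  obtain ⟨ε₀, hε₀, hε₀'⟩ : ∃ ε₀ : ℝ, 0 < ε₀ ∧ 5 * ε₀ * 32 ≤ ε := ⟨ε / 160, by positivity, by linarith⟩
  obtain ⟨W, hW, hevT⟩ := hTA ε₀ hε₀
  obtain ⟨κ, M₀, N, hκ⟩ := exists_cst hPL hW
  obtain ⟨𝒬a, ma, hQa, -, heva⟩ := lev hMO hPR hW hκ.pos N κ 1 (δ := 1 / 8) (by norm_num)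
    (by norm_num) hε₀ ∅
  obtain ⟨h8₀, -, hm₀⟩ := hQa 0 one_pos
  refine ⟨(𝒬a 0).card, fun k δ hδ hδ1 => ?_⟩
  obtain ⟨𝒬, m, h𝒬, hdis, hev⟩ := lev hMO hPR hW hκ.pos N κ (k + 1) hδ hδ1
    (show 0 < ε₀ / (k + 1) by positivity) (𝒬a 0)
  refine ⟨𝒬, fun i hi => (h𝒬 i hi).1.1, hdis, ?_⟩
  have htend : Tendsto (fun T : ℕ => ⌈(T : ℝ) ^ (1 / 6 : ℝ)⌉₊) atTop atTop :=
    tendsto_nat_ceil_atTop.comp ((tendsto_rpow_atTop (by norm_num)).comp tendsto_natCast_atTop_atTop)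
  filter_upwards [htend.eventually heva, htend.eventually hev, htend.eventually hevT, hDE,
    eventually_ge_atTop 1] with T hT0 hT1 hTt hT2 hT3
  obtain ⟨X, hX⟩ : ∃ X : ℕ, X = ⌈(T : ℝ) ^ (1 / 6 : ℝ)⌉₊ := ⟨_, rfl⟩
  rw [← hX] at hT0 hT1 hTt
  obtain ⟨hfa, hua, hub⟩ := hT0 0 one_pos
  rw [Finset.range_zero, Finset.biUnion_empty] at hua hub
  rw [Finset.powerset_empty, Finset.sum_singleton] at hub
  have hXle : (T : ℝ) ^ (1 / 6 : ℝ) ≤ X := by rw [hX]; exact Nat.le_ceil _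
  have hT3' : (1 : ℝ) ≤ T := by exact_mod_cast hT3
  have hone : (1 : ℝ) ≤ (T : ℝ) ^ (1 / 6 : ℝ) := Real.one_le_rpow hT3' (by norm_num)
  have hXup : (X : ℝ) ≤ 2 * (T : ℝ) ^ (1 / 6 : ℝ) := by
    have := Nat.ceil_lt_add_one (show (0 : ℝ) ≤ (T : ℝ) ^ (1 / 6 : ℝ) by positivity)
    rw [← hX] at this
    linarith
  have hX5 : (X : ℝ) ^ 5 ≤ 32 * (T : ℝ) ^ (5 / 6 : ℝ) := by
    have h1 : ((T : ℝ) ^ (1 / 6 : ℝ)) ^ 5 = (T : ℝ) ^ (5 / 6 : ℝ) := by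
      rw [← Real.rpow_natCast, ← Real.rpow_mul (Nat.cast_nonneg _)]
      norm_num
    calc (X : ℝ) ^ 5 ≤ (2 * (T : ℝ) ^ (1 / 6 : ℝ)) ^ 5 := pow_le_pow_left₀ (Nat.cast_nonneg _) hXup 5
      _ = 32 * (T : ℝ) ^ (5 / 6 : ℝ) := by rw [mul_pow, h1]; norm_num
  have hbx : ∀ p ∈ AllT T, p ∈ BxA X := fun p hp => box_of hp.2 hXle
  -- the bad pairs
  obtain ⟨G, hG⟩ : ∃ G : ℕ → Finset ℕ → Finset (ℤ × ℤ), ∀ i Z, G i Z = (BxA X).filter fun p =>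
      tw M₀ Z p ∈ UnbSet κ (M₀ * (∏ Q ∈ Z, Q) * X) (𝒬 i) δ (m i) := ⟨_, fun _ _ => rfl⟩
  have hsub : {p : ℤ × ℤ | p ∈ AllT T ∧
        ¬ (Rk (𝒬a 0).card k δ 𝒬 p ∧ ∀ z : ℤ, z ^ 3 + p.1 * z + p.2 ≠ 0)} ⊆
      (((BxA X).filter (fun p => Pool.Agent.N922.PQ.dsc p.1 p.2 ≠ 0 ∧ ¬ GB W p.1 p.2) ∪
        ((BxA X).filter (fun p => p ∈ FewA (𝒬a 0) (ma 0) X) ∪
        ((BxA X).filter (fun p => tw M₀ ∅ p ∈ UnbSet κ (M₀ * (∏ Q ∈ (∅ : Finset ℕ), Q) * X) (𝒬a 0)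
          (1 / 8) (ma 0)) ∪
        ((range (k + 1)).biUnion (fun i => (BxA X).filter fun p => p ∈ FewA (𝒬 i) (m i) X) ∪
        (range (k + 1)).biUnion fun i => ((range i).biUnion 𝒬).powerset.biUnion fun Z => G i Z))) :
        Finset (ℤ × ℤ)) : Set (ℤ × ℤ)) := by
    rintro p ⟨hp, hn⟩
    by_contra hcon
    rw [Finset.mem_coe] at hcon
    simp only [Finset.mem_union, Finset.mem_biUnion, not_or, not_exists, not_and,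
      Finset.mem_filter, Finset.mem_powerset, Finset.mem_range] at hcon
    obtain ⟨h0, h1, h2, h3, h4⟩ := hcon
    have hpX := hbx p hp
    have hGW : GB W p.1 p.2 := not_not.1 (h0 hpX hp.1)
    refine hn ⟨rk_of H hW hκ hδ hGW hpX h8₀ hm₀ (h1 hpX) (fun Z hZ => ?_) h𝒬 hdis
      (fun i hi => h3 i hi hpX) fun i hi Z hZ hcon => h4 i hi Z hZ ?_, hGW.irr⟩
    · rw [Finset.subset_empty.1 hZ]
      exact h2 hpX
    · rw [hG]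
      exact Finset.mem_filter.2 ⟨hpX, hcon⟩
  have hc0 := Set.ncard_le_ncard hsub (Finset.finite_toSet _)
  rw [Set.ncard_coe_finset] at hc0
  have hc1 := hc0.trans ((Finset.card_union_le _ _).trans (Nat.add_le_add_left
    ((Finset.card_union_le _ _).trans (Nat.add_le_add_left
    ((Finset.card_union_le _ _).trans
      (Nat.add_le_add_left ((Finset.card_union_le _ _).trans (Nat.add_le_add Finset.card_biUnion_le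
      (Finset.card_biUnion_le.trans (Finset.sum_le_sum fun i _ => Finset.card_biUnion_le)))) _)) _)) _))
  have hFfin : ∀ (𝒬' : Finset ℕ) (m' : ℕ), (FewA 𝒬' m' X).Finite := fun 𝒬' m' =>
    (Finset.finite_toSet (BxA X)).subset fun p hp => Finset.mem_coe.2 hp.1
  have hA1 : ∀ (𝒬' : Finset ℕ) (m' : ℕ), ((BxA X).filter fun p => p ∈ FewA 𝒬' m' X).card ≤
      (FewA 𝒬' m' X).ncard := by
    intro 𝒬' m'
    rw [← Set.ncard_coe_finset]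
    refine Set.ncard_le_ncard (fun p hp => ?_) (hFfin 𝒬' m')
    exact (Finset.mem_filter.1 (Finset.mem_coe.1 hp)).2
  have hA3' : ∀ (𝒬' : Finset ℕ) (δ' : ℝ) (m' : ℕ) (Z : Finset ℕ), (∀ Q ∈ Z, 0 < Q) →
      (UnbSet κ (M₀ * (∏ Q ∈ Z, Q) * X) 𝒬' δ' m').Finite →
      ((BxA X).filter fun p => tw M₀ Z p ∈ UnbSet κ (M₀ * (∏ Q ∈ Z, Q) * X) 𝒬' δ' m').card ≤
      (UnbSet κ (M₀ * (∏ Q ∈ Z, Q) * X) 𝒬' δ' m').ncard := by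
    intro 𝒬' δ' m' Z hZ hfin
    rw [Set.ncard_eq_toFinset_card _ hfin]
    refine Finset.card_le_card_of_injOn (tw M₀ Z) ?_ ((tw_inj hκ.pos hZ).injOn)
    intro p hp
    exact hfin.mem_toFinset.2 (Finset.mem_filter.1 hp).2
  have hA3 : ∀ i < k + 1, ∀ Z ∈ ((range i).biUnion 𝒬).powerset, (G i Z).card ≤
      (UnbSet κ (M₀ * (∏ Q ∈ Z, Q) * X) (𝒬 i) δ (m i)).ncard := by
    intro i hi Z hZ
    have hZ' := Finset.mem_powerset.1 hZ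
    rw [hG]
    refine hA3' _ _ _ _ (fun Q hQ => ?_) ((hT1 i hi).2.1 Z hZ')
    obtain ⟨j, hj, h⟩ := Finset.mem_biUnion.1 (hZ' hQ)
    exact ((h𝒬 j ((Finset.mem_range.1 hj).trans hi)).1.1 Q h).1.pos
  have hc2 : (({p : ℤ × ℤ | p ∈ AllT T ∧
        ¬ (Rk (𝒬a 0).card k δ 𝒬 p ∧ ∀ z : ℤ, z ^ 3 + p.1 * z + p.2 ≠ 0)}.ncard : ℕ) : ℝ) ≤
      ε₀ * (X : ℝ) ^ 5 + (ε₀ * (X : ℝ) ^ 5 + (ε₀ * (X : ℝ) ^ 5 +
        (∑ _i ∈ range (k + 1), ε₀ / (k + 1) * (X : ℝ) ^ 5 +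
        ∑ _i ∈ range (k + 1), ε₀ / (k + 1) * (X : ℝ) ^ 5))) := by
    have hc3 : (({p : ℤ × ℤ | p ∈ AllT T ∧
        ¬ (Rk (𝒬a 0).card k δ 𝒬 p ∧ ∀ z : ℤ, z ^ 3 + p.1 * z + p.2 ≠ 0)}.ncard : ℕ) : ℝ) ≤
        (((BxA X).filter (fun p => Pool.Agent.N922.PQ.dsc p.1 p.2 ≠ 0 ∧ ¬ GB W p.1 p.2)).card : ℝ) +
        ((((BxA X).filter (fun p => p ∈ FewA (𝒬a 0) (ma 0) X)).card : ℝ) +
        ((((BxA X).filter (fun p => tw M₀ ∅ p ∈ UnbSet κ (M₀ * (∏ Q ∈ (∅ : Finset ℕ), Q) * X) (𝒬a 0)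
          (1 / 8) (ma 0))).card : ℝ) +
        (∑ i ∈ range (k + 1), (((BxA X).filter fun p => p ∈ FewA (𝒬 i) (m i) X).card : ℝ) +
        ∑ i ∈ range (k + 1), ∑ Z ∈ ((range i).biUnion 𝒬).powerset, ((G i Z).card : ℝ)))) := by
      exact_mod_cast hc1
    refine hc3.trans (add_le_add ?_ (add_le_add ?_ (add_le_add ?_ (add_le_add ?_ ?_))))
    · exact hTt
    · exact le_trans (by exact_mod_cast hA1 _ _) hfa
    · refine le_trans ?_ hub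
      exact_mod_cast hA3' _ _ _ _ (fun Q hQ => absurd hQ (Finset.notMem_empty _))
        (hua ∅ subset_rfl)
    · refine Finset.sum_le_sum fun i hi => ?_
      exact le_trans (by exact_mod_cast hA1 _ _) (hT1 i (Finset.mem_range.1 hi)).1
    · refine Finset.sum_le_sum fun i hi => ?_
      refine le_trans (Finset.sum_le_sum fun Z hZ => ?_) (hT1 i (Finset.mem_range.1 hi)).2.2
      exact_mod_cast hA3 i (Finset.mem_range.1 hi) Z hZ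
  have e1 : ∑ _i ∈ range (k + 1), ε₀ / (k + 1) * (X : ℝ) ^ 5 = ε₀ * (X : ℝ) ^ 5 := by
    rw [Finset.sum_const, Finset.card_range, nsmul_eq_mul]
    push_cast
    field_simp
  rw [e1] at hc2
  calc (({p : ℤ × ℤ | p ∈ AllT T ∧
        ¬ (Rk (𝒬a 0).card k δ 𝒬 p ∧ ∀ z : ℤ, z ^ 3 + p.1 * z + p.2 ≠ 0)}.ncard : ℕ) : ℝ)
      ≤ 5 * ε₀ * (X : ℝ) ^ 5 := by linarith
    _ ≤ 5 * ε₀ * (32 * (T : ℝ) ^ (5 / 6 : ℝ)) := mul_le_mul_of_nonneg_left hX5 (by positivity)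
    _ = 5 * ε₀ * 32 * (T : ℝ) ^ (5 / 6 : ℝ) := by ring
    _ ≤ ε * ((AllT T).ncard : ℝ) := by
        refine mul_le_mul hε₀' (hT2.2.trans ?_) (by positivity) hε.le
        refine Nat.cast_le.2 (Set.ncard_le_ncard (fun p hp => ⟨hp.1.ne', hp.2⟩) ?_)
        exact (fin_hgt T).subset fun P hP => hP.2

/-- **Almost all curves, with the parity.** -/
theorem main4 (H : Pcs) (hPL : S_PLBB) (hMO : S_MOMW) (hPR : S_PRW) (hTA : S_TAILB) (hDE : S_DEN)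
    (hTV : S_TV2) {ε : ℝ} (hε : 0 < ε) :
    ∃ (k : ℕ) (𝒬 : ℕ → Finset ℕ), (∀ i < k + 1, Pr8 (𝒬 i)) ∧
      (∀ i < k + 1, ∀ j < i, Disjoint (𝒬 j) (𝒬 i)) ∧ ∀ᶠ T : ℕ in atTop,
      (({p : ℤ × ℤ | p ∈ AllT T ∧ ¬ (NiceP k 𝒬 ε p ∧ ∀ z : ℤ, z ^ 3 + p.1 * z + p.2 ≠ 0)}.ncard : ℕ) : ℝ) ≤
        ε * ((AllT T).ncard : ℝ) := by
  obtain ⟨R, h⟩ := main3 H hPL hMO hPR hTA hDE hε
  obtain ⟨k, δ, hδ, hδ1, hTVk⟩ := hTV (ε / 2) (half_pos hε) R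
  obtain ⟨𝒬, h8, hdis, hev⟩ := h k δ hδ hδ1
  refine ⟨k, 𝒬, h8, hdis, ?_⟩
  filter_upwards [hev] with T hT
  refine le_trans ?_ hT
  have hfin : {p : ℤ × ℤ | p ∈ AllT T ∧
      ¬ (Rk R k δ 𝒬 p ∧ ∀ z : ℤ, z ^ 3 + p.1 * z + p.2 ≠ 0)}.Finite :=
    (fin_hgt T).subset fun P hP => hP.1.2
  exact Nat.cast_le.2 (Set.ncard_le_ncard
    (fun p hp => ⟨hp.1, fun hn => hp.2 ⟨niceP_of hTVk hn.1, hn.2⟩⟩) hfin)

end Pool.Agent.H29B
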